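import Pool.Agent.CJX.StB

/-!
# CJX: averaging identity [AVG]
-/

set_option autoImplicit false

open Finset
open scoped BigOperators

namespace Pool.Agent.CJX

private theorem AVG_shift (u : ℤ → ℂ) (a b : ℤ) (n l : ℕ) (hl : l ≤ n)
    (hu : ∀ j, u j ≠ 0 → a ≤ j ∧ j ≤ b) :
    ∑ j ∈ Icc (a - n) b, u (j + l) = ∑ j ∈ Icc a b, u j := by
  have hl' : (l : ℤ) ≤ (n : ℤ) := by exact_mod_cast hl
  have hl0 : (0 : ℤ) ≤ (l : ℤ) := Int.natCast_nonneg l
  symm
  apply Finset.sum_bij_ne_zero (fun j _ _ => j - (l : ℤ))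
  · intro j hj _
    rw [mem_Icc] at hj ⊢
    constructor
    · linarith [hj.1]
    · linarith [hj.2]
  · intro i _ _ j _ _ h
    linarith
  · intro j _ hne
    have h2 := hu _ hne
    exact ⟨j + l, mem_Icc.2 h2, hne, by ring⟩
  · intro j _ _
    rw [sub_add_cancel]

theorem thm_AVG : St_AVG := by
  intro u a b n hu
  rw [Finset.sum_comm]
  have h1 : ∀ l ∈ range (n + 1), ∑ j ∈ Icc (a - n) b, (n.choose l : ℂ) * u (j + l) =
      (n.choose l : ℂ) * ∑ j ∈ Icc a b, u j := by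
    intro l hl
    rw [← Finset.mul_sum, AVG_shift u a b n l (Nat.lt_succ_iff.1 (mem_range.1 hl)) hu]
  rw [Finset.sum_congr rfl h1, ← Finset.sum_mul]
  congr 1
  have h2 := Nat.sum_range_choose n
  exact_mod_cast h2

end Pool.Agent.CJX
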