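import Pool.Agent.CJX.StC

/-!
# CJX: the bound of `PP` for all integers
-/

set_option autoImplicit false

open Finset
open scoped BigOperators

namespace Pool.Agent.CJX

open Pool.Agent.BorTree Pool.Agent.FEC

private theorem BPP_sn_add (N : ℕ) (m : ℤ) : sn N (m + (2 * N + 1)) = sn N m := by
  have h := sn_sub_r N (m + (2 * N + 1))
  rw [add_sub_cancel_right] at h
  exact h.symm

private theorem BPP_PP_add (N k : ℕ) (M : ℤ) : PP N k (M + (2 * N + 1)) = PP N k M := by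
  unfold PP
  rw [BPP_sn_add]
  congr 1
  apply Finset.prod_congr rfl
  intro j _
  have e1 : M + (2 * (N : ℤ) + 1) + ((j : ℤ) + 1) = (M + ((j : ℤ) + 1)) + (2 * N + 1) := by ring
  have e2 : M + (2 * (N : ℤ) + 1) - ((j : ℤ) + 1) = (M - ((j : ℤ) + 1)) + (2 * N + 1) := by ring
  rw [e1, e2, BPP_sn_add, BPP_sn_add]

private theorem BPP_PP_add_nat (N k : ℕ) (M : ℤ) (q : ℕ) :
    PP N k (M + (2 * N + 1) * q) = PP N k M := by
  induction q with
  | zero => simp
  | succ q ih =>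
    have e : M + (2 * (N : ℤ) + 1) * ((q + 1 : ℕ) : ℤ) =
        (M + (2 * N + 1) * q) + (2 * N + 1) := by
      push_cast
      ring
    rw [e, BPP_PP_add, ih]

private theorem BPP_PP_add_int (N k : ℕ) (M : ℤ) (q : ℤ) :
    PP N k (M + (2 * N + 1) * q) = PP N k M := by
  rcases Int.eq_nat_or_neg q with ⟨n, rfl | rfl⟩
  · exact BPP_PP_add_nat N k M n
  · have h := BPP_PP_add_nat N k (M + (2 * N + 1) * (-(n : ℤ))) n
    have e : M + (2 * (N : ℤ) + 1) * (-(n : ℤ)) + (2 * N + 1) * n = M := by ring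
    rw [e] at h
    exact h.symm

theorem thm_BPP : St_BPP := by
  intro N k hN hk M
  have hr : (0 : ℤ) < 2 * (N : ℤ) + 1 := by positivity
  have h0 : 0 ≤ M % (2 * (N : ℤ) + 1) := Int.emod_nonneg _ hr.ne'
  have h1 : M % (2 * (N : ℤ) + 1) < 2 * (N : ℤ) + 1 := Int.emod_lt_of_pos _ hr
  obtain ⟨y, hy⟩ := Int.eq_ofNat_of_zero_le h0
  have h2 : PP N k M = PP N k (y : ℤ) := by
    have h3 := BPP_PP_add_int N k (M % (2 * (N : ℤ) + 1)) (M / (2 * (N : ℤ) + 1))
    have h4 : M % (2 * (N : ℤ) + 1) + (2 * (N : ℤ) + 1) * (M / (2 * (N : ℤ) + 1)) = M :=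
      Int.emod_add_mul_ediv M _
    rw [h4, hy] at h3
    exact h3
  rw [h2]
  have h5 : y ≤ 2 * N + 1 := by omega
  exact PP_bound hN hk h5

end Pool.Agent.CJX
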