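import Pool.Agent.CJX.StB

/-!
# CJX, module CCD: the differences of `cc`
-/

set_option autoImplicit false

open Finset Filter MeasureTheory
open scoped BigOperators

namespace Pool.Agent.CJX

open Pool.Agent.BorTree Pool.Agent.FEC

theorem CCD_norm_gg (N : ℕ) (m : ℤ) : ‖gg N m‖ = 1 := by
  unfold gg ee
  exact Complex.norm_exp_ofReal_mul_I _

theorem CCD_eight (s : ℕ) (x : ℝ) (h : (s : ℝ) ≤ x / 3) : (8 : ℝ) ^ s ≤ Real.exp x := by
  have h1 : (8 : ℝ) ≤ Real.exp 3 := by
    have h2 : (2.7 : ℝ) ≤ Real.exp 1 := by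
      have := Real.exp_one_gt_d9
      linarith
    have h3 : Real.exp 3 = Real.exp 1 ^ 3 := by
      rw [← Real.exp_nat_mul]
      norm_num
    rw [h3]
    have h4 : (2.7 : ℝ) ^ 3 ≤ Real.exp 1 ^ 3 := by gcongr
    have h5 : (8 : ℝ) ≤ (2.7 : ℝ) ^ 3 := by norm_num
    exact h5.trans h4
  calc (8 : ℝ) ^ s ≤ Real.exp 3 ^ s := by gcongr
    _ = Real.exp (s * 3) := by rw [Real.exp_nat_mul]
    _ ≤ Real.exp x := by
        apply Real.exp_le_exp.2
        linarith

theorem thm_CCD (h1 : St_DIF) (h2 : St_TAI) : St_CCD := by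
  obtain ⟨η1, hη1, hE1⟩ := h1
  obtain ⟨c, hc, hE2⟩ := h2
  refine ⟨min η1 (min (c / 3) (1 / 10000)), lt_min hη1 (lt_min (by linarith) (by norm_num)), ?_⟩
  filter_upwards [hE1, hE2, eventually_ge_atTop 2000] with N hN1 hN2 hN k hk s hs m
  have hN0 : (0 : ℝ) ≤ (N : ℝ) := Nat.cast_nonneg N
  have hs1 : (s : ℝ) ≤ η1 * N :=
    hs.trans (mul_le_mul_of_nonneg_right (min_le_left _ _) hN0)
  have hs2 : (s : ℝ) ≤ c / 3 * N :=
    hs.trans (mul_le_mul_of_nonneg_right ((min_le_right _ _).trans (min_le_left _ _)) hN0)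
  have hs3 : (s : ℝ) ≤ 1 / 10000 * N :=
    hs.trans (mul_le_mul_of_nonneg_right ((min_le_right _ _).trans (min_le_right _ _)) hN0)
  have hs4 : 10000 * (s : ℤ) ≤ N := by
    have h : (10000 : ℝ) * s ≤ N := by linarith
    exact_mod_cast h
  have hNz : (2000 : ℤ) ≤ (N : ℤ) := by exact_mod_cast hN
  -- positivity
  have hPP : 0 ≤ PP N k N := by
    have h := hN2 k hk 0 (Nat.zero_le _) (by
      have e : (4 * ((0 : ℕ) : ℤ) - (2 * (N : ℤ) + 1)) = -(2 * (N : ℤ) + 1) := by
        push_cast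
        ring
      rw [e, abs_neg, abs_of_nonneg (by omega)]
      omega)
    exact (mul_nonneg_iff_of_pos_left (Real.exp_pos _)).1 ((abs_nonneg _).trans h)
  have hr1 : (1 : ℝ) ≤ 2 * (2 * (N : ℝ) + 1) := by linarith
  by_cases hall : ∀ l : ℕ, l ≤ s → 200 * |4 * (m + (l : ℤ) * 3) - (2 * (N : ℤ) + 1)| ≤
      2 * (N : ℤ) + 1
  · have he : (fwdDiff (3 : ℤ))^[s] (cc N k) m = (fwdDiff (3 : ℤ))^[s] (aa N k) m := by
      rw [fwdDiff_iter_eq_sum_shift, fwdDiff_iter_eq_sum_shift]
      apply Finset.sum_congr rfl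
      intro l hl
      rw [Finset.mem_range] at hl
      have h3 := hall l (by omega)
      have h4 : cc N k (m + l • (3 : ℤ)) = aa N k (m + l • (3 : ℤ)) := by
        unfold cc
        rw [if_pos]
        rw [nsmul_eq_mul]
        exact h3
      rw [h4]
    rw [he]
    have h3 := hall 0 (Nat.zero_le _)
    have h4 := hN1 k hk s hs1 m (by
      have e : m + ((0 : ℕ) : ℤ) * 3 = m := by
        push_cast
        ring
      rw [e] at h3
      exact h3)
    refine h4.trans ?_
    have h5 : (0 : ℝ) ≤ 2 * (2 * N + 1) * PP N k N := mul_nonneg (by linarith) hPP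
    apply mul_le_mul_of_nonneg_left _ h5
    gcongr
    norm_num
  · push Not at hall
    obtain ⟨l0, hl0, hbad⟩ := hall
    -- every value is small
    have hval : ∀ l : ℕ, l ≤ s → ‖cc N k (m + l • (3 : ℤ))‖ ≤ Real.exp (-(c * N)) * PP N k N := by
      intro l hl
      unfold cc
      split_ifs with hcore
      · rw [nsmul_eq_mul] at hcore ⊢
        obtain ⟨m', hm'⟩ : ∃ m' : ℤ, m' = m + (l : ℤ) * 3 := ⟨_, rfl⟩
        rw [← hm'] at hcore ⊢
        have hd : |(4 * (m + (l0 : ℤ) * 3) - (2 * (N : ℤ) + 1)) - (4 * m' - (2 * (N : ℤ) + 1))| ≤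
            12 * (s : ℤ) := by
          rw [hm', abs_le]
          constructor
          · omega
          · omega
        have hfar : 2 * (N : ℤ) + 1 ≤ 400 * |4 * m' - (2 * (N : ℤ) + 1)| := by
          have h6 := abs_sub_abs_le_abs_sub (4 * (m + (l0 : ℤ) * 3) - (2 * (N : ℤ) + 1))
            (4 * m' - (2 * (N : ℤ) + 1))
          omega
        have hrange : 0 ≤ m' ∧ m' ≤ N := by
          have h6 := abs_le.1 (show |4 * m' - (2 * (N : ℤ) + 1)| ≤ (2 * (N : ℤ) + 1) / 200 by omega)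
          constructor
          · omega
          · omega
        obtain ⟨n0, hn0⟩ : ∃ n0 : ℕ, (n0 : ℤ) = m' := ⟨m'.toNat, Int.toNat_of_nonneg hrange.1⟩
        rw [← hn0] at hfar hrange ⊢
        have h7 := hN2 k hk n0 (by exact_mod_cast hrange.2) hfar
        unfold aa
        rw [norm_mul, CCD_norm_gg, one_mul, Complex.norm_real, Real.norm_eq_abs]
        exact h7
      · rw [norm_zero]
        exact mul_nonneg (Real.exp_pos _).le hPP
    have hsum : ‖(fwdDiff (3 : ℤ))^[s] (cc N k) m‖ ≤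
        ∑ l ∈ range (s + 1), (s.choose l : ℝ) * (Real.exp (-(c * N)) * PP N k N) := by
      rw [fwdDiff_iter_eq_sum_shift]
      refine (norm_sum_le _ _).trans (Finset.sum_le_sum ?_)
      intro l hl
      rw [Finset.mem_range] at hl
      rw [zsmul_eq_mul, norm_mul]
      have h8 : ‖(((-1 : ℤ) ^ (s - l) * (s.choose l : ℤ) : ℤ) : ℂ)‖ = (s.choose l : ℝ) := by
        push_cast
        rw [norm_mul, norm_pow, norm_neg, norm_one, one_pow, one_mul, Complex.norm_natCast]
      rw [h8]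
      exact mul_le_mul_of_nonneg_left (hval l (by omega)) (Nat.cast_nonneg _)
    rw [← Finset.sum_mul] at hsum
    have hch : ∑ l ∈ range (s + 1), (s.choose l : ℝ) = 2 ^ s := by
      have := Nat.sum_range_choose s
      exact_mod_cast this
    rw [hch] at hsum
    refine hsum.trans ?_
    have h9 := CCD_eight s (c * N) (by linarith)
    have h10 : (2 : ℝ) ^ s * Real.exp (-(c * N)) ≤ (1 / 4) ^ s := by
      have h11 : (2 : ℝ) ^ s = 8 ^ s * (1 / 4) ^ s := by
        rw [← mul_pow]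
        norm_num
      have h12 : (8 : ℝ) ^ s * Real.exp (-(c * N)) ≤ 1 := by
        rw [Real.exp_neg]
        rw [← div_eq_mul_inv]
        exact (div_le_one (Real.exp_pos _)).2 h9
      calc (2 : ℝ) ^ s * Real.exp (-(c * N))
          = (8 ^ s * Real.exp (-(c * N))) * (1 / 4) ^ s := by rw [h11]; ring
        _ ≤ 1 * (1 / 4) ^ s := by
            apply mul_le_mul_of_nonneg_right h12
            positivity
        _ = (1 / 4) ^ s := one_mul _
    calc (2 : ℝ) ^ s * (Real.exp (-(c * N)) * PP N k N)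
        = ((2 : ℝ) ^ s * Real.exp (-(c * N))) * PP N k N := by ring
      _ ≤ (1 / 4) ^ s * PP N k N := mul_le_mul_of_nonneg_right h10 hPP
      _ = 1 * ((1 / 4) ^ s * PP N k N) := (one_mul _).symm
      _ ≤ (2 * (2 * N + 1)) * ((1 / 4) ^ s * PP N k N) := by
          apply mul_le_mul_of_nonneg_right hr1
          exact mul_nonneg (by positivity) hPP
      _ = 2 * (2 * N + 1) * PP N k N * (1 / 4) ^ s := by ring

end Pool.Agent.CJX
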