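import Pool.Agent.CJX.StA

/-!
# CJX, module COR: exchange of the sums in the core
-/

set_option autoImplicit false

open Finset
open scoped BigOperators

namespace Pool.Agent.CJX

open Pool.Agent.BorTree Pool.Agent.FEC

private theorem COR_core {N k : ℕ} {m : ℤ} (h : cc N k m ≠ 0) :
    200 * |4 * m - (2 * (N : ℤ) + 1)| ≤ 2 * (N : ℤ) + 1 := by
  by_contra hc
  apply h
  unfold cc
  rw [if_neg hc]

theorem thm_COR (h1 : St_SSM) : St_COR := by
  intro N R k hNR
  have hR : Odd R := Nat.odd_iff.2 (by omega)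
  have hNR' : 2 * (N : ℤ) + 1 = 15 * R := by exact_mod_cast hNR
  constructor
  · have hm : ∀ m ∈ Icc (1 : ℤ) N, cc N k m * SS R m =
        - ∑ j ∈ Icc (1 : ℤ) (3 * R), ff R j *
          (if m < 3 * j ∧ m ≤ 9 * (R : ℤ) - 3 * j then cc N k m else 0) := by
      intro m hm
      rw [Finset.mem_Icc] at hm
      by_cases h0 : cc N k m = 0
      · rw [h0, zero_mul]
        simp
      · have hcore := COR_core h0
        have habs := abs_le.1 (show |4 * m - (2 * (N : ℤ) + 1)| ≤ |4 * m - (2 * (N : ℤ) + 1)| from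
          le_rfl)
        have hle := h1 R hR m hm.1 (by omega)
        rw [hle, mul_neg, Finset.sum_filter, Finset.mul_sum]
        congr 1
        refine Finset.sum_congr rfl fun j _ => ?_
        by_cases hj : m < 3 * j ∧ m ≤ 9 * (R : ℤ) - 3 * j
        · rw [if_pos hj, if_pos hj, mul_comm]
        · rw [if_neg hj, if_neg hj, mul_zero, mul_zero]
    rw [Finset.sum_congr rfl hm, Finset.sum_neg_distrib, Finset.sum_comm]
    congr 1
    refine Finset.sum_congr rfl fun j _ => ?_
    unfold Ps
    rw [Finset.mul_sum]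
  · intro j hj
    unfold Ps at hj
    obtain ⟨m, hm, hne⟩ := Finset.exists_ne_zero_of_sum_ne_zero hj
    have hcond : m < 3 * j ∧ m ≤ 9 * (R : ℤ) - 3 * j := by
      by_contra hc
      rw [if_neg hc] at hne
      exact hne rfl
    rw [if_pos hcond] at hne
    have hcore := COR_core hne
    have habs := abs_le.1 (show |4 * m - (2 * (N : ℤ) + 1)| ≤ |4 * m - (2 * (N : ℤ) + 1)| from
      le_rfl)
    constructor <;> omega

end Pool.Agent.CJX
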