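import Pool.Agent.CJX.StB

/-!
# CJX [DIA] : differences of `aa` as Fourier and Gaussian integral (helper89)
-/

set_option autoImplicit false

open Finset Filter MeasureTheory
open scoped BigOperators

namespace Pool.Agent.CJX

open Pool.Agent.BorTree Pool.Agent.FEC

private theorem DIA_ee_add (x y : ℝ) : ee (x + y) = ee x * ee y := by
  unfold ee
  rw [← Complex.exp_add]
  congr 1
  push_cast
  ring

private theorem DIA_norm_ee (x : ℝ) : ‖ee x‖ = 1 := by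
  unfold ee
  exact Complex.norm_exp_ofReal_mul_I _

private theorem DIA_ee_nat (n : ℕ) : ee (n : ℝ) = 1 := by
  unfold ee
  rw [Complex.exp_eq_one_iff]
  exact ⟨n, by push_cast; ring⟩

private theorem DIA_ee_pow (x : ℝ) (l : ℕ) : ee x ^ l = ee (l * x) := by
  unfold ee
  rw [← Complex.exp_nat_mul]
  congr 1
  push_cast
  ring

private theorem DIA_gauss_eq (r : ℝ) (l : ℕ) (u : ℝ) :
    ((Real.exp (-(Real.pi * u ^ 2)) : ℝ) : ℂ) *
      (Complex.exp (((6 * Real.pi * u / Real.sqrt r : ℝ) : ℂ) * (1 + Complex.I))) ^ l =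
    Complex.exp ((-(Real.pi : ℂ)) * (u : ℂ) ^ 2 +
      ((l : ℂ) * ((6 * Real.pi / Real.sqrt r : ℝ) : ℂ) * (1 + Complex.I)) * (u : ℂ) + 0) := by
  rw [← Complex.exp_nat_mul, Complex.ofReal_exp, ← Complex.exp_add]
  congr 1
  push_cast
  ring

private theorem DIA_gauss_integrable (r : ℝ) (l : ℕ) :
    Integrable (fun u : ℝ => ((Real.exp (-(Real.pi * u ^ 2)) : ℝ) : ℂ) *
      (Complex.exp (((6 * Real.pi * u / Real.sqrt r : ℝ) : ℂ) * (1 + Complex.I))) ^ l) := by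
  have h : (fun u : ℝ => ((Real.exp (-(Real.pi * u ^ 2)) : ℝ) : ℂ) *
      (Complex.exp (((6 * Real.pi * u / Real.sqrt r : ℝ) : ℂ) * (1 + Complex.I))) ^ l) =
      fun u : ℝ => Complex.exp ((-(Real.pi : ℂ)) * (u : ℂ) ^ 2 +
      ((l : ℂ) * ((6 * Real.pi / Real.sqrt r : ℝ) : ℂ) * (1 + Complex.I)) * (u : ℂ) + 0) :=
    funext (fun u => DIA_gauss_eq r l u)
  rw [h]
  have hb : 0 < ((Real.pi : ℂ)).re := by
    rw [Complex.ofReal_re]
    exact Real.pi_pos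
  exact integrable_cexp_quadratic hb _ 0

private theorem DIA_gauss_integral (r : ℝ) (hr : 0 < r) (l : ℕ) :
    ∫ u : ℝ, ((Real.exp (-(Real.pi * u ^ 2)) : ℝ) : ℂ) *
      (Complex.exp (((6 * Real.pi * u / Real.sqrt r : ℝ) : ℂ) * (1 + Complex.I))) ^ l =
      ee (9 * (l : ℝ) ^ 2 / r) := by
  have h : (fun u : ℝ => ((Real.exp (-(Real.pi * u ^ 2)) : ℝ) : ℂ) *
      (Complex.exp (((6 * Real.pi * u / Real.sqrt r : ℝ) : ℂ) * (1 + Complex.I))) ^ l) =
      fun u : ℝ => Complex.exp ((-(Real.pi : ℂ)) * (u : ℂ) ^ 2 +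
      ((l : ℂ) * ((6 * Real.pi / Real.sqrt r : ℝ) : ℂ) * (1 + Complex.I)) * (u : ℂ) + 0) :=
    funext (fun u => DIA_gauss_eq r l u)
  have hb : (-(Real.pi : ℂ)).re < 0 := by
    rw [Complex.neg_re, Complex.ofReal_re]
    exact neg_neg_of_pos Real.pi_pos
  rw [h, integral_cexp_quadratic hb]
  have hpi : (Real.pi : ℂ) ≠ 0 := by
    exact_mod_cast Real.pi_ne_zero
  have hr' : (r : ℂ) ≠ 0 := by
    exact_mod_cast hr.ne'
  have h1 : ((Real.pi : ℂ) / - -(Real.pi : ℂ)) ^ (1 / 2 : ℂ) = 1 := by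
    rw [neg_neg, div_self hpi, Complex.one_cpow]
  rw [h1, one_mul]
  unfold ee
  congr 1
  have hs : ((Real.sqrt r : ℝ) : ℂ) ^ 2 = (r : ℂ) := by
    rw [← Complex.ofReal_pow, Real.sq_sqrt hr.le]
  have hs0 : ((Real.sqrt r : ℝ) : ℂ) ≠ 0 := by
    intro h0
    rw [h0] at hs
    exact hr' (by rw [← hs]; ring)
  have hI : (1 + Complex.I) ^ 2 = 2 * Complex.I := by
    have := Complex.I_sq
    linear_combination this
  have e1 : ((l : ℂ) * ((6 * Real.pi / Real.sqrt r : ℝ) : ℂ) * (1 + Complex.I)) ^ 2 =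
      (l : ℂ) ^ 2 * (36 * (Real.pi : ℂ) ^ 2 / (r : ℂ)) * (2 * Complex.I) := by
    rw [mul_pow, mul_pow, hI]
    push_cast
    rw [div_pow, hs]
    ring
  rw [e1]
  push_cast
  field_simp
  ring

private theorem DIA_PP (h1 : St_QPP) (h2 : St_FOU) (N k q : ℕ) (hN : 1 ≤ N) (hk : k < N)
    (hk2 : N ≤ 2 * k) (hq : k + 1 ≤ 2 * q) (hqN : q ≤ N) :
    (PP N k (2 * (q : ℤ)) : ℂ) * (sn N 1 : ℂ) = (-1) ^ N *
      ∑ w ∈ range (2 * N + 1), XX N (2 * N - 2 * k - 1) ((w : ℝ) / (2 * N + 1)) *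
        ee (-((w : ℝ) * ((2 * q - k - 1 : ℕ) : ℝ) / (2 * N + 1))) := by
  have a1 := ((h1 N hN).2 k hk).2 hk2 q hqN
  have a2 := h2 N (2 * N - 2 * k - 1) (2 * q - k - 1) (by omega) (by omega)
  have a3 : (if k + 1 ≤ 2 * q ∧ 2 * q ≤ 2 * N - k then
      (-1 : ℝ) ^ N * (2 * N + 1) * qb N (2 * N - 2 * k - 1) (2 * q - k - 1) else 0) =
      (-1 : ℝ) ^ N * (2 * N + 1) * (if 2 * q - k - 1 ≤ 2 * N - 2 * k - 1 then
        qb N (2 * N - 2 * k - 1) (2 * q - k - 1) else 0) := by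
    by_cases hc : 2 * q - k - 1 ≤ 2 * N - 2 * k - 1
    · rw [if_pos hc, if_pos ⟨hq, by omega⟩]
    · rw [if_neg hc, if_neg (fun h => hc (by omega)), mul_zero]
  rw [a3] at a1
  have a4 : ((PP N k (2 * (q : ℤ)) * sn N 1 : ℝ) : ℂ) = (((-1 : ℝ) ^ N * (2 * N + 1) *
      (if 2 * q - k - 1 ≤ 2 * N - 2 * k - 1 then
        qb N (2 * N - 2 * k - 1) (2 * q - k - 1) else 0) : ℝ) : ℂ) := by
    rw [a1]
  rw [Complex.ofReal_mul, Complex.ofReal_mul, a2] at a4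
  rw [a4]
  have hr : (2 * (N : ℂ) + 1) ≠ 0 := by
    have : ((2 * N + 1 : ℕ) : ℂ) ≠ 0 := by
      exact_mod_cast Nat.succ_ne_zero (2 * N)
    intro h0
    apply this
    push_cast
    exact h0
  push_cast
  rw [mul_assoc, ← mul_assoc (2 * (N : ℂ) + 1), mul_one_div_cancel hr, one_mul]

/-- [DIA] differences of `aa` as Fourier and Gaussian integral -/
theorem thm_DIA (h1 : St_QPP) (h2 : St_FOU) : St_DIA := by
  intro N k s m hN hk hk2 hm hms
  have hrpos : (0 : ℝ) < 2 * N + 1 := by positivity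
  have hrne : (2 * (N : ℝ) + 1) ≠ 0 := hrpos.ne'
  set K := 2 * N - 2 * k - 1 with hK
  -- the phase
  obtain ⟨A, hA⟩ : ∃ A : ℕ → ℂ, ∀ w, A w = XX N K ((w : ℝ) / (2 * N + 1)) *
      (gg N m * ee (-((w : ℝ) * (2 * m - k - 1) / (2 * N + 1)))) := ⟨_, fun _ => rfl⟩
  obtain ⟨z, hz⟩ : ∃ z : ℕ → ℝ → ℂ, ∀ w u, z w u =
      zv (2 * N + 1) ((4 * m - (2 * N + 1)) / (2 * N + 1)) ((w : ℝ) / (2 * N + 1)) u :=
    ⟨_, fun _ _ => rfl⟩
  have hAn : ∀ w, ‖A w‖ = ‖XX N K ((w : ℝ) / (2 * N + 1))‖ := by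
    intro w
    rw [hA, norm_mul, norm_mul, DIA_norm_ee]
    unfold gg
    rw [DIA_norm_ee, mul_one, mul_one]
  have hzint : ∀ w l : ℕ, Integrable (fun u : ℝ => ((Real.exp (-(Real.pi * u ^ 2)) : ℝ) : ℂ) *
      z w u ^ l) := by
    intro w l
    have h := (DIA_gauss_integrable (2 * N + 1) l).const_mul
      (ee (3 * ((4 * m - (2 * N + 1)) / (2 * N + 1)) / 2 - 6 * ((w : ℝ) / (2 * N + 1))) ^ l)
    refine h.congr (Filter.Eventually.of_forall (fun u => ?_))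
    beta_reduce
    rw [hz]
    unfold zv
    rw [mul_pow]
    ring
  have hzi : ∀ w l : ℕ, ∫ u : ℝ, ((Real.exp (-(Real.pi * u ^ 2)) : ℝ) : ℂ) * z w u ^ l =
      ee (3 * ((4 * m - (2 * N + 1)) / (2 * N + 1)) / 2 - 6 * ((w : ℝ) / (2 * N + 1))) ^ l *
        ee (9 * (l : ℝ) ^ 2 / (2 * N + 1)) := by
    intro w l
    rw [← DIA_gauss_integral (2 * N + 1) hrpos l, ← integral_const_mul]
    congr 1
    funext u
    rw [hz]
    unfold zv
    rw [mul_pow]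
    ring
  -- the terms
  have hterm : ∀ l : ℕ, l ≤ s → aa N k (m + 3 * (l : ℤ)) * (sn N 1 : ℂ) = (-1) ^ N *
      ∑ w ∈ range (2 * N + 1), A w *
        ∫ u : ℝ, ((Real.exp (-(Real.pi * u ^ 2)) : ℝ) : ℂ) * z w u ^ l := by
    intro l hl
    have hm0 : 0 ≤ m + 3 * (l : ℤ) := by omega
    obtain ⟨q, hq⟩ := Int.eq_ofNat_of_zero_le hm0
    have hl' : (l : ℤ) ≤ s := by exact_mod_cast hl
    have hq1 : k + 1 ≤ 2 * q := by omega
    have hq2 : q ≤ N := by omega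
    unfold aa
    rw [hq]
    change gg N (q : ℤ) * (PP N k (2 * (q : ℤ)) : ℂ) * (sn N 1 : ℂ) = _
    rw [mul_assoc, DIA_PP h1 h2 N k q hN hk hk2 hq1 hq2, mul_left_comm, Finset.mul_sum]
    congr 1
    apply Finset.sum_congr rfl
    intro w _
    rw [hzi, hA]
    have hqr : (q : ℝ) = (m : ℝ) + 3 * l := by
      have : ((q : ℤ) : ℝ) = ((m + 3 * (l : ℤ) : ℤ) : ℝ) := by rw [hq]
      push_cast at this
      exact this
    have hb : ((2 * q - k - 1 : ℕ) : ℝ) = 2 * (m : ℝ) - k - 1 + 6 * l := by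
      have h3 : ((2 * q - k - 1 : ℕ) : ℝ) = 2 * (q : ℝ) - k - 1 := by
        rw [Nat.sub_sub, Nat.cast_sub (by omega)]
        push_cast
        ring
      rw [h3, hqr]
      ring
    have hph : gg N (q : ℤ) * ee (-((w : ℝ) * ((2 * q - k - 1 : ℕ) : ℝ) / (2 * N + 1))) =
        gg N m * ee (-((w : ℝ) * (2 * m - k - 1) / (2 * N + 1))) *
        (ee (3 * ((4 * m - (2 * N + 1)) / (2 * N + 1)) / 2 - 6 * ((w : ℝ) / (2 * N + 1))) ^ l *
        ee (9 * (l : ℝ) ^ 2 / (2 * N + 1))) := by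
      unfold gg
      rw [DIA_ee_pow, ← DIA_ee_add, ← DIA_ee_add, ← DIA_ee_add, ← DIA_ee_add, hb]
      have e3 : ((q : ℤ) : ℝ) / 2 + ((q : ℤ) : ℝ) ^ 2 / (2 * N + 1) +
          -((w : ℝ) * (2 * (m : ℝ) - k - 1 + 6 * l) / (2 * N + 1)) =
          ((m : ℝ) / 2 + (m : ℝ) ^ 2 / (2 * N + 1) +
            -((w : ℝ) * (2 * m - k - 1) / (2 * N + 1)) +
            ((l : ℝ) * (3 * ((4 * m - (2 * N + 1)) / (2 * N + 1)) / 2 -
              6 * ((w : ℝ) / (2 * N + 1))) + 9 * (l : ℝ) ^ 2 / (2 * N + 1))) +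
            ((3 * l : ℕ) : ℝ) := by
        rw [Int.cast_natCast, hqr]
        push_cast
        field_simp
        ring
      rw [e3, DIA_ee_add, DIA_ee_nat, mul_one]
    rw [mul_left_comm, hph]
    ring
  -- the difference
  have hdiff : (fwdDiff (3 : ℤ))^[s] (aa N k) m * (sn N 1 : ℂ) = (-1) ^ N *
      ∑ w ∈ range (2 * N + 1), A w *
        ∫ u : ℝ, ((Real.exp (-(Real.pi * u ^ 2)) : ℝ) : ℂ) * (z w u - 1) ^ s := by
    have e1 : (fwdDiff (3 : ℤ))^[s] (aa N k) m * (sn N 1 : ℂ) =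
        ∑ l ∈ range (s + 1), (((-1 : ℂ) ^ (s - l) * (s.choose l : ℂ)) *
          (aa N k (m + 3 * (l : ℤ)) * (sn N 1 : ℂ))) := by
      rw [fwdDiff_iter_eq_sum_shift, Finset.sum_mul]
      apply Finset.sum_congr rfl
      intro l _
      rw [zsmul_eq_mul, nsmul_eq_mul, mul_comm (l : ℤ) 3]
      push_cast
      ring
    rw [e1]
    have e2 : ∀ l ∈ range (s + 1), (((-1 : ℂ) ^ (s - l) * (s.choose l : ℂ)) *
          (aa N k (m + 3 * (l : ℤ)) * (sn N 1 : ℂ))) = (-1) ^ N *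
          ∑ w ∈ range (2 * N + 1), A w * (((-1 : ℂ) ^ (s - l) * (s.choose l : ℂ)) *
            ∫ u : ℝ, ((Real.exp (-(Real.pi * u ^ 2)) : ℝ) : ℂ) * z w u ^ l) := by
      intro l hl
      rw [hterm l (by rw [Finset.mem_range] at hl; omega), mul_left_comm, Finset.mul_sum]
      congr 1
      apply Finset.sum_congr rfl
      intro w _
      ring
    rw [Finset.sum_congr rfl e2, ← Finset.mul_sum, Finset.sum_comm]
    congr 1
    apply Finset.sum_congr rfl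
    intro w _
    rw [← Finset.mul_sum]
    congr 1
    have e3 : ∀ l ∈ range (s + 1), ((-1 : ℂ) ^ (s - l) * (s.choose l : ℂ)) *
            ∫ u : ℝ, ((Real.exp (-(Real.pi * u ^ 2)) : ℝ) : ℂ) * z w u ^ l =
          ∫ u : ℝ, ((-1 : ℂ) ^ (s - l) * (s.choose l : ℂ)) *
            (((Real.exp (-(Real.pi * u ^ 2)) : ℝ) : ℂ) * z w u ^ l) := by
      intro l _
      rw [integral_const_mul]
    rw [Finset.sum_congr rfl e3, ← integral_finsetSum _ (fun l _ => (hzint w l).const_mul _)]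
    congr 1
    funext u
    rw [sub_eq_add_neg, add_pow, Finset.mul_sum]
    apply Finset.sum_congr rfl
    intro l _
    ring
  have hfin : ‖(fwdDiff (3 : ℤ))^[s] (aa N k) m‖ * sn N 1 ≤
      ‖(fwdDiff (3 : ℤ))^[s] (aa N k) m * (sn N 1 : ℂ)‖ := by
    rw [norm_mul, Complex.norm_real, Real.norm_eq_abs]
    exact mul_le_mul_of_nonneg_left (le_abs_self _) (norm_nonneg _)
  refine hfin.trans ?_
  rw [hdiff, norm_mul, norm_pow, norm_neg, norm_one, one_pow, one_mul]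
  refine (norm_sum_le _ _).trans (Finset.sum_le_sum (fun w _ => ?_))
  rw [norm_mul, hAn]
  refine mul_le_mul_of_nonneg_left ((norm_integral_le_integral_norm _).trans (le_of_eq ?_))
    (norm_nonneg _)
  congr 1
  funext u
  rw [norm_mul, norm_pow, Complex.norm_real, Real.norm_eq_abs, abs_of_pos (Real.exp_pos _), hz]

end Pool.Agent.CJX
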