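import Pool.Agent.CJX.StB

/-!
# DIB: a Gaussian bound for powers of differences
-/

set_option autoImplicit false

open Finset Filter MeasureTheory
open scoped BigOperators

namespace Pool.Agent.CJX

open Pool.Agent.BorTree Pool.Agent.FEC

private lemma DIB_norm (z : ℂ) : ‖Complex.exp z - 1‖ ≤ Real.exp ‖z‖ - 1 := by
  have h := Complex.norm_exp_sub_sum_le_exp_norm_sub_sum z 1
  simpa using h

private lemma DIB_ee_shift (y : ℝ) (n : ℤ) : ee (y - 6 * n) = ee y := by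
  unfold ee
  rw [Complex.exp_eq_exp_iff_exists_int]
  refine ⟨-(6 * n), ?_⟩
  push_cast
  ring

private lemma DIB_zv_shift (r v x u : ℝ) (n : ℤ) : zv r v (x + n) u = zv r v x u := by
  unfold zv
  have h : 3 * v / 2 - 6 * (x + n) = 3 * v / 2 - 6 * x - 6 * n := by ring
  rw [h, DIB_ee_shift]

private lemma DIB_zv (r v x u : ℝ) : ‖zv r v x u - 1‖ ≤
    Real.exp (2 * Real.pi * |3 * v / 2 - 6 * x| + 9 * Real.pi * (|u| / Real.sqrt r)) - 1 := by
  have h1 : zv r v x u = Complex.exp (((2 * Real.pi * (3 * v / 2 - 6 * x) : ℝ) : ℂ) * Complex.I +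
      ((6 * Real.pi * u / Real.sqrt r : ℝ) : ℂ) * (1 + Complex.I)) := by
    unfold zv ee
    rw [Complex.exp_add]
  rw [h1]
  refine (DIB_norm _).trans ?_
  have h2 : ‖((2 * Real.pi * (3 * v / 2 - 6 * x) : ℝ) : ℂ) * Complex.I +
      ((6 * Real.pi * u / Real.sqrt r : ℝ) : ℂ) * (1 + Complex.I)‖ ≤
      2 * Real.pi * |3 * v / 2 - 6 * x| + 9 * Real.pi * (|u| / Real.sqrt r) := by
    refine (norm_add_le _ _).trans ?_
    have h3 : ‖(1 + Complex.I : ℂ)‖ ≤ 3 / 2 := by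
      rw [Complex.norm_def, Complex.normSq_apply]
      apply Real.sqrt_le_iff.mpr
      constructor
      · norm_num
      · simp
        norm_num
    have h4 : ‖((2 * Real.pi * (3 * v / 2 - 6 * x) : ℝ) : ℂ) * Complex.I‖ =
        2 * Real.pi * |3 * v / 2 - 6 * x| := by
      rw [norm_mul, Complex.norm_I, mul_one, Complex.norm_real, Real.norm_eq_abs, abs_mul,
        abs_of_pos Real.two_pi_pos]
    have h5 : ‖((6 * Real.pi * u / Real.sqrt r : ℝ) : ℂ)‖ = 6 * Real.pi * (|u| / Real.sqrt r) := by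
      rw [Complex.norm_real, Real.norm_eq_abs, abs_div, abs_mul,
        abs_of_nonneg (Real.sqrt_nonneg r), abs_of_pos (by positivity : (0 : ℝ) < 6 * Real.pi)]
      ring
    rw [h4, norm_mul, h5]
    have h6 : 0 ≤ 6 * Real.pi * (|u| / Real.sqrt r) := by positivity
    have h7 := mul_le_mul_of_nonneg_left h3 h6
    linarith
  linarith [Real.exp_le_exp.mpr h2]

private lemma DIB_cos (x : ℝ) (hx : |x| ≤ 1 / 2) : 8 * x ^ 2 ≤ 1 - Real.cos (2 * Real.pi * x) := by
  have h1 : Real.cos (2 * Real.pi * x) = 1 - 2 * Real.sin (Real.pi * |x|) ^ 2 := by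
    have h2 : 2 * Real.pi * x = 2 * (Real.pi * x) := by ring
    rw [h2, Real.cos_two_mul, Real.cos_sq']
    rcases abs_cases x with ⟨h3, _⟩ | ⟨h3, _⟩
    · rw [h3]
      ring
    · rw [h3, mul_neg, Real.sin_neg]
      ring
  have h2 : 2 * |x| ≤ Real.sin (Real.pi * |x|) := by
    have h3 := Real.mul_le_sin (x := Real.pi * |x|) (by positivity) (by nlinarith [Real.pi_pos])
    have h4 : 2 / Real.pi * (Real.pi * |x|) = 2 * |x| := by
      field_simp
    linarith
  have h3 : (2 * |x|) ^ 2 ≤ Real.sin (Real.pi * |x|) ^ 2 :=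
    pow_le_pow_left₀ (by positivity) h2 2
  have h4 : (2 * |x|) ^ 2 = 4 * x ^ 2 := by
    rw [mul_pow, sq_abs]
    ring
  rw [h1]
  linarith

/-- the pointwise bound -/
private lemma DIB_point (r : ℝ) (s : ℕ) (x v u : ℝ) (hr : 1 ≤ r) (hs : 4000000 * (s : ℝ) ≤ r)
    (hv : |v| ≤ 1 / 200) :
    Real.exp (-(4 / 25 * x ^ 2 * r)) * Real.exp (-(Real.pi / 2 * u ^ 2)) *
      ‖zv r v x u - 1‖ ^ s ≤ (1 / 5) ^ s := by
  have hpi : Real.pi < 3.15 := Real.pi_lt_d2
  have hpi0 := Real.pi_pos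
  have hr0 : 0 < r := by linarith
  have hw0 : 0 ≤ |u| / Real.sqrt r := by positivity
  have hw2 : (|u| / Real.sqrt r) ^ 2 * r = u ^ 2 := by
    rw [div_pow, Real.sq_sqrt hr0.le, sq_abs]
    field_simp
  have hx0 := abs_nonneg x
  have hA : 2 * Real.pi * |3 * v / 2 - 6 * x| + 9 * Real.pi * (|u| / Real.sqrt r) ≤
      0.048 + (12 * Real.pi * |x| + 9 * Real.pi * (|u| / Real.sqrt r)) := by
    have h1 : |3 * v / 2 - 6 * x| ≤ 3 / 400 + 6 * |x| := by
      have h2 := abs_sub (3 * v / 2) (6 * x)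
      have h3 : |3 * v / 2| ≤ 3 / 400 := by
        rw [abs_div, abs_mul]
        norm_num
        linarith
      have h4 : |6 * x| = 6 * |x| := by
        rw [abs_mul]
        norm_num
      linarith
    nlinarith
  have hz := DIB_zv r v x u
  generalize hTdef : 12 * Real.pi * |x| + 9 * Real.pi * (|u| / Real.sqrt r) = T at hA
  have hT0 : 0 ≤ T := by
    rw [← hTdef]
    positivity
  have hz2 : ‖zv r v x u - 1‖ ≤ Real.exp (0.048 + T) - 1 := by
    linarith [Real.exp_le_exp.mpr hA]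
  have hTsq : r * T ^ 2 / 20000 ≤ 4 / 25 * x ^ 2 * r + Real.pi / 2 * u ^ 2 := by
    have h1 : T ^ 2 ≤ 2 * ((12 * Real.pi * |x|) ^ 2 + (9 * Real.pi * (|u| / Real.sqrt r)) ^ 2) := by
      rw [← hTdef]
      nlinarith [sq_nonneg (12 * Real.pi * |x| - 9 * Real.pi * (|u| / Real.sqrt r))]
    have h2 : (12 * Real.pi * |x|) ^ 2 ≤ 1440 * x ^ 2 := by
      rw [mul_pow, mul_pow, sq_abs]
      have h3 : Real.pi ^ 2 ≤ 10 := by nlinarith
      nlinarith [sq_nonneg x]
    have h4 : (9 * Real.pi * (|u| / Real.sqrt r)) ^ 2 * r ≤ 810 * u ^ 2 := by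
      have h5 : (9 * Real.pi * (|u| / Real.sqrt r)) ^ 2 * r = 81 * Real.pi ^ 2 * u ^ 2 := by
        rw [mul_pow, mul_assoc, hw2]
        ring
      rw [h5]
      have h3 : Real.pi ^ 2 ≤ 10 := by nlinarith
      nlinarith [sq_nonneg u]
    have h6 : r * T ^ 2 ≤ 2880 * x ^ 2 * r + 1620 * u ^ 2 := by
      have h7 := mul_le_mul_of_nonneg_left h1 hr0.le
      have h8 := mul_le_mul_of_nonneg_left h2 hr0.le
      nlinarith
    have hpi3 := Real.pi_gt_three
    have h9 : 0 ≤ x ^ 2 * r := by positivity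
    nlinarith [sq_nonneg u]
  have he : Real.exp (-(4 / 25 * x ^ 2 * r)) * Real.exp (-(Real.pi / 2 * u ^ 2)) ≤
      Real.exp (-(r * T ^ 2 / 20000)) := by
    rw [← Real.exp_add]
    apply Real.exp_le_exp.mpr
    linarith
  have he0 : 0 ≤ Real.exp (-(4 / 25 * x ^ 2 * r)) * Real.exp (-(Real.pi / 2 * u ^ 2)) := by
    positivity
  rcases le_or_gt T 0.13 with hT | hT
  · have h1 : Real.exp (0.048 + T) - 1 ≤ 1 / 5 := by
      have h2 : Real.exp (0.048 + T) ≤ Real.exp 0.18 := Real.exp_le_exp.mpr (by linarith)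
      have h3 : Real.exp 0.18 ≤ 1.2 := by
        have h4 := Real.exp_bound' (x := 0.18) (by norm_num) (by norm_num) (n := 4) (by norm_num)
        refine h4.trans ?_
        norm_num [Finset.sum_range_succ, Nat.factorial]
      linarith
    have h2 : ‖zv r v x u - 1‖ ^ s ≤ (1 / 5) ^ s :=
      pow_le_pow_left₀ (norm_nonneg _) (by linarith) s
    have h3 : Real.exp (-(4 / 25 * x ^ 2 * r)) * Real.exp (-(Real.pi / 2 * u ^ 2)) ≤ 1 := by
      refine he.trans (Real.exp_le_one_iff.mpr ?_)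
      have h4 : 0 ≤ r * T ^ 2 / 20000 := by positivity
      linarith
    calc _ ≤ 1 * (1 / 5 : ℝ) ^ s := mul_le_mul h3 h2 (by positivity) (by norm_num)
      _ = (1 / 5) ^ s := one_mul _
  · have h1 : ‖zv r v x u - 1‖ ≤ Real.exp (0.048 + T) := by linarith
    have h2 : ‖zv r v x u - 1‖ ^ s ≤ Real.exp ((s : ℝ) * (0.048 + T)) := by
      rw [Real.exp_nat_mul]
      exact pow_le_pow_left₀ (norm_nonneg _) h1 s
    have h3 : Real.exp (-(1.7 : ℝ)) ≤ 1 / 5 := by
      have h4 : (5 : ℝ) ≤ Real.exp 1.7 := by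
        have h5 := Real.sum_le_exp_of_nonneg (x := 1.7) (by norm_num) 6
        refine le_trans ?_ h5
        norm_num [Finset.sum_range_succ, Nat.factorial]
      rw [Real.exp_neg]
      have h6 : (0 : ℝ) < 5 := by norm_num
      have h7 := inv_anti₀ h6 h4
      linarith
    have h4 : Real.exp (-((s : ℝ) * 1.7)) ≤ (1 / 5) ^ s := by
      have h5 : -((s : ℝ) * 1.7) = (s : ℝ) * (-1.7) := by ring
      rw [h5, Real.exp_nat_mul]
      exact pow_le_pow_left₀ (Real.exp_pos _).le h3 s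
    have hs0 : (0 : ℝ) ≤ s := Nat.cast_nonneg s
    have h5 : -(r * T ^ 2 / 20000) + (s : ℝ) * (0.048 + T) ≤ -((s : ℝ) * 1.7) := by
      have h6 : T + 1.748 ≤ 200 * T ^ 2 := by nlinarith
      have h7 : (s : ℝ) * (T + 1.748) ≤ (s : ℝ) * (200 * T ^ 2) :=
        mul_le_mul_of_nonneg_left h6 hs0
      have h8 : (s : ℝ) * (200 * T ^ 2) ≤ r * T ^ 2 / 20000 := by
        nlinarith [sq_nonneg T]
      nlinarith
    calc Real.exp (-(4 / 25 * x ^ 2 * r)) * Real.exp (-(Real.pi / 2 * u ^ 2)) *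
        ‖zv r v x u - 1‖ ^ s
        ≤ Real.exp (-(r * T ^ 2 / 20000)) * Real.exp ((s : ℝ) * (0.048 + T)) :=
          mul_le_mul he h2 (by positivity) (by positivity)
      _ = Real.exp (-(r * T ^ 2 / 20000) + (s : ℝ) * (0.048 + T)) := (Real.exp_add _ _).symm
      _ ≤ Real.exp (-((s : ℝ) * 1.7)) := Real.exp_le_exp.mpr h5
      _ ≤ (1 / 5) ^ s := h4

private lemma DIB_main (r : ℝ) (s : ℕ) (x v : ℝ) (hr : 1 ≤ r) (hs : 4000000 * (s : ℝ) ≤ r)
    (hv : |v| ≤ 1 / 200) (hx : |x| ≤ 1 / 2) :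
    Real.exp (-(1 / 50 * (1 - Real.cos (2 * Real.pi * x)) * r)) *
    ∫ u : ℝ, Real.exp (-(Real.pi * u ^ 2)) * ‖zv r v x u - 1‖ ^ s ≤ 2 * (1 / 5) ^ s := by
  have hpi0 := Real.pi_pos
  have hg : Integrable fun u : ℝ => (1 / 5 : ℝ) ^ s * Real.exp (-(Real.pi / 2) * u ^ 2) :=
    (integrable_exp_neg_mul_sq (by positivity)).const_mul _
  have h1 : Real.exp (-(1 / 50 * (1 - Real.cos (2 * Real.pi * x)) * r)) ≤
      Real.exp (-(4 / 25 * x ^ 2 * r)) := by
    apply Real.exp_le_exp.mpr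
    have h2 := DIB_cos x hx
    nlinarith
  have h0 : 0 ≤ ∫ u : ℝ, Real.exp (-(Real.pi * u ^ 2)) * ‖zv r v x u - 1‖ ^ s :=
    integral_nonneg fun u => by positivity
  have h2 : Real.exp (-(4 / 25 * x ^ 2 * r)) *
      ∫ u : ℝ, Real.exp (-(Real.pi * u ^ 2)) * ‖zv r v x u - 1‖ ^ s ≤
      ∫ u : ℝ, (1 / 5 : ℝ) ^ s * Real.exp (-(Real.pi / 2) * u ^ 2) := by
    rw [← integral_const_mul]
    refine integral_mono_of_nonneg (Eventually.of_forall fun u => by positivity) hg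
      (Eventually.of_forall fun u => ?_)
    have h3 := DIB_point r s x v u hr hs hv
    have h4 : Real.exp (-(Real.pi * u ^ 2)) =
        Real.exp (-(Real.pi / 2 * u ^ 2)) * Real.exp (-(Real.pi / 2) * u ^ 2) := by
      rw [← Real.exp_add]
      congr 1
      ring
    have h5 := mul_le_mul_of_nonneg_right h3 (Real.exp_pos (-(Real.pi / 2) * u ^ 2)).le
    change Real.exp (-(4 / 25 * x ^ 2 * r)) * (Real.exp (-(Real.pi * u ^ 2)) *
      ‖zv r v x u - 1‖ ^ s) ≤ (1 / 5 : ℝ) ^ s * Real.exp (-(Real.pi / 2) * u ^ 2)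
    rw [h4]
    calc _ = Real.exp (-(4 / 25 * x ^ 2 * r)) * Real.exp (-(Real.pi / 2 * u ^ 2)) *
      ‖zv r v x u - 1‖ ^ s * Real.exp (-(Real.pi / 2) * u ^ 2) := by ring
      _ ≤ _ := h5
  have h6 : ∫ u : ℝ, (1 / 5 : ℝ) ^ s * Real.exp (-(Real.pi / 2) * u ^ 2) ≤ 2 * (1 / 5) ^ s := by
    rw [integral_const_mul, integral_gaussian]
    have h7 : Real.pi / (Real.pi / 2) = 2 := by
      field_simp
    rw [h7]
    have h8 : Real.sqrt 2 ≤ 2 := by
      rw [Real.sqrt_le_left (by norm_num)]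
      norm_num
    have h9 : (0 : ℝ) ≤ (1 / 5) ^ s := by positivity
    nlinarith
  exact ((mul_le_mul_of_nonneg_right h1 h0).trans h2).trans h6

/-- [DIB] the numerical bound -/
theorem thm_DIB : St_DIB := by
  intro r s x v hr hs hv
  have h1 := DIB_main r s (x - round x) v hr hs hv (abs_sub_round x)
  have h2 : ∀ u, zv r v (x - round x) u = zv r v x u := by
    intro u
    have h3 := DIB_zv_shift r v x u (-(round x))
    have h4 : x + ((-(round x) : ℤ) : ℝ) = x - round x := by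
      push_cast
      ring
    rw [h4] at h3
    exact h3
  have h5 : Real.cos (2 * Real.pi * (x - round x)) = Real.cos (2 * Real.pi * x) := by
    have h6 : 2 * Real.pi * (x - round x) = 2 * Real.pi * x - (round x : ℤ) * (2 * Real.pi) := by
      ring
    rw [h6, Real.cos_sub_int_mul_two_pi]
  rw [h5] at h1
  simp only [h2] at h1
  exact h1

end Pool.Agent.CJX

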