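import Pool.Agent.CJX.StB

set_option autoImplicit false

open Finset Filter MeasureTheory
open scoped BigOperators

namespace Pool.Agent.CJX

open Pool.Agent.BorTree Pool.Agent.FEC

theorem thm_DIF (h1 : St_DIA) (h2 : St_DIB) (h3 : St_XBD) (h4 : St_QPP) (h5 : St_QMX) :
    St_DIF := by
  refine ⟨1 / 4000000, by norm_num, ?_⟩
  filter_upwards [h3, eventually_ge_atTop 100] with N hX hN k hW s hs m hm
  have hN1 : 1 ≤ N := by omega
  unfold Win at hW
  have hW1 := abs_le.1 (show |4 * (k : ℤ) - 3 * N| ≤ N / 100 by omega)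
  have hW2 : (k : ℤ) * 400 ≤ 301 * N := by omega
  have hW3 : 299 * (N : ℤ) ≤ 400 * k := by omega
  have hkN : k < N := by omega
  have hNk : N ≤ 2 * k := by omega
  obtain ⟨K, hK⟩ : ∃ K : ℕ, K = 2 * N - 2 * k - 1 := ⟨_, rfl⟩
  have hK1 : K + 2 * k + 1 = 2 * N := by omega
  have hKodd : Odd K := ⟨N - k - 1, by omega⟩
  have hKN : K + 1 ≤ N := by omega
  have hKh : (K - 1) / 2 = N - k - 1 := by omega
  have hm1 := abs_le.1 (show |4 * m - (2 * (N : ℤ) + 1)| ≤ (2 * (N : ℤ) + 1) / 200 by omega)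
  have hm2 : 199 * (2 * (N : ℤ) + 1) ≤ 800 * m := by omega
  have hm3 : 800 * m ≤ 201 * (2 * (N : ℤ) + 1) := by omega
  have hkm : (k : ℤ) + 1 ≤ 2 * m := by omega
  have hsN : 4000000 * s ≤ N := by
    have : (4000000 * s : ℝ) ≤ N := by linarith
    exact_mod_cast this
  have hms : m + 3 * (s : ℤ) ≤ N := by omega
  have hs1 : 0 < sn N 1 := sn_pos (by norm_num) (by omega)
  have hr1 : (1 : ℝ) ≤ 2 * (N : ℝ) + 1 := by
    have : (0 : ℝ) ≤ N := Nat.cast_nonneg N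
    linarith
  have hr0 : (0 : ℝ) < 2 * (N : ℝ) + 1 := by linarith
  have hA := h1 N k s m hN1 hkN hNk hkm hms
  rw [← hK] at hA
  obtain ⟨-, hq⟩ := h4 N hN1
  obtain ⟨hq1, -⟩ := hq k hkN
  rw [← hK] at hq1
  have hv : |(4 * (m : ℝ) - (2 * N + 1)) / (2 * N + 1)| ≤ 1 / 200 := by
    rw [abs_div, abs_of_pos hr0, div_le_iff₀ hr0]
    have h6 : (200 * |4 * m - (2 * (N : ℤ) + 1)| : ℤ) ≤ 2 * (N : ℤ) + 1 := hm
    have h7 : (200 * |4 * (m : ℝ) - (2 * (N : ℝ) + 1)| : ℝ) ≤ 2 * (N : ℝ) + 1 := by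
      exact_mod_cast h6
    linarith
  have hsr : 4000000 * (s : ℝ) ≤ 2 * (N : ℝ) + 1 := by
    have : (4000000 * s : ℝ) ≤ N := by exact_mod_cast hsN
    have h0 : (0 : ℝ) ≤ N := Nat.cast_nonneg N
    linarith
  -- the sum of the qb
  have hqs : ∑ b ∈ range (K + 1), qb N K b ≤ (K + 1) * qb N K ((K - 1) / 2) := by
    calc ∑ b ∈ range (K + 1), qb N K b ≤ ∑ _b ∈ range (K + 1), qb N K ((K - 1) / 2) :=
          Finset.sum_le_sum (fun b hb => (h5 N K b hKodd hKN (by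
            have := Finset.mem_range.1 hb
            omega)).2)
      _ = (K + 1) * qb N K ((K - 1) / 2) := by
          rw [Finset.sum_const, Finset.card_range, nsmul_eq_mul]
          push_cast
          ring
  have hqpos : 0 < qb N K ((K - 1) / 2) := (h5 N K ((K - 1) / 2) hKodd hKN (by omega)).1
  have hqs0 : 0 ≤ ∑ b ∈ range (K + 1), qb N K b :=
    Finset.sum_nonneg (fun b hb => (h5 N K b hKodd hKN (by
      have := Finset.mem_range.1 hb
      omega)).1.le)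
  have hterm : ∀ x : ℝ, ‖XX N K x‖ * ∫ u : ℝ, Real.exp (-(Real.pi * u ^ 2)) *
      ‖zv (2 * N + 1) ((4 * m - (2 * N + 1)) / (2 * N + 1)) x u - 1‖ ^ s ≤
      (∑ b ∈ range (K + 1), qb N K b) * (2 * (1 / 5) ^ s) := by
    intro x
    have hI : 0 ≤ ∫ u : ℝ, Real.exp (-(Real.pi * u ^ 2)) *
        ‖zv (2 * N + 1) ((4 * m - (2 * N + 1)) / (2 * N + 1)) x u - 1‖ ^ s :=
      integral_nonneg (fun u => mul_nonneg (Real.exp_pos _).le (pow_nonneg (norm_nonneg _) _))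
    have h8 := h2 (2 * N + 1) s x ((4 * m - (2 * N + 1)) / (2 * N + 1)) hr1 hsr hv
    have h9 := hX K (by omega) (by omega) x
    calc _ ≤ ((∑ b ∈ range (K + 1), qb N K b) *
          Real.exp (-(1 / 50 * (1 - Real.cos (2 * Real.pi * x)) * (2 * N + 1)))) * _ :=
          mul_le_mul_of_nonneg_right h9 hI
      _ = (∑ b ∈ range (K + 1), qb N K b) *
          (Real.exp (-(1 / 50 * (1 - Real.cos (2 * Real.pi * x)) * (2 * N + 1))) * _) :=
          mul_assoc _ _ _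
      _ ≤ _ := mul_le_mul_of_nonneg_left h8 hqs0
  have hsum : ‖(fwdDiff (3 : ℤ))^[s] (aa N k) m‖ * sn N 1 ≤
      (2 * N + 1) * ((∑ b ∈ range (K + 1), qb N K b) * (2 * (1 / 5) ^ s)) := by
    refine hA.trans ?_
    calc _ ≤ ∑ _w ∈ range (2 * N + 1), ((∑ b ∈ range (K + 1), qb N K b) * (2 * (1 / 5) ^ s)) :=
          Finset.sum_le_sum (fun w _ => hterm _)
      _ = _ := by
          rw [Finset.sum_const, Finset.card_range, nsmul_eq_mul]
          push_cast
          ring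
  have hK2 : ((K : ℝ) + 1) ≤ 2 * N + 1 := by
    have : K + 1 ≤ 2 * N + 1 := by omega
    exact_mod_cast this
  have h5s : (0 : ℝ) < (1 / 5 : ℝ) ^ s := by positivity
  have hPP : 0 < PP N k N * sn N 1 := by
    rw [hq1, ← hKh]
    exact mul_pos hr0 hqpos
  have hfin : ‖(fwdDiff (3 : ℤ))^[s] (aa N k) m‖ * sn N 1 ≤
      (2 * (2 * N + 1) * PP N k N * (1 / 5) ^ s) * sn N 1 := by
    calc _ ≤ (2 * N + 1) * ((∑ b ∈ range (K + 1), qb N K b) * (2 * (1 / 5) ^ s)) := hsum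
      _ ≤ (2 * N + 1) * (((K + 1) * qb N K ((K - 1) / 2)) * (2 * (1 / 5) ^ s)) := by
          refine mul_le_mul_of_nonneg_left (mul_le_mul_of_nonneg_right hqs (by positivity)) hr0.le
      _ = (K + 1) * (2 * (1 / 5) ^ s) * ((2 * N + 1) * qb N K (N - k - 1)) := by
          rw [hKh]; ring
      _ = (K + 1) * (2 * (1 / 5) ^ s) * (PP N k N * sn N 1) := by rw [hq1]
      _ ≤ (2 * N + 1) * (2 * (1 / 5) ^ s) * (PP N k N * sn N 1) := by
          refine mul_le_mul_of_nonneg_right (mul_le_mul_of_nonneg_right hK2 (by positivity)) hPP.le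
      _ = _ := by ring
  exact le_of_mul_le_mul_right hfin hs1

end Pool.Agent.CJX
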