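import Pool.Agent.CJX.StA

/-!
# CJX, module FFP: quasi-period of `ff`
-/

set_option autoImplicit false

open Finset
open scoped BigOperators

namespace Pool.Agent.CJX

open Pool.Agent.BorTree Pool.Agent.FEC

private theorem FFP_add (x y : ℝ) : ee (x + y) = ee x * ee y := by
  unfold ee
  rw [← Complex.exp_add]
  congr 1
  push_cast
  ring

private theorem FFP_int (n : ℤ) : ee (n : ℝ) = 1 := by
  unfold ee
  rw [Complex.exp_eq_one_iff]
  refine ⟨n, ?_⟩
  push_cast
  ring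

private theorem FFP_step (R : ℕ) (hR : Odd R) (j : ℤ) : ff R (j + R) = ee (2 / 3) * ff R j := by
  obtain ⟨a, ha⟩ := hR
  have hR0 : (R : ℝ) ≠ 0 := by
    have : 0 < R := by omega
    positivity
  have haR : (R : ℝ) = 2 * a + 1 := by
    rw [ha]
    push_cast
    ring
  have h1 : (-((3 * (((j + R : ℤ) : ℝ)) ^ 2 - ((j + R : ℤ) : ℝ)) / (6 * R)) : ℝ) =
      (2 / 3 + -((3 * (j : ℝ) ^ 2 - j) / (6 * R))) + ((-j - a - 1 : ℤ) : ℝ) := by
    push_cast
    field_simp
    rw [haR]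
    ring
  unfold ff
  rw [h1, FFP_add, FFP_add, FFP_int, mul_one]

private theorem FFP_cube : 1 + ee (2 / 3) + ee (2 / 3) * ee (2 / 3) = 0 := by
  have h3 : ee (2 / 3) * ee (2 / 3) * ee (2 / 3) = 1 := by
    rw [← FFP_add, ← FFP_add]
    have h : ((2 / 3 : ℝ) + 2 / 3 + 2 / 3) = ((2 : ℤ) : ℝ) := by
      push_cast
      norm_num
    rw [h, FFP_int]
  have hne : ee (2 / 3) ≠ 1 := by
    unfold ee
    intro h
    rw [Complex.exp_eq_one_iff] at h
    obtain ⟨n, hn⟩ := h
    have hpi : (Real.pi : ℂ) ≠ 0 := by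
      exact_mod_cast Real.pi_ne_zero
    have h2 : (2 * (Real.pi : ℂ) * Complex.I) * (2 / 3 : ℂ) = (2 * (Real.pi : ℂ) * Complex.I) * n := by
      push_cast at hn
      linear_combination hn
    have h4 : (2 / 3 : ℂ) = n :=
      mul_left_cancel₀ (mul_ne_zero (mul_ne_zero two_ne_zero hpi) Complex.I_ne_zero) h2
    have h5 : ((2 : ℤ) : ℂ) = ((3 * n : ℤ) : ℂ) := by
      push_cast
      rw [← h4]
      norm_num
    have h6 : (2 : ℤ) = 3 * n := by exact_mod_cast h5
    omega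
  have h7 : (ee (2 / 3) - 1) * (1 + ee (2 / 3) + ee (2 / 3) * ee (2 / 3)) = 0 := by
    linear_combination h3
  rcases mul_eq_zero.1 h7 with h | h
  · exact absurd (sub_eq_zero.1 h) hne
  · exact h

theorem thm_FFP : St_FFP := by
  intro R hR
  refine ⟨fun j => FFP_step R hR j, ?_⟩
  intro a
  have hR0 : (0 : ℤ) ≤ R := Int.natCast_nonneg R
  have hsh : ∀ b : ℤ, ∑ j ∈ Ico (b + (R : ℤ)) (b + R + R), ff R j =
      ee (2 / 3) * ∑ j ∈ Ico b (b + R), ff R j := by
    intro b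
    rw [← Finset.sum_Ico_add' (fun j => ff R j) b (b + R) (R : ℤ), Finset.mul_sum]
    exact Finset.sum_congr rfl fun j _ => FFP_step R hR j
  have e1 : Ico a (a + 3 * (R : ℤ)) = Ico a (a + R) ∪ Ico (a + R) (a + 3 * (R : ℤ)) :=
    (Finset.Ico_union_Ico_eq_Ico (by omega) (by omega)).symm
  have e2 : Ico (a + R) (a + 3 * (R : ℤ)) =
      Ico (a + R) (a + R + R) ∪ Ico (a + R + R) (a + R + R + R) := by
    have : a + 3 * (R : ℤ) = a + R + R + R := by ring
    rw [this]
    exact (Finset.Ico_union_Ico_eq_Ico (by omega) (by omega)).symm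
  rw [e1, Finset.sum_union (Finset.Ico_disjoint_Ico_consecutive _ _ _), e2,
    Finset.sum_union (Finset.Ico_disjoint_Ico_consecutive _ _ _), hsh (a + R), hsh a]
  linear_combination (∑ j ∈ Ico a (a + (R : ℤ)), ff R j) * FFP_cube

end Pool.Agent.CJX
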