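import Pool.Agent.CJX.StC

/-!
# CJX: module FIN, the bound of `JL`
-/

set_option autoImplicit false

open Finset Filter MeasureTheory
open scoped BigOperators Topology

namespace Pool.Agent.CJX

open Pool.Agent.BorTree Pool.Agent.FEC

private theorem FIN_le_hh {c : ℝ} (hc : 0 < c) {N : ℕ} (hN : 1 ≤ N) : c / hh N ≤ c * N := by
  have hpi := Real.pi_gt_three
  have hN' : (1 : ℝ) ≤ N := by exact_mod_cast hN
  have e : c / hh N = c * ((2 * (N : ℝ) + 1) / (2 * Real.pi)) := by
    unfold hh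
    rw [div_div_eq_mul_div, mul_div_assoc]
  rw [e]
  apply mul_le_mul_of_nonneg_left _ hc.le
  rw [div_le_iff₀ (by positivity)]
  nlinarith

private theorem FIN_nat_le (N : ℕ) : (N : ℝ) ≤ Real.exp (LL N) := by
  have h0 : (0 : ℝ) ≤ N := N.cast_nonneg
  calc (N : ℝ) ≤ 2 * (N : ℝ) + 1 := by linarith
    _ = Real.exp (Real.log (2 * (N : ℝ) + 1)) := (Real.exp_log (by linarith)).symm
    _ ≤ Real.exp (LL N) := Real.exp_le_exp.2 (log_le_LL N)

private theorem FIN_norm (N : ℕ) :
    ‖JL N‖ ≤ ∑ k ∈ range N, bor N k * PP N k N ^ 2 * ‖PQ N k‖ := by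
  unfold JL
  refine (norm_sum_le _ _).trans (Finset.sum_le_sum fun k hk => ?_)
  have hk' : k < N := Finset.mem_range.1 hk
  have hb := bor_pos (N := N) hk'
  have h0 : 0 ≤ bor N k * PP N k N ^ 2 := mul_nonneg hb.le (sq_nonneg _)
  rw [norm_mul, Complex.norm_real, Real.norm_of_nonneg h0]

theorem thm_FIN (h1 : St_KIN) (h2 : St_KOU) : St_FIN := by
  obtain ⟨c1, hc1, h1⟩ := h1
  obtain ⟨c2, hc2, h2⟩ := h2
  obtain ⟨c0, hc0, hle1, hle2⟩ : ∃ c0 : ℝ, 0 < c0 ∧ c0 ≤ c1 ∧ c0 ≤ c2 :=
    ⟨min c1 c2, lt_min hc1 hc2, min_le_left _ _, min_le_right _ _⟩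
  refine ⟨c0 / 2, by positivity, ?_⟩
  filter_upwards [h1, h2, LL_small' (ε := c0 / 2) 51 (by norm_num) (by positivity),
    eventually_ge_atTop 2] with N h1 h2 h3 hN R hR
  have hp := hh_pos N
  have hL := LL_pos N
  have hterm : ∀ k ∈ range N, bor N k * PP N k N ^ 2 * ‖PQ N k‖ ≤
      Real.exp ((EE - c0) / hh N + 50 * LL N) := by
    intro k hk
    have hk' : k < N := Finset.mem_range.1 hk
    have hb := bor_pos (N := N) hk'
    by_cases hw : Win N k
    · have hw' := hw
      unfold Win at hw'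
      have hbig : N ≤ 2 * k := by
        have h4 := abs_le.1 (le_refl |4 * (k : ℤ) - 3 * N|)
        have h5 := h4.1
        omega
      have hPP := PPN_pos (N := N) (k := k) hk'
      have hM : Mk N k = PP N k N := by
        unfold Mk
        rw [if_pos hbig]
      have h6 := node_le hN hk'
      rw [hM] at h6
      have h7 := h1 R k hR hw
      have h8 := FIN_le_hh hc1 (N := N) (by omega)
      have h9 : c0 / hh N ≤ c1 / hh N := div_le_div_of_nonneg_right hle1 hp.le
      calc bor N k * PP N k N ^ 2 * ‖PQ N k‖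
          ≤ bor N k * PP N k N ^ 2 * (Real.exp (-(c1 * N)) * PP N k N) :=
            mul_le_mul_of_nonneg_left h7 (mul_nonneg hb.le (sq_nonneg _))
        _ = Real.exp (-(c1 * N)) * (bor N k * PP N k N ^ 3) := by ring
        _ ≤ Real.exp (-(c1 * N)) * Real.exp (EE / hh N + 50 * LL N) :=
            mul_le_mul_of_nonneg_left h6 (Real.exp_pos _).le
        _ = Real.exp (-(c1 * N) + (EE / hh N + 50 * LL N)) := (Real.exp_add _ _).symm
        _ ≤ Real.exp ((EE - c0) / hh N + 50 * LL N) := by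
            apply Real.exp_le_exp.2
            rw [sub_div]
            linarith
    · refine (h2 k hk' hw).trans (Real.exp_le_exp.2 ?_)
      have h9 : (EE - c2) / hh N ≤ (EE - c0) / hh N :=
        div_le_div_of_nonneg_right (by linarith) hp.le
      linarith
  calc ‖JL N‖ ≤ ∑ k ∈ range N, bor N k * PP N k N ^ 2 * ‖PQ N k‖ := FIN_norm N
    _ ≤ ∑ _k ∈ range N, Real.exp ((EE - c0) / hh N + 50 * LL N) := Finset.sum_le_sum hterm
    _ = N * Real.exp ((EE - c0) / hh N + 50 * LL N) := by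
        rw [Finset.sum_const, Finset.card_range, nsmul_eq_mul]
    _ ≤ Real.exp (LL N) * Real.exp ((EE - c0) / hh N + 50 * LL N) :=
        mul_le_mul_of_nonneg_right (FIN_nat_le N) (Real.exp_pos _).le
    _ = Real.exp (LL N + ((EE - c0) / hh N + 50 * LL N)) := (Real.exp_add _ _).symm
    _ ≤ Real.exp ((EE - c0 / 2) / hh N) := by
        apply Real.exp_le_exp.2
        have e1 : (EE - c0 / 2) / hh N = (EE - c0) / hh N + c0 / 2 / hh N := by ring
        rw [e1]
        linarith

end Pool.Agent.CJX
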