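import Pool.Agent.CJX.StA

/-!
# CJX, module FLD (helper69): folding of the colors into `(0, r)`
-/

set_option autoImplicit false

open Finset
open scoped BigOperators

namespace Pool.Agent.CJX

open Pool.Agent.BorTree Pool.Agent.FEC

private theorem FLD_add (x y : ℝ) : ee (x + y) = ee x * ee y := by
  unfold ee
  rw [← Complex.exp_add]
  congr 1
  push_cast
  ring

private theorem FLD_int (n : ℤ) : ee (n : ℝ) = 1 := by
  unfold ee
  rw [Complex.exp_eq_one_iff]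
  exact ⟨n, by push_cast; ring⟩

private theorem FLD_third_ne : ee (1 / 3) ≠ 1 := by
  unfold ee
  rw [Ne, Complex.exp_eq_one_iff]
  rintro ⟨n, hn⟩
  have hI : (2 * (Real.pi : ℂ) * Complex.I) ≠ 0 := Complex.two_pi_I_ne_zero
  have h1 : ((1 / 3 : ℝ) : ℂ) * (2 * (Real.pi : ℂ) * Complex.I) =
      ((n : ℤ) : ℂ) * (2 * (Real.pi : ℂ) * Complex.I) := by
    rw [← hn]
    push_cast
    ring
  have h2 := mul_right_cancel₀ hI h1
  have h3 : ((1 / 3 : ℝ)) = ((n : ℤ) : ℝ) := by exact_mod_cast h2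
  have h4 : (3 : ℝ) * ((n : ℤ) : ℝ) = 1 := by rw [← h3]; norm_num
  have h5 : 3 * n = 1 := by exact_mod_cast h4
  omega

private theorem FLD_sum : -(ee (1 / 3) + ee (2 / 3)) = 1 := by
  have h1 : ee (2 / 3) = ee (1 / 3) * ee (1 / 3) := by
    rw [← FLD_add]; norm_num
  have h2 : ee (1 / 3) * ee (1 / 3) * ee (1 / 3) = 1 := by
    rw [← FLD_add, ← FLD_add]
    have : (1 / 3 + 1 / 3 + 1 / 3 : ℝ) = ((1 : ℤ) : ℝ) := by norm_num
    rw [this, FLD_int]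
  have h3 : (ee (1 / 3) - 1) * (ee (1 / 3) * ee (1 / 3) + ee (1 / 3) + 1) = 0 := by
    linear_combination h2
  rcases mul_eq_zero.1 h3 with h4 | h4
  · exact absurd (sub_eq_zero.1 h4) FLD_third_ne
  · rw [h1]
    linear_combination -h4

/-- reflection `z ↦ - z` -/
private theorem FLD_neg (N R : ℕ) (h : 2 * N + 1 = 15 * R) (m : ℕ) :
    gz N R (-((6 * m + 5 : ℕ) : ℤ)) = ee (2 / 3) * gz N R ((6 * m + 5 : ℕ) : ℤ) := by
  have hR : (R : ℝ) ≠ 0 := by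
    have : R ≠ 0 := by omega
    exact_mod_cast this
  have hN : (N : ℝ) = (15 * R - 1) / 2 := by
    have : (2 * (N : ℝ) + 1) = 15 * R := by exact_mod_cast h
    linarith
  unfold gz
  rw [← FLD_add]
  have h1 : -(((((-((6 * m + 5 : ℕ) : ℤ)) : ℤ) : ℝ) - N) *
      ((((-((6 * m + 5 : ℕ) : ℤ)) : ℤ) : ℝ) - N - 1) / (18 * R)) =
      (2 / 3 + -((((((6 * m + 5 : ℕ) : ℤ)) : ℝ) - N) *
        (((((6 * m + 5 : ℕ) : ℤ)) : ℝ) - N - 1) / (18 * R))) + ((-10 * (m : ℤ) - 9 : ℤ) : ℝ) := by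
    push_cast
    rw [hN]
    field_simp
    ring
  rw [h1, FLD_add _ (((-10 * (m : ℤ) - 9 : ℤ)) : ℝ), FLD_int, mul_one]

/-- reflection `z ↦ 2 r - z` -/
private theorem FLD_two (N R : ℕ) (h : 2 * N + 1 = 15 * R) (m : ℕ) :
    gz N R (2 * (2 * (N : ℤ) + 1) - ((6 * m + 5 : ℕ) : ℤ)) =
      ee (1 / 3) * gz N R ((6 * m + 5 : ℕ) : ℤ) := by
  have hR : (R : ℝ) ≠ 0 := by
    have : R ≠ 0 := by omega
    exact_mod_cast this
  have hN : (N : ℝ) = (15 * R - 1) / 2 := by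
    have : (2 * (N : ℝ) + 1) = 15 * R := by exact_mod_cast h
    linarith
  unfold gz
  rw [← FLD_add]
  have h1 : -((((2 * (2 * (N : ℤ) + 1) - ((6 * m + 5 : ℕ) : ℤ) : ℤ) : ℝ) - N) *
      (((2 * (2 * (N : ℤ) + 1) - ((6 * m + 5 : ℕ) : ℤ) : ℤ) : ℝ) - N - 1) / (18 * R)) =
      (1 / 3 + -((((((6 * m + 5 : ℕ) : ℤ)) : ℝ) - N) *
        (((((6 * m + 5 : ℕ) : ℤ)) : ℝ) - N - 1) / (18 * R))) +
        ((10 * (m : ℤ) + 8 - 25 * (R : ℤ) : ℤ) : ℝ) := by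
    push_cast
    rw [hN]
    field_simp
    ring
  rw [h1, FLD_add _ (((10 * (m : ℤ) + 8 - 25 * (R : ℤ) : ℤ)) : ℝ), FLD_int, mul_one]

private theorem FLD_pos (N k z : ℕ) (hz : 0 < z) : F2z N k (z : ℤ) = F2 N k z := by
  unfold F2z
  rw [Int.sign_eq_one_of_pos (by exact_mod_cast hz), Int.natAbs_natCast]
  push_cast
  ring

theorem thm_FLD (h1 : St_PSI) (h2 : St_YSM) : St_FLD := by
  intro N R k h
  obtain ⟨ρ, hρ⟩ : ∃ ρ, N = 15 * ρ + 7 := ⟨R / 2, by omega⟩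
  have hN1 : 1 ≤ N := by omega
  obtain ⟨-, -, -, h3, h4⟩ := h2 N k hN1
  set G : ℤ → ℂ := fun z => gz N R z * F2z N k z with hG
  have e1 : ∀ l : ℕ, ff R (wj N l) * F2z N k (N + 3 * wj N l) =
      G (6 * (l : ℤ) + 3 - 2 * (N : ℤ)) := by
    intro l
    have hz : (N : ℤ) + 3 * wj N l = 6 * (l : ℤ) + 3 - 2 * (N : ℤ) := by
      unfold wj; ring
    rw [← (h1 N R h).2 (wj N l), hz]
  have e2 : ∀ z : ℕ, 0 < z → gz N R z * F2 N k z = G (z : ℤ) := by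
    intro z hz
    show _ = gz N R z * F2z N k z
    rw [FLD_pos N k z hz]
  have e3 : ∀ m ∈ range (5 * ρ + 2), G (-((6 * m + 5 : ℕ) : ℤ)) +
      G (2 * (2 * (N : ℤ) + 1) - ((6 * m + 5 : ℕ) : ℤ)) = G ((6 * m + 5 : ℕ) : ℤ) := by
    intro m hm
    rw [mem_range] at hm
    show gz N R _ * F2z N k _ + gz N R _ * F2z N k _ = gz N R _ * F2z N k _
    have ho : Odd (((6 * m + 5 : ℕ) : ℤ)) := by
      rw [Int.odd_iff]
      omega
    rw [FLD_neg N R h, FLD_two N R h, h4, h3 _ ho (by omega) (by omega)]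
    linear_combination (gz N R ((6 * m + 5 : ℕ) : ℤ) * F2z N k ((6 * m + 5 : ℕ) : ℤ)) * FLD_sum
  have hset : (range (2 * N + 1)).filter (fun z => Odd z ∧ ¬ 3 ∣ z) =
      (range (5 * ρ + 3)).image (fun m => 6 * m + 1) ∪
        (range (5 * ρ + 2)).image (fun m => 6 * m + 5) := by
    ext z
    simp only [mem_filter, mem_range, mem_union, mem_image, Nat.odd_iff]
    constructor
    · rintro ⟨hz, hodd, h3'⟩
      rcases (by omega : z % 6 = 1 ∨ z % 6 = 5) with hz6 | hz6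
      · exact Or.inl ⟨z / 6, by omega, by omega⟩
      · exact Or.inr ⟨z / 6, by omega, by omega⟩
    · rintro (⟨m, hm, rfl⟩ | ⟨m, hm, rfl⟩)
      · exact ⟨by omega, by omega, by omega⟩
      · exact ⟨by omega, by omega, by omega⟩
  have hdis : Disjoint ((range (5 * ρ + 3)).image (fun m => 6 * m + 1))
      ((range (5 * ρ + 2)).image (fun m => 6 * m + 5)) := by
    rw [disjoint_left]
    intro z hz hz'
    rw [mem_image] at hz hz'
    obtain ⟨a, -, ha⟩ := hz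
    obtain ⟨b, -, hb⟩ := hz'
    omega
  rw [hset, sum_union hdis, sum_image (fun a _ b _ hab => by omega),
    sum_image (fun a _ b _ hab => by omega)]
  rw [sum_congr rfl fun l _ => e1 l,
    sum_congr rfl fun m (_ : m ∈ range (5 * ρ + 3)) => e2 (6 * m + 1) (by omega),
    sum_congr rfl fun m (_ : m ∈ range (5 * ρ + 2)) => e2 (6 * m + 5) (by omega)]
  have hNs : N = (5 * ρ + 2) + ((5 * ρ + 3) + (5 * ρ + 2)) := by omega
  have hS : ∑ l ∈ range N, G (6 * (l : ℤ) + 3 - 2 * (N : ℤ)) =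
      ∑ l ∈ range (5 * ρ + 2), G (6 * (l : ℤ) + 3 - 2 * (N : ℤ)) +
      (∑ l ∈ range (5 * ρ + 3), G (6 * ((5 * ρ + 2 + l : ℕ) : ℤ) + 3 - 2 * (N : ℤ)) +
      ∑ l ∈ range (5 * ρ + 2), G (6 * ((5 * ρ + 2 + (5 * ρ + 3 + l) : ℕ) : ℤ) + 3 - 2 * (N : ℤ))) := by
    have hr : range N = range ((5 * ρ + 2) + ((5 * ρ + 3) + (5 * ρ + 2))) := by rw [← hNs]
    rw [hr, sum_range_add _ (5 * ρ + 2) ((5 * ρ + 3) + (5 * ρ + 2)),
      sum_range_add _ (5 * ρ + 3) (5 * ρ + 2)]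
  have hA : ∑ l ∈ range (5 * ρ + 2), G (6 * (l : ℤ) + 3 - 2 * (N : ℤ)) =
      ∑ m ∈ range (5 * ρ + 2), G (-((6 * m + 5 : ℕ) : ℤ)) := by
    rw [← sum_range_reflect (fun m : ℕ => G (-((6 * m + 5 : ℕ) : ℤ)))]
    refine sum_congr rfl fun l hl => ?_
    rw [mem_range] at hl
    refine congrArg G ?_
    omega
  have hB : ∑ l ∈ range (5 * ρ + 3), G (6 * ((5 * ρ + 2 + l : ℕ) : ℤ) + 3 - 2 * (N : ℤ)) =
      ∑ m ∈ range (5 * ρ + 3), G ((6 * m + 1 : ℕ) : ℤ) := by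
    refine sum_congr rfl fun l _ => congrArg G ?_
    omega
  have hC : ∑ l ∈ range (5 * ρ + 2),
      G (6 * ((5 * ρ + 2 + (5 * ρ + 3 + l) : ℕ) : ℤ) + 3 - 2 * (N : ℤ)) =
      ∑ m ∈ range (5 * ρ + 2), G (2 * (2 * (N : ℤ) + 1) - ((6 * m + 5 : ℕ) : ℤ)) := by
    rw [← sum_range_reflect (fun m : ℕ => G (2 * (2 * (N : ℤ) + 1) - ((6 * m + 5 : ℕ) : ℤ)))]
    refine sum_congr rfl fun l hl => ?_
    rw [mem_range] at hl
    refine congrArg G ?_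
    omega
  rw [hS, hA, hB, hC, ← sum_congr rfl e3, sum_add_distrib]
  ring

end Pool.Agent.CJX
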