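import Pool.Agent.CJX.StB

/-!
# CJX: discrete Fourier inversion (FOU)
-/

set_option autoImplicit false

open Finset
open scoped BigOperators

namespace Pool.Agent.CJX

open Pool.Agent.BorTree Pool.Agent.FEC

theorem FOU_add (x y : ℝ) : ee (x + y) = ee x * ee y := by
  unfold ee
  rw [← Complex.exp_add]
  congr 1
  push_cast
  ring

theorem FOU_nat (x : ℝ) (n : ℕ) : ee (n * x) = ee x ^ n := by
  unfold ee
  rw [← Complex.exp_nat_mul]
  congr 1
  push_cast
  ring

theorem FOU_ne (r b c : ℕ) (hb : b < r) (hc : c < r) (h : c ≠ b) :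
    ee (((c : ℝ) - b) / r) ≠ 1 := by
  intro he
  unfold ee at he
  rw [Complex.exp_eq_one_iff] at he
  obtain ⟨n, hn⟩ := he
  have hr : (r : ℝ) ≠ 0 := by
    have : 0 < r := by omega
    positivity
  have h2 : (2 * Real.pi * (((c : ℝ) - b) / r) : ℝ) = (n : ℝ) * (2 * Real.pi) := by
    have h1 : ((2 * Real.pi * (((c : ℝ) - b) / r) : ℝ) : ℂ) * Complex.I =
        (((n : ℝ) * (2 * Real.pi) : ℝ) : ℂ) * Complex.I := by
      rw [hn]
      push_cast
      ring
    exact_mod_cast mul_right_cancel₀ Complex.I_ne_zero h1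
  have h3 : ((c : ℝ) - b) / r = n := by
    have hpi : (2 * Real.pi : ℝ) ≠ 0 := by positivity
    apply mul_left_cancel₀ hpi
    rw [h2]
    ring
  have h4 : (c : ℝ) - b = n * r := by
    rw [← h3]
    field_simp
  have h5 : (c : ℤ) - b = n * r := by exact_mod_cast h4
  have h6 : n = 0 := by
    rcases lt_trichotomy n 0 with h7 | h7 | h7
    · exfalso
      have : n * r ≤ -1 * r := by
        apply mul_le_mul_of_nonneg_right (by omega) (by omega)
      omega
    · exact h7
    · exfalso
      have : 1 * (r : ℤ) ≤ n * r := by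
        apply mul_le_mul_of_nonneg_right (by omega) (by omega)
      omega
  rw [h6] at h5
  apply h
  omega

theorem FOU_orth (r b c : ℕ) (hb : b < r) (hc : c < r) :
    ∑ w ∈ range r, ee ((w : ℝ) * (((c : ℝ) - b) / r)) = if c = b then (r : ℂ) else 0 := by
  split_ifs with h
  · subst h
    have h1 : ∀ w ∈ range r, ee ((w : ℝ) * (((c : ℝ) - c) / r)) = 1 := by
      intro w _
      unfold ee
      simp
    rw [Finset.sum_congr rfl h1]
    simp
  · have h1 : ∀ w ∈ range r, ee ((w : ℝ) * (((c : ℝ) - b) / r)) = ee (((c : ℝ) - b) / r) ^ w :=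
      fun w _ => FOU_nat _ w
    rw [Finset.sum_congr rfl h1]
    have hne := FOU_ne r b c hb hc h
    have hr : (r : ℝ) ≠ 0 := by
      have : 0 < r := by omega
      positivity
    have h2 : ee (((c : ℝ) - b) / r) ^ r = 1 := by
      rw [← FOU_nat]
      have h3 : (r : ℝ) * (((c : ℝ) - b) / r) = ((c : ℤ) - (b : ℤ) : ℤ) := by
        field_simp
        push_cast
        ring
      rw [h3]
      unfold ee
      rw [Complex.exp_eq_one_iff]
      refine ⟨(c : ℤ) - (b : ℤ), ?_⟩
      push_cast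
      ring
    have h4 := geom_sum_mul (ee (((c : ℝ) - b) / r)) r
    rw [h2, sub_self] at h4
    rcases mul_eq_zero.mp h4 with h5 | h5
    · exact h5
    · exact absurd (sub_eq_zero.mp h5) hne

theorem thm_FOU : St_FOU := by
  intro N K b hK hb
  have hr : (2 * (N : ℂ) + 1) ≠ 0 := by
    have : ((2 * N + 1 : ℕ) : ℂ) ≠ 0 := Nat.cast_ne_zero.mpr (by omega)
    push_cast at this
    exact this
  have h1 : ∑ w ∈ range (2 * N + 1), XX N K ((w : ℝ) / (2 * N + 1)) *
      ee (-((w : ℝ) * b / (2 * N + 1))) =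
      ∑ c ∈ range (K + 1), (qb N K c : ℂ) *
        ∑ w ∈ range (2 * N + 1), ee ((w : ℝ) * (((c : ℝ) - b) / ((2 * N + 1 : ℕ) : ℝ))) := by
    unfold XX
    simp only [Finset.sum_mul, Finset.mul_sum]
    rw [Finset.sum_comm]
    refine Finset.sum_congr rfl fun c _ => Finset.sum_congr rfl fun w _ => ?_
    rw [mul_assoc, ← FOU_add]
    congr 2
    push_cast
    ring
  rw [h1]
  have h2 : ∀ c ∈ range (K + 1), (qb N K c : ℂ) *
      ∑ w ∈ range (2 * N + 1), ee ((w : ℝ) * (((c : ℝ) - b) / ((2 * N + 1 : ℕ) : ℝ))) =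
      if c = b then (qb N K c : ℂ) * (2 * (N : ℂ) + 1) else 0 := by
    intro c hc
    have hc' : c < 2 * N + 1 := by
      have := Finset.mem_range.mp hc
      omega
    rw [FOU_orth (2 * N + 1) b c hb hc']
    split_ifs with h
    · push_cast
      ring
    · ring
  rw [Finset.sum_congr rfl h2, Finset.sum_ite_eq' (range (K + 1)) b]
  by_cases hbK : b ≤ K
  · rw [if_pos hbK, if_pos (Finset.mem_range.mpr (by omega))]
    field_simp
  · rw [if_neg hbK, if_neg (fun h => hbK (by have := Finset.mem_range.mp h; omega))]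
    simp

end Pool.Agent.CJX
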