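import Pool.Agent.CJX.StC

set_option autoImplicit false

open Finset Filter MeasureTheory
open scoped BigOperators Topology

namespace Pool.Agent.CJX

open Pool.Agent.BorTree Pool.Agent.FEC

/-- The pointwise bound `log (cos t / sin t) ≥ 2 (π / 4 - t)`. -/
theorem GAP_point {t : ℝ} (h0 : 0 < t) (h1 : t ≤ Real.pi / 4) :
    ell t + 2 * (Real.pi / 4 - t) ≤ ell (Real.pi / 2 - t) := by
  have hp := Real.pi_pos
  have hsin : ∀ x ∈ Set.Icc t (Real.pi / 4), 0 < Real.sin x := fun x hx =>
    Real.sin_pos_of_pos_of_lt_pi (h0.trans_le hx.1) (by linarith [hx.2])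
  have hcos : ∀ x ∈ Set.Icc t (Real.pi / 4), 0 < Real.cos x := fun x hx =>
    Real.cos_pos_of_mem_Ioo ⟨by linarith [hx.1], by linarith [hx.2]⟩
  have hd : ∀ x ∈ Set.Icc t (Real.pi / 4),
      HasDerivAt (fun y : ℝ => Real.log (Real.cos y) - Real.log (Real.sin y) + 2 * y)
        (-Real.sin x / Real.cos x - Real.cos x / Real.sin x + 2 * 1) x := by
    intro x hx
    have e1 := (Real.hasDerivAt_cos x).log (hcos x hx).ne'
    have e2 := (Real.hasDerivAt_sin x).log (hsin x hx).ne'
    exact (e1.sub e2).add ((hasDerivAt_id x).const_mul 2)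
  have hanti : AntitoneOn (fun y : ℝ => Real.log (Real.cos y) - Real.log (Real.sin y) + 2 * y)
      (Set.Icc t (Real.pi / 4)) := by
    apply antitoneOn_of_deriv_nonpos (convex_Icc _ _)
    · intro x hx
      exact (hd x hx).continuousAt.continuousWithinAt
    · intro x hx
      exact (hd x (interior_subset hx)).differentiableAt.differentiableWithinAt
    · intro x hx
      have hx' := interior_subset hx
      rw [(hd x hx').deriv]
      have hs := hsin x hx'
      have hc := hcos x hx'
      have e : -Real.sin x / Real.cos x - Real.cos x / Real.sin x + 2 * 1 =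
          -((Real.sin x - Real.cos x) ^ 2 / (Real.cos x * Real.sin x)) := by
        field_simp
        ring
      rw [e]
      have : 0 ≤ (Real.sin x - Real.cos x) ^ 2 / (Real.cos x * Real.sin x) := by positivity
      linarith
  have hle := hanti (Set.left_mem_Icc.mpr h1) (Set.right_mem_Icc.mpr h1) h1
  have hle' : Real.log (Real.cos (Real.pi / 4)) - Real.log (Real.sin (Real.pi / 4)) +
      2 * (Real.pi / 4) ≤ Real.log (Real.cos t) - Real.log (Real.sin t) + 2 * t := hle
  rw [Real.cos_pi_div_four, Real.sin_pi_div_four, sub_self] at hle'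
  have hs := hsin t (Set.left_mem_Icc.mpr h1)
  have hc := hcos t (Set.left_mem_Icc.mpr h1)
  unfold ell
  rw [Real.sin_pi_div_two_sub, Real.log_mul two_ne_zero hs.ne', Real.log_mul two_ne_zero hc.ne']
  linarith

theorem GAP_aux {φ : ℝ} (h0 : 0 ≤ φ) (h1 : φ ≤ Real.pi / 4) :
    2 * II (Real.pi / 4) + (φ - Real.pi / 4) ^ 2 ≤ II φ + II (Real.pi / 2 - φ) := by
  have hp := Real.pi_pos
  have h2 : ∫ t in φ..(Real.pi / 4), ell (Real.pi / 2 - t) =
      II (Real.pi / 2 - φ) - II (Real.pi / 4) := by
    have := intervalIntegral.integral_comp_sub_left (a := φ) (b := Real.pi / 4)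
      (fun t => ell t) (Real.pi / 2)
    rw [this, II_sub, show Real.pi / 2 - Real.pi / 4 = Real.pi / 4 by ring]
  have hi : IntervalIntegrable (fun t => ell (Real.pi / 2 - t)) volume φ (Real.pi / 4) := by
    have := (ell_int (Real.pi / 2 - φ) (Real.pi / 2 - Real.pi / 4)).comp_sub_left (Real.pi / 2)
    simpa using this
  have hl : IntervalIntegrable (fun t : ℝ => 2 * (Real.pi / 4 - t)) volume φ (Real.pi / 4) :=
    Continuous.intervalIntegrable (by fun_prop) _ _
  have h3 : ∫ t in φ..(Real.pi / 4), (ell t + 2 * (Real.pi / 4 - t)) ≤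
      ∫ t in φ..(Real.pi / 4), ell (Real.pi / 2 - t) := by
    apply intervalIntegral.integral_mono_on_of_le_Ioo h1 ((ell_int _ _).add hl) hi
    intro t ht
    exact GAP_point (h0.trans_lt ht.1) ht.2.le
  have h4 : ∫ t in φ..(Real.pi / 4), 2 * (Real.pi / 4 - t) = (φ - Real.pi / 4) ^ 2 := by
    rw [intervalIntegral.integral_const_mul, intervalIntegral.integral_sub
      intervalIntegrable_const (Continuous.intervalIntegrable (by fun_prop) _ _),
      intervalIntegral.integral_const, integral_id, smul_eq_mul]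
    ring
  rw [intervalIntegral.integral_add (ell_int _ _) hl, h4, h2, II_sub] at h3
  linarith

theorem thm_GAP : St_GAP := by
  intro φ h0 h1
  rcases le_total φ (Real.pi / 4) with h | h
  · exact GAP_aux h0 h
  · have := GAP_aux (φ := Real.pi / 2 - φ) (by linarith) (by linarith)
    rw [sub_sub_cancel] at this
    have e : (Real.pi / 2 - φ - Real.pi / 4) ^ 2 = (φ - Real.pi / 4) ^ 2 := by ring
    rw [e] at this
    linarith

end Pool.Agent.CJX
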