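import Pool.Agent.CJX.StB

/-!
# CJX [GAU] : Gaussian representation of the chirp
-/

set_option autoImplicit false

open Finset Filter MeasureTheory
open scoped BigOperators

namespace Pool.Agent.CJX

open Pool.Agent.BorTree Pool.Agent.FEC

private theorem GAU_ee_add (x y : ℝ) : ee (x + y) = ee x * ee y := by
  unfold ee
  rw [← Complex.exp_add]
  congr 1
  push_cast
  ring

private theorem GAU_norm_ee (x : ℝ) : ‖ee x‖ = 1 := by
  unfold ee
  exact Complex.norm_exp_ofReal_mul_I _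

private theorem GAU_ee_pow (x : ℝ) (l : ℕ) : ee x ^ l = ee (l * x) := by
  unfold ee
  rw [← Complex.exp_nat_mul]
  congr 1
  push_cast
  ring

/-- the binomial sum -/
private noncomputable def GAU_T (z : ℂ) (n : ℕ) (Φ : ℤ → ℂ) (j : ℤ) : ℂ :=
  ∑ l ∈ range (n + 1), (n.choose l : ℂ) * (z ^ l * Φ (j + l))

private theorem GAU_T_succ (z : ℂ) (n : ℕ) (Φ : ℤ → ℂ) (j : ℤ) :
    GAU_T z (n + 1) Φ j = (1 + z) * GAU_T z n Φ j + z * GAU_T z n (fwdDiff (1 : ℤ) Φ) j := by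
  have e1 : GAU_T z (n + 1) Φ j = GAU_T z n Φ j +
      ∑ l ∈ range (n + 1), (n.choose l : ℂ) * (z ^ (l + 1) * Φ (j + (l + 1 : ℕ))) := by
    have e2 : GAU_T z n Φ j = ∑ l ∈ range (n + 1 + 1), (n.choose l : ℂ) * (z ^ l * Φ (j + l)) := by
      rw [Finset.sum_range_succ]
      unfold GAU_T
      rw [Nat.choose_succ_self]
      push_cast
      ring
    rw [e2, Finset.sum_range_succ']
    unfold GAU_T
    rw [Finset.sum_range_succ']
    have e3 : ∀ l ∈ range (n + 1), (((n + 1).choose (l + 1) : ℕ) : ℂ) *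
        (z ^ (l + 1) * Φ (j + (l + 1 : ℕ))) =
        (n.choose (l + 1) : ℂ) * (z ^ (l + 1) * Φ (j + (l + 1 : ℕ))) +
        (n.choose l : ℂ) * (z ^ (l + 1) * Φ (j + (l + 1 : ℕ))) := by
      intro l _
      rw [Nat.choose_succ_succ]
      push_cast
      ring
    rw [Finset.sum_congr rfl e3, Finset.sum_add_distrib]
    simp only [Nat.choose_zero_right]
    ring
  rw [e1]
  unfold GAU_T
  rw [add_mul, one_mul, add_assoc]
  congr 1
  rw [← mul_add, ← Finset.sum_add_distrib, Finset.mul_sum]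
  refine Finset.sum_congr rfl fun l _ => ?_
  have e4 : fwdDiff (1 : ℤ) Φ (j + l) = Φ (j + (l + 1 : ℕ)) - Φ (j + l) := by
    unfold fwdDiff
    push_cast
    rw [add_assoc]
  rw [e4, pow_succ]
  ring

private theorem GAU_T_bound (z : ℂ) (Psi : ℤ → ℂ) (M lam : ℝ) (j : ℤ) (N : ℕ) (_hM : 0 ≤ M)
    (h : ∀ s ≤ N, ‖(fwdDiff (1 : ℤ))^[s] Psi j‖ ≤ M * lam ^ s) :
    ∀ n s : ℕ, n + s ≤ N → ‖GAU_T z n ((fwdDiff (1 : ℤ))^[s] Psi) j‖ ≤
      M * lam ^ s * (‖1 + z‖ + lam * ‖z‖) ^ n := by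
  intro n
  induction n with
  | zero =>
    intro s hs
    have e : GAU_T z 0 ((fwdDiff (1 : ℤ))^[s] Psi) j = (fwdDiff (1 : ℤ))^[s] Psi j := by
      unfold GAU_T
      simp
    rw [e, pow_zero, mul_one]
    exact h s (by omega)
  | succ n ih =>
    intro s hs
    rw [GAU_T_succ]
    have h1 := ih s (by omega)
    have h2 := ih (s + 1) (by omega)
    rw [Function.iterate_succ', Function.comp_apply] at h2
    calc ‖(1 + z) * GAU_T z n ((fwdDiff (1 : ℤ))^[s] Psi) j +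
          z * GAU_T z n (fwdDiff (1 : ℤ) ((fwdDiff (1 : ℤ))^[s] Psi)) j‖
        ≤ ‖1 + z‖ * ‖GAU_T z n ((fwdDiff (1 : ℤ))^[s] Psi) j‖ +
          ‖z‖ * ‖GAU_T z n (fwdDiff (1 : ℤ) ((fwdDiff (1 : ℤ))^[s] Psi)) j‖ := by
          refine (norm_add_le _ _).trans ?_
          rw [norm_mul, norm_mul]
      _ ≤ ‖1 + z‖ * (M * lam ^ s * (‖1 + z‖ + lam * ‖z‖) ^ n) +
          ‖z‖ * (M * lam ^ (s + 1) * (‖1 + z‖ + lam * ‖z‖) ^ n) :=
          add_le_add (mul_le_mul_of_nonneg_left h1 (norm_nonneg _))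
            (mul_le_mul_of_nonneg_left h2 (norm_nonneg _))
      _ = M * lam ^ s * (‖1 + z‖ + lam * ‖z‖) ^ (n + 1) := by ring

private theorem GAU_gauss_eq (R : ℕ) (l : ℕ) (u : ℝ) :
    ((Real.exp (-(Real.pi * u ^ 2)) : ℝ) : ℂ) *
      (Complex.exp (((2 * Real.pi * u / Real.sqrt (2 * R) : ℝ) : ℂ) * (1 - Complex.I))) ^ l =
    Complex.exp ((-(Real.pi : ℂ)) * (u : ℂ) ^ 2 +
      ((l : ℂ) * ((2 * Real.pi / Real.sqrt (2 * R) : ℝ) : ℂ) * (1 - Complex.I)) * (u : ℂ) + 0) := by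
  rw [← Complex.exp_nat_mul, Complex.ofReal_exp, ← Complex.exp_add]
  congr 1
  push_cast
  ring

private theorem GAU_gauss_integrable (R : ℕ) (l : ℕ) :
    Integrable (fun u : ℝ => ((Real.exp (-(Real.pi * u ^ 2)) : ℝ) : ℂ) *
      (Complex.exp (((2 * Real.pi * u / Real.sqrt (2 * R) : ℝ) : ℂ) * (1 - Complex.I))) ^ l) := by
  have h : (fun u : ℝ => ((Real.exp (-(Real.pi * u ^ 2)) : ℝ) : ℂ) *
      (Complex.exp (((2 * Real.pi * u / Real.sqrt (2 * R) : ℝ) : ℂ) * (1 - Complex.I))) ^ l) =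
      fun u : ℝ => Complex.exp ((-(Real.pi : ℂ)) * (u : ℂ) ^ 2 +
      ((l : ℂ) * ((2 * Real.pi / Real.sqrt (2 * R) : ℝ) : ℂ) * (1 - Complex.I)) * (u : ℂ) + 0) :=
    funext (fun u => GAU_gauss_eq R l u)
  rw [h]
  have hb : 0 < ((Real.pi : ℂ)).re := by
    rw [Complex.ofReal_re]
    exact Real.pi_pos
  exact integrable_cexp_quadratic hb _ 0

private theorem GAU_gauss_integral (R : ℕ) (hR : 1 ≤ R) (l : ℕ) :
    ∫ u : ℝ, ((Real.exp (-(Real.pi * u ^ 2)) : ℝ) : ℂ) *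
      (Complex.exp (((2 * Real.pi * u / Real.sqrt (2 * R) : ℝ) : ℂ) * (1 - Complex.I))) ^ l =
      ee (-((l : ℝ) ^ 2 / (2 * R))) := by
  have h : (fun u : ℝ => ((Real.exp (-(Real.pi * u ^ 2)) : ℝ) : ℂ) *
      (Complex.exp (((2 * Real.pi * u / Real.sqrt (2 * R) : ℝ) : ℂ) * (1 - Complex.I))) ^ l) =
      fun u : ℝ => Complex.exp ((-(Real.pi : ℂ)) * (u : ℂ) ^ 2 +
      ((l : ℂ) * ((2 * Real.pi / Real.sqrt (2 * R) : ℝ) : ℂ) * (1 - Complex.I)) * (u : ℂ) + 0) :=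
    funext (fun u => GAU_gauss_eq R l u)
  have hb : (-(Real.pi : ℂ)).re < 0 := by
    rw [Complex.neg_re, Complex.ofReal_re]
    exact neg_neg_of_pos Real.pi_pos
  rw [h, integral_cexp_quadratic hb]
  have hpi : (Real.pi : ℂ) ≠ 0 := by
    exact_mod_cast Real.pi_ne_zero
  have hR0 : (0 : ℝ) < 2 * R := by
    have : (1 : ℝ) ≤ R := by exact_mod_cast hR
    linarith
  have hR' : (R : ℂ) ≠ 0 := by
    have : (R : ℝ) ≠ 0 := by
      intro h0
      rw [h0] at hR0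
      linarith
    exact_mod_cast this
  have h1 : ((Real.pi : ℂ) / - -(Real.pi : ℂ)) ^ (1 / 2 : ℂ) = 1 := by
    rw [neg_neg, div_self hpi, Complex.one_cpow]
  rw [h1, one_mul]
  unfold ee
  congr 1
  have hs : ((Real.sqrt (2 * R) : ℝ) : ℂ) ^ 2 = 2 * (R : ℂ) := by
    rw [← Complex.ofReal_pow, Real.sq_sqrt hR0.le]
    push_cast
    ring
  have hI : (1 - Complex.I) ^ 2 = -(2 * Complex.I) := by
    have := Complex.I_sq
    linear_combination this
  have e1 : ((l : ℂ) * ((2 * Real.pi / Real.sqrt (2 * R) : ℝ) : ℂ) * (1 - Complex.I)) ^ 2 =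
      (l : ℂ) ^ 2 * (4 * (Real.pi : ℂ) ^ 2 / (2 * (R : ℂ))) * (-(2 * Complex.I)) := by
    rw [mul_pow, mul_pow, hI]
    rw [Complex.ofReal_div, div_pow, hs]
    push_cast
    ring
  rw [e1]
  push_cast
  field_simp
  ring

/-- [GAU] Gaussian representation of the chirp -/
theorem thm_GAU : St_GAU := by
  intro R n Psi M lam j hR hM hlam hΔ
  have hRr : (1 : ℝ) ≤ R := by exact_mod_cast hR
  have hzint : ∀ l : ℕ, Integrable (fun u : ℝ => ((Real.exp (-(Real.pi * u ^ 2)) : ℝ) : ℂ) *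
      zu R j u ^ l) := by
    intro l
    have h := (GAU_gauss_integrable R l).const_mul (ee (-((6 * (j : ℝ) - 1) / (6 * R))) ^ l)
    refine h.congr (Filter.Eventually.of_forall (fun u => ?_))
    beta_reduce
    unfold zu
    rw [mul_pow]
    ring
  have hzi : ∀ l : ℕ, ∫ u : ℝ, ((Real.exp (-(Real.pi * u ^ 2)) : ℝ) : ℂ) * zu R j u ^ l =
      ee (-((6 * (j : ℝ) - 1) / (6 * R))) ^ l * ee (-((l : ℝ) ^ 2 / (2 * R))) := by
    intro l
    rw [← GAU_gauss_integral R hR l, ← integral_const_mul]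
    congr 1
    funext u
    unfold zu
    rw [mul_pow]
    ring
  have hff : ∀ l : ℕ, ff R (j + l) = ff R j *
      ∫ u : ℝ, ((Real.exp (-(Real.pi * u ^ 2)) : ℝ) : ℂ) * zu R j u ^ l := by
    intro l
    rw [hzi]
    unfold ff
    rw [GAU_ee_pow, ← GAU_ee_add, ← GAU_ee_add]
    congr 1
    push_cast
    have : (R : ℝ) ≠ 0 := by
      intro h0
      rw [h0] at hRr
      linarith
    field_simp
    ring
  -- the sum as an integral
  have hsum : ∑ l ∈ range (n + 1), (n.choose l : ℂ) * (ff R (j + l) * Psi (j + l)) =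
      ff R j * ∫ u : ℝ, ((Real.exp (-(Real.pi * u ^ 2)) : ℝ) : ℂ) * GAU_T (zu R j u) n Psi j := by
    have e1 : ∀ l ∈ range (n + 1), (n.choose l : ℂ) * (ff R (j + l) * Psi (j + l)) =
        ff R j * ∫ u : ℝ, ((n.choose l : ℂ) * Psi (j + l)) *
          (((Real.exp (-(Real.pi * u ^ 2)) : ℝ) : ℂ) * zu R j u ^ l) := by
      intro l _
      rw [hff l, integral_const_mul]
      ring
    rw [Finset.sum_congr rfl e1, ← Finset.mul_sum,
      ← integral_finsetSum _ (fun l _ => (hzint l).const_mul _)]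
    congr 2
    funext u
    unfold GAU_T
    rw [Finset.mul_sum]
    refine Finset.sum_congr rfl fun l _ => ?_
    ring
  have hg : Integrable (fun u : ℝ => Real.exp (-(Real.pi * u ^ 2)) *
      (‖1 + zu R j u‖ + lam * ‖zu R j u‖) ^ n) := by
    have hI : Integrable (fun u : ℝ => ∑ l ∈ range (n + 1), ((1 + lam) ^ l * (n.choose l : ℝ)) *
        ‖((Real.exp (-(Real.pi * u ^ 2)) : ℝ) : ℂ) * zu R j u ^ l‖) :=
      integrable_finsetSum _ fun l _ => (hzint l).norm.const_mul _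
    refine hI.mono' ?_ (Filter.Eventually.of_forall fun u => ?_)
    · refine Continuous.aestronglyMeasurable ?_
      unfold zu
      fun_prop
    · have hz1 : ‖1 + zu R j u‖ ≤ 1 + ‖zu R j u‖ := by
        refine (norm_add_le _ _).trans ?_
        rw [norm_one]
      have hb : 0 ≤ ‖1 + zu R j u‖ + lam * ‖zu R j u‖ :=
        add_nonneg (norm_nonneg _) (mul_nonneg hlam (norm_nonneg _))
      rw [norm_mul, norm_pow, Real.norm_eq_abs, Real.norm_eq_abs, abs_of_pos (Real.exp_pos _),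
        abs_of_nonneg hb]
      have h2 : (‖1 + zu R j u‖ + lam * ‖zu R j u‖) ^ n ≤ ((1 + lam) * ‖zu R j u‖ + 1) ^ n := by
        refine pow_le_pow_left₀ hb ?_ n
        linarith
      refine (mul_le_mul_of_nonneg_left h2 (Real.exp_pos _).le).trans (le_of_eq ?_)
      rw [add_pow, Finset.mul_sum]
      refine Finset.sum_congr rfl fun l _ => ?_
      rw [norm_mul, norm_pow, Complex.norm_real, Real.norm_eq_abs, abs_of_pos (Real.exp_pos _),
        one_pow, mul_pow]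
      ring
  rw [hsum, norm_mul]
  have hf1 : ‖ff R j‖ = 1 := by
    unfold ff
    exact GAU_norm_ee _
  rw [hf1, one_mul, ← integral_const_mul]
  refine norm_integral_le_of_norm_le (hg.const_mul M) (Filter.Eventually.of_forall fun u => ?_)
  rw [norm_mul, Complex.norm_real, Real.norm_eq_abs, abs_of_pos (Real.exp_pos _)]
  have h3 := GAU_T_bound (zu R j u) Psi M lam j n hM hΔ n 0 (by omega)
  rw [pow_zero, mul_one] at h3
  calc Real.exp (-(Real.pi * u ^ 2)) * ‖GAU_T (zu R j u) n Psi j‖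
      ≤ Real.exp (-(Real.pi * u ^ 2)) * (M * (‖1 + zu R j u‖ + lam * ‖zu R j u‖) ^ n) :=
        mul_le_mul_of_nonneg_left h3 (Real.exp_pos _).le
    _ = M * (Real.exp (-(Real.pi * u ^ 2)) * (‖1 + zu R j u‖ + lam * ‖zu R j u‖) ^ n) := by ring

end Pool.Agent.CJX
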