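import Pool.Agent.CJX.StB

/-!
# CJX: statements, part D (sum over `k`, assembly)

Conventions as in `StA.lean`. `hh N = 2 π / (2 N + 1)`, `II x = ∫_0^x log (2 sin t) dt`,
`EE = - 8 II (π / 4)`, `LL N = 1 + log (2 N + 1)`, `Mk N k = PP N k N` if `N ≤ 2 k` and `zz N` otherwise
(`BorTree/Est3.lean`, `Est4.lean`, `LogInt.lean`; `LL_small'` in `BorTree/Main.lean`:
`∀ᶠ N, c * LL N ≤ ε / hh N`). `1 / hh N = (2 N + 1) / (2 π)`, so `exp (- c N)` may be replaced by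
`exp (- c' / hh N)` and conversely.
-/

set_option autoImplicit false

open Finset Filter MeasureTheory
open scoped BigOperators Topology

namespace Pool.Agent.CJX

open Pool.Agent.BorTree Pool.Agent.FEC

/-- [BPP] Library `PP_bound` (`BorTree/Est3.lean`) for natural `M ≤ 2 N + 1`; `PP N k (M + r) = PP N k M`
(from `PP_reflect` and `PP N k (-M) = - PP N k M`, `JTM_PP_neg` in `FEC/JTM.lean`, or from `sn`), so
reduce `M` modulo `r`. -/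
def St_BPP : Prop := ∀ N k : ℕ, 2 ≤ N → k < N → ∀ M : ℤ,
  |PP N k M| ≤ Real.exp (11 * LL N) * Mk N k

/-- [PQT] `‖tt N x‖ = 1`, so `‖F2 N k z‖ ≤ z B`, `|N + 3 wj N l| ≤ 4 N` for `l < N`, `‖F2z N k z‖ ≤ 4 N B`
and `‖PQ N k‖ ≤ N * 4 N * B`. -/
def St_PQT : Prop := ∀ (N k : ℕ) (B : ℝ), (∀ M : ℤ, |PP N k M| ≤ B) → ‖PQ N k‖ ≤ 4 * (N : ℝ) ^ 2 * B

/-- [GAP] By the symmetry `φ ↦ π / 2 - φ` let `φ ≤ π / 4`. As in `II_node_aux` (`BorTree/LogInt.lean`) the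
difference `II φ + II (π / 2 - φ) - 2 II (π / 4)` is `∫_φ^(π/4) (ell (π / 2 - t) - ell t) dt`, and
`ell (π / 2 - t) - ell t = log (cos t / sin t) ≥ 2 (π / 4 - t)` for `0 < t ≤ π / 4`: with `u = π / 4 - t`,
`cos t / sin t = (cos u + sin u) / (cos u - sin u) ≥ exp (2 u)` (for instance
`d/du log ((cos u + sin u) / (cos u - sin u)) = 2 / cos (2 u) ≥ 2`). The integral of `2 (π / 4 - t)` is
`(π / 4 - φ) ^ 2`. -/
def St_GAP : Prop := ∀ φ : ℝ, 0 ≤ φ → φ ≤ Real.pi / 2 →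
  2 * II (Real.pi / 4) + (φ - Real.pi / 4) ^ 2 ≤ II φ + II (Real.pi / 2 - φ)

/-- [NBG] (from `St_GAP`) `log_node_big` (`BorTree/Est4.lean`) with `φ = hh N * (N - k)` (in `[0, π / 2]`):
`bor N k * PP N k N ^ 3 ≤ exp (- 4 (II φ + II (π / 2 - φ)) / hh N + 50 LL N)` and
`- 8 II (π / 4) = EE`. Outside of the window `|4 k - 3 N| > N / 100`, so `|4 (N - k) - N| > N / 100` and
`|φ - π / 4| = hh N / 8 * |8 (N - k) - 2 N - 1| ≥ hh N / 8 * (N / 50 - 1) ≥ 1 / 200` for large `N`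
(`hh N * N → π`). So the exponent is at most `(EE - 4 / 40000) / hh N + 50 LL N ≤ (EE - 1 / 20000) / hh N`. -/
def St_NBG : Prop := ∃ c : ℝ, 0 < c ∧ ∀ᶠ N : ℕ in atTop, ∀ k : ℕ, k < N → N ≤ 2 * k → ¬ Win N k →
  bor N k * PP N k N ^ 3 ≤ Real.exp ((EE - c) / hh N)

/-- [KOU] (from `St_BPP`, `St_PQT`, `St_NBG`) With `B = exp (11 LL N) * Mk N k`:
`bor N k * PP N k N ^ 2 * ‖PQ N k‖ ≤ 4 N^2 * bor N k * B ^ 3 ≤ exp (36 LL N) * (bor N k * Mk N k ^ 3)`.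
If `2 k < N` use `node_small` (`BorTree/Est4.lean`), otherwise `Mk N k = PP N k N` and `St_NBG`; absorb the
multiples of `LL N` with `LL_small'`. -/
def St_KOU : Prop := ∃ c : ℝ, 0 < c ∧ ∀ᶠ N : ℕ in atTop, ∀ k : ℕ, k < N → ¬ Win N k →
  bor N k * PP N k N ^ 2 * ‖PQ N k‖ ≤ Real.exp ((EE - c) / hh N)

/-- [KTA] (from `St_TAI`) `aa N k m - cc N k m` is `0` in the core and `aa N k m` outside of it, where
`‖aa N k m‖ = |PP N k (2 m)| ≤ exp (- c N) * PP N k N` by `St_TAI` (`200 |4 m - r| > r` implies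
`r ≤ 400 |4 m - r|`); `‖SS R m‖ ≤ 2 m + 1 ≤ 2 N + 1`; `N (2 N + 1) exp (- c N) ≤ exp (- (c / 2) N)` for
large `N`. -/
def St_KTA : Prop := ∃ c : ℝ, 0 < c ∧ ∀ᶠ N : ℕ in atTop, ∀ R k : ℕ, Win N k →
  ‖∑ m ∈ Icc (1 : ℤ) N, (aa N k m - cc N k m) * SS R m‖ ≤ Real.exp (-(c * N)) * PP N k N

/-- [KCO] (from `St_COR`, `St_PSD`, `St_OSC`, `St_CCD`) Let `η` be from `St_CCD`, `η' = min η (1 / 1250)`,
`n = ⌊η' R⌋` (`R ≤ N`, so `n ≤ η N`; `1250 n ≤ R`). `St_CCD` gives the hypothesis of `St_PSD` with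
`M = 2 (2 N + 1) PP N k N`, `μ = 1 / 4`, so `‖Δ^s Ps‖ ≤ (24 + N) M (1 / 4)^s`; the support condition of
`St_OSC` is the second part of `St_COR`. By `St_COR` and `St_OSC` the sum is at most
`3 (R + 1) (24 + N) * 2 (2 N + 1) PP N k N * exp (- n / 20)`, and `n ≥ η' R - 1`, `R ≥ N / 8`. -/
def St_KCO : Prop := ∃ c : ℝ, 0 < c ∧ ∀ᶠ N : ℕ in atTop, ∀ R k : ℕ, 2 * N + 1 = 15 * R → Win N k →
  ‖∑ m ∈ Icc (1 : ℤ) N, cc N k m * SS R m‖ ≤ Real.exp (-(c * N)) * PP N k N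

/-- [KIN] (from `St_RED`, `St_KTA`, `St_KCO`) `aa = (aa - cc) + cc` and `St_RED`. -/
def St_KIN : Prop := ∃ c : ℝ, 0 < c ∧ ∀ᶠ N : ℕ in atTop, ∀ R k : ℕ, 2 * N + 1 = 15 * R → Win N k →
  ‖PQ N k‖ ≤ Real.exp (-(c * N)) * PP N k N

/-- [FIN] (from `St_KIN`, `St_KOU`) `‖JL N‖ ≤ ∑_{k<N} bor N k * PP N k N ^ 2 * ‖PQ N k‖`. In the window
(where `N ≤ 2 k`, `Mk N k = PP N k N`) the term is at most `exp (- c N) * (bor N k * PP N k N ^ 3)` and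
`node_le` (`BorTree/Est4.lean`) gives `exp (- c N) exp (EE / hh N + 50 LL N)`; outside use `St_KOU`. -/
def St_FIN : Prop := ∃ c : ℝ, 0 < c ∧ ∀ᶠ N : ℕ in atTop, ∀ R : ℕ, 2 * N + 1 = 15 * R →
  ‖JL N‖ ≤ Real.exp ((EE - c) / hh N)

/-- [MAI] (from `St_FIN`) `N = 15 n + 7`, `2 N + 1 = 15 (2 n + 1)`. `- 16 * ∫ = 2 EE` (`II (π / 4)`),
`(N + 1 / 2) / (2 π) = 1 / (2 hh N)`. Second part: if the limit exists and is `2 EE`, then for large `n`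
with `N = 15 n + 7` the value is larger than `2 EE - c`; but `log ‖JL N‖ ≤ (EE - c) / hh N`, so the value is
at most `2 (EE - c)` (if `JL N = 0` then `log 0 = 0`, and the value `0` is also not larger than `2 EE - c'`
for `c' ≤ 1 / 10`, since `EE ≥ 1 / 10` by `II_gap`, `II_nonpos`). -/
def St_MAI : Prop :=
  (∃ c : ℝ, 0 < c ∧ ∀ᶠ n : ℕ in atTop, ‖JL (15 * n + 7)‖ ≤
    Real.exp ((((15 * n + 7 : ℕ) : ℝ) + 1 / 2) / (2 * Real.pi) *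
      (-16 * (∫ t in (0 : ℝ)..(Real.pi / 4), Real.log (2 * Real.sin t)) - c))) ∧
  ¬ Tendsto (fun N : ℕ => 2 * Real.pi / ((N : ℝ) + 1 / 2) * Real.log ‖JL N‖) atTop
    (𝓝 (-16 * ∫ t in (0 : ℝ)..(Real.pi / 4), Real.log (2 * Real.sin t)))

end Pool.Agent.CJX
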