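import Pool.Agent.CJX.StA
import Pool.Agent.CJX.StC

/-!
# CJX, module KCO: the core in `m`
-/

set_option autoImplicit false

open Finset Filter MeasureTheory
open scoped BigOperators Topology

namespace Pool.Agent.CJX

open Pool.Agent.BorTree Pool.Agent.FEC

private theorem KCO_ev (ε : ℝ) (hε : 0 < ε) : ∀ᶠ N : ℕ in atTop,
    24 * ((N : ℝ) + 24) ^ 3 * Real.exp (-(ε * N)) ≤ 1 := by
  have h1 : Tendsto (fun N : ℕ => ε * ((N : ℝ) + 24)) atTop atTop :=
    Tendsto.const_mul_atTop hε (tendsto_atTop_add_const_right _ _ tendsto_natCast_atTop_atTop)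
  have h2 := (Real.tendsto_pow_mul_exp_neg_atTop_nhds_zero 3).comp h1
  have h3 := h2.const_mul (24 / ε ^ 3 * Real.exp (24 * ε))
  rw [mul_zero] at h3
  filter_upwards [h3.eventually (gt_mem_nhds one_pos)] with N hN
  refine le_of_eq_of_le ?_ hN.le
  simp only [Function.comp_apply]
  have e1 : Real.exp (-(ε * N)) = Real.exp (24 * ε) * Real.exp (-(ε * ((N : ℝ) + 24))) := by
    rw [← Real.exp_add]
    congr 1
    ring
  rw [e1]
  field_simp

theorem thm_KCO (h1 : St_COR) (h2 : St_PSD) (h3 : St_OSC) (h4 : St_CCD) : St_KCO := by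
  obtain ⟨η, hη, hC⟩ := h4
  set η' : ℝ := min η (1 / 1250) with hη'
  have hη'0 : 0 < η' := lt_min hη (by norm_num)
  refine ⟨η' / 320, by positivity, ?_⟩
  filter_upwards [hC, KCO_ev (η' / 320) (by positivity), eventually_ge_atTop 1] with N hN hE hN1
  intro R k hR hk
  have hRN : R ≤ N := by omega
  have hR1 : 1 ≤ R := by omega
  have hRr : (15 : ℝ) * R = 2 * N + 1 := by exact_mod_cast hR.symm
  have hRN' : (R : ℝ) ≤ N := by exact_mod_cast hRN
  have hR0 : (0 : ℝ) ≤ R := Nat.cast_nonneg _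
  have hN0 : (0 : ℝ) ≤ N := Nat.cast_nonneg _
  set n : ℕ := ⌊η' * R⌋₊ with hn
  have hn1 : (n : ℝ) ≤ η' * R := Nat.floor_le (by positivity)
  have hn2 : η' * R - 1 ≤ n := by
    have := (Nat.lt_floor_add_one (η' * R)).le
    linarith
  have hnR : 1250 * n ≤ R := by
    have : (1250 : ℝ) * n ≤ R := by
      have : η' * R ≤ 1 / 1250 * R := mul_le_mul_of_nonneg_right (min_le_right _ _) hR0
      linarith
    exact_mod_cast this
  have hns : ∀ s ≤ n, (s : ℝ) ≤ η * N := by
    intro s hs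
    have e1 : (s : ℝ) ≤ n := by exact_mod_cast hs
    have e2 : η' * R ≤ η * R := mul_le_mul_of_nonneg_right (min_le_left _ _) hR0
    have e3 : η * R ≤ η * N := mul_le_mul_of_nonneg_left hRN' hη.le
    linarith
  set M : ℝ := 2 * (2 * N + 1) * PP N k N with hM
  have hM0 : 0 ≤ M := by
    have := hN k hk 0 (by simpa using mul_nonneg hη.le hN0) 0
    rw [pow_zero, mul_one] at this
    exact le_trans (norm_nonneg _) this
  have hPP : 0 ≤ PP N k N := by
    by_contra h
    push Not at h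
    have : M < 0 := mul_neg_of_pos_of_neg (by positivity) h
    linarith
  obtain ⟨c1, c2⟩ := h1 N R k hR
  have p1 := h2 N R k n M (1 / 4) hR hM0 (by norm_num) fun s hs m => hN k hk s (hns s hs) m
  have p2 := h3 R n (Ps N R k) ((24 + N) * M) hR1 (by positivity) hnR c2 (by
    intro s hs j
    refine (p1 s hs j).trans_eq ?_
    norm_num)
  rw [c1, norm_neg]
  refine p2.trans ?_
  have q1 : Real.exp (-((n : ℝ) / 20)) ≤
      2 * (Real.exp (-(η' / 320 * N)) * Real.exp (-(η' / 320 * N))) := by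
    have e1 : Real.exp (-((n : ℝ) / 20)) ≤ Real.exp (1 / 20 + (-(η' / 320 * N) + -(η' / 320 * N))) := by
      refine Real.exp_le_exp.2 ?_
      have : η' * (N / 8) ≤ η' * R := mul_le_mul_of_nonneg_left (by linarith) hη'0.le
      linarith
    refine e1.trans ?_
    rw [Real.exp_add, Real.exp_add]
    refine mul_le_mul_of_nonneg_right ?_ (by positivity)
    have e2 := Real.exp_one_lt_d9
    have e3 : Real.exp (1 / 20) ≤ Real.exp (Real.log 2) := by
      refine Real.exp_le_exp.2 ?_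
      have := Real.log_two_gt_d9
      linarith
    rwa [Real.exp_log (by norm_num)] at e3
  have q2 : 3 * ((R : ℝ) + 1) * ((24 + N) * M) ≤ 12 * ((N : ℝ) + 24) ^ 3 * PP N k N := by
    have e1 : 3 * ((R : ℝ) + 1) * ((24 + N) * M) =
        (6 * ((R : ℝ) + 1) * (24 + N) * (2 * N + 1)) * PP N k N := by
      rw [hM]
      ring
    rw [e1]
    refine mul_le_mul_of_nonneg_right ?_ hPP
    have e2 : ((R : ℝ) + 1) * (24 + N) ≤ (N + 24) * (24 + N) :=
      mul_le_mul_of_nonneg_right (by linarith) (by positivity)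
    have e3 : (2 * (N : ℝ) + 1) ≤ 2 * (N + 24) := by linarith
    calc 6 * ((R : ℝ) + 1) * (24 + N) * (2 * N + 1)
        = 6 * (((R : ℝ) + 1) * (24 + N)) * (2 * N + 1) := by ring
      _ ≤ 6 * ((N + 24) * (24 + N)) * (2 * (N + 24)) := by gcongr
      _ = 12 * ((N : ℝ) + 24) ^ 3 := by ring
  calc 3 * ((R : ℝ) + 1) * ((24 + N) * M) * Real.exp (-((n : ℝ) / 20))
      ≤ (12 * ((N : ℝ) + 24) ^ 3 * PP N k N) *
        (2 * (Real.exp (-(η' / 320 * N)) * Real.exp (-(η' / 320 * N)))) :=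
        mul_le_mul q2 q1 (Real.exp_pos _).le (by positivity)
    _ = (24 * ((N : ℝ) + 24) ^ 3 * Real.exp (-(η' / 320 * N))) *
        (Real.exp (-(η' / 320 * N)) * PP N k N) := by ring
    _ ≤ 1 * (Real.exp (-(η' / 320 * N)) * PP N k N) :=
        mul_le_mul_of_nonneg_right hE (by positivity)
    _ = Real.exp (-(η' / 320 * N)) * PP N k N := one_mul _

end Pool.Agent.CJX
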