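import Pool.Agent.CJX.StA
import Pool.Agent.CJX.StC

/-!
# CJX, module KIN: the pattern polynomial in the window
-/

set_option autoImplicit false

open Finset Filter
open scoped BigOperators Topology

namespace Pool.Agent.CJX

open Pool.Agent.BorTree Pool.Agent.FEC

/-- **KIN**. -/
theorem thm_KIN (h1 : St_RED) (h2 : St_KTA) (h3 : St_KCO) : St_KIN := by
  obtain ⟨c₁, hc₁, hA⟩ := h2
  obtain ⟨c₂, hc₂, hB⟩ := h3
  have hm : 0 < min c₁ c₂ := lt_min hc₁ hc₂
  refine ⟨min c₁ c₂ / 2, half_pos hm, ?_⟩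
  have hlarge : ∀ᶠ N : ℕ in atTop, 2 * Real.log 2 / min c₁ c₂ ≤ (N : ℝ) :=
    tendsto_natCast_atTop_atTop.eventually_ge_atTop _
  filter_upwards [hA, hB, hlarge] with N hAN hBN hN R k hR hW
  have h4 := hAN R k hW
  have h5 := hBN R k hR hW
  have hN0 : (0 : ℝ) ≤ N := Nat.cast_nonneg N
  have hP : 0 ≤ PP N k N := by
    have h6 := (norm_nonneg _).trans h4
    by_contra hneg
    have h7 := mul_neg_of_pos_of_neg (Real.exp_pos (-(c₁ * N))) (not_le.mp hneg)
    linarith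
  have hsplit : ∑ m ∈ Icc (1 : ℤ) N, aa N k m * SS R m =
      (∑ m ∈ Icc (1 : ℤ) N, (aa N k m - cc N k m) * SS R m) +
        ∑ m ∈ Icc (1 : ℤ) N, cc N k m * SS R m := by
    rw [← Finset.sum_add_distrib]
    refine Finset.sum_congr rfl fun m _ => ?_
    ring
  have hexp1 : Real.exp (-(c₁ * N)) ≤ Real.exp (-(min c₁ c₂ * N)) := by
    apply Real.exp_le_exp.mpr
    have := mul_le_mul_of_nonneg_right (min_le_left c₁ c₂) hN0
    linarith
  have hexp2 : Real.exp (-(c₂ * N)) ≤ Real.exp (-(min c₁ c₂ * N)) := by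
    apply Real.exp_le_exp.mpr
    have := mul_le_mul_of_nonneg_right (min_le_right c₁ c₂) hN0
    linarith
  have hexp : Real.exp (-(c₁ * N)) + Real.exp (-(c₂ * N)) ≤
      Real.exp (-(min c₁ c₂ / 2 * N)) := by
    have h8 : Real.log 2 ≤ min c₁ c₂ / 2 * N := by
      have h9 := (div_le_iff₀ hm).mp hN
      linarith
    have h10 : (2 : ℝ) * Real.exp (-(min c₁ c₂ * N)) ≤ Real.exp (-(min c₁ c₂ / 2 * N)) := by
      calc (2 : ℝ) * Real.exp (-(min c₁ c₂ * N))
          = Real.exp (Real.log 2) * Real.exp (-(min c₁ c₂ * N)) := by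
            rw [Real.exp_log two_pos]
        _ = Real.exp (Real.log 2 + -(min c₁ c₂ * N)) := (Real.exp_add _ _).symm
        _ ≤ Real.exp (-(min c₁ c₂ / 2 * N)) := by
            apply Real.exp_le_exp.mpr
            linarith
    linarith
  calc ‖PQ N k‖ = ‖∑ m ∈ Icc (1 : ℤ) N, aa N k m * SS R m‖ := h1 N R k hR
    _ ≤ ‖∑ m ∈ Icc (1 : ℤ) N, (aa N k m - cc N k m) * SS R m‖ +
        ‖∑ m ∈ Icc (1 : ℤ) N, cc N k m * SS R m‖ := by
          rw [hsplit]
          exact norm_add_le _ _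
    _ ≤ Real.exp (-(c₁ * N)) * PP N k N + Real.exp (-(c₂ * N)) * PP N k N := add_le_add h4 h5
    _ = (Real.exp (-(c₁ * N)) + Real.exp (-(c₂ * N))) * PP N k N := by ring
    _ ≤ Real.exp (-(min c₁ c₂ / 2 * N)) * PP N k N := mul_le_mul_of_nonneg_right hexp hP

end Pool.Agent.CJX
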