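import Pool.Agent.CJX.StC

/-!
# CJX: terms outside of the window (module KOU)
-/

set_option autoImplicit false

open Finset Filter MeasureTheory
open scoped BigOperators Topology

namespace Pool.Agent.CJX

open Pool.Agent.BorTree Pool.Agent.FEC

private theorem KOU_term (h1 : St_BPP) (h2 : St_PQT) {N k : ℕ} (hN : 2 ≤ N) (hk : k < N) :
    bor N k * PP N k N ^ 2 * ‖PQ N k‖ ≤ Real.exp (35 * LL N) * (bor N k * Mk N k ^ 3) := by
  have hb := h1 N k hN hk
  have hq := h2 N k (Real.exp (11 * LL N) * Mk N k) hb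
  have hbor := bor_pos hk
  have hM := Mk_pos hk
  have hP : PP N k N ^ 2 ≤ (Real.exp (11 * LL N) * Mk N k) ^ 2 := by
    rw [← sq_abs (PP N k N)]
    exact pow_le_pow_left₀ (abs_nonneg _) (hb N) 2
  have hB : 0 ≤ Real.exp (11 * LL N) * Mk N k := by positivity
  have h4 : 4 * (N : ℝ) ^ 2 ≤ Real.exp (2 * LL N) := by
    have e : Real.exp (2 * LL N) = Real.exp 2 * (2 * (N : ℝ) + 1) ^ 2 := by
      have hp : (0 : ℝ) < 2 * (N : ℝ) + 1 := by positivity
      have e1 : 2 * LL N = 2 + (Real.log (2 * N + 1) + Real.log (2 * N + 1)) := by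
        unfold LL; ring
      rw [e1, Real.exp_add, Real.exp_add, Real.exp_log hp]
      ring
    rw [e]
    have h2' : (1 : ℝ) ≤ Real.exp 2 := Real.one_le_exp (by norm_num)
    have hN0 : (0 : ℝ) ≤ N := N.cast_nonneg
    nlinarith [mul_nonneg (sub_nonneg.2 h2') (sq_nonneg (2 * (N : ℝ) + 1))]
  calc bor N k * PP N k N ^ 2 * ‖PQ N k‖
      ≤ bor N k * (Real.exp (11 * LL N) * Mk N k) ^ 2 *
          (Real.exp (2 * LL N) * (Real.exp (11 * LL N) * Mk N k)) := by
        apply mul_le_mul
        · exact mul_le_mul_of_nonneg_left hP hbor.le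
        · exact hq.trans (mul_le_mul_of_nonneg_right h4 hB)
        · exact norm_nonneg _
        · positivity
    _ = Real.exp (35 * LL N) * (bor N k * Mk N k ^ 3) := by
        have e : Real.exp (35 * LL N) = Real.exp (11 * LL N) ^ 3 * Real.exp (2 * LL N) := by
          rw [← Real.exp_nat_mul, ← Real.exp_add]
          congr 1
          push_cast
          ring
        rw [e]
        ring

theorem thm_KOU (h1 : St_BPP) (h2 : St_PQT) (h3 : St_NBG) : St_KOU := by
  obtain ⟨c0, hc0, hev⟩ := h3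
  have hm : 0 < min (c0 / 2) (1 / 20) := lt_min (by linarith) (by norm_num)
  refine ⟨min (c0 / 2) (1 / 20), hm, ?_⟩
  filter_upwards [hev, LL_small' 43 (by norm_num) hm, eventually_ge_atTop 2] with N hN hL hN2 k hk hw
  have hp := hh_pos N
  have hLp := LL_pos N
  refine (KOU_term h1 h2 hN2 hk).trans ?_
  rcases Nat.lt_or_ge (2 * k) N with h | h
  · refine (mul_le_mul_of_nonneg_left (node_small hN2 h) (Real.exp_pos _).le).trans ?_
    rw [← Real.exp_add]
    apply Real.exp_le_exp.2
    have e1 : (EE - min (c0 / 2) (1 / 20)) / hh N - (EE - 1 / 10) / hh N - min (c0 / 2) (1 / 20) / hh N =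
        (1 / 10 - 2 * min (c0 / 2) (1 / 20)) / hh N := by
      field_simp
      ring
    have e2 : 0 ≤ (1 / 10 - 2 * min (c0 / 2) (1 / 20)) / hh N := by
      apply div_nonneg _ hp.le
      have := min_le_right (c0 / 2) (1 / 20 : ℝ)
      linarith
    linarith
  · have e : Mk N k = PP N k N := by
      unfold Mk
      rw [if_pos h]
    rw [e]
    refine (mul_le_mul_of_nonneg_left (hN k hk h hw) (Real.exp_pos _).le).trans ?_
    rw [← Real.exp_add]
    apply Real.exp_le_exp.2
    have e1 : (EE - min (c0 / 2) (1 / 20)) / hh N - (EE - c0) / hh N - min (c0 / 2) (1 / 20) / hh N =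
        (c0 - 2 * min (c0 / 2) (1 / 20)) / hh N := by
      field_simp
      ring
    have e2 : 0 ≤ (c0 - 2 * min (c0 / 2) (1 / 20)) / hh N := by
      apply div_nonneg _ hp.le
      have := min_le_left (c0 / 2) (1 / 20 : ℝ)
      linarith
    linarith

end Pool.Agent.CJX
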