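import Pool.Agent.CJX.StC

/-!
# CJX, module KTA (helper44): the tail in `m`
-/

set_option autoImplicit false

open Finset Filter
open scoped BigOperators Topology

namespace Pool.Agent.CJX

open Pool.Agent.BorTree Pool.Agent.FEC

private theorem KTA_ee (x : ℝ) : ‖ee x‖ = 1 := Complex.norm_exp_ofReal_mul_I _

private theorem KTA_SS (R : ℕ) (m : ℤ) (hm : 0 ≤ m) : ‖SS R m‖ ≤ 2 * (m : ℝ) + 1 := by
  unfold SS
  refine (norm_sum_le _ _).trans ?_
  have h1 : ∑ j ∈ (Icc (-m) m).filter (fun j => -m < 3 * j ∧ 3 * j ≤ m), ‖ff R j‖ =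
      (((Icc (-m) m).filter (fun j => -m < 3 * j ∧ 3 * j ≤ m)).card : ℝ) := by
    have h0 : ∀ j ∈ (Icc (-m) m).filter (fun j => -m < 3 * j ∧ 3 * j ≤ m), ‖ff R j‖ = 1 :=
      fun j _ => KTA_ee _
    rw [Finset.sum_congr rfl h0]
    simp
  rw [h1]
  have h2 : ((Icc (-m) m).filter (fun j => -m < 3 * j ∧ 3 * j ≤ m)).card ≤ (Icc (-m) m).card :=
    Finset.card_filter_le _ _
  rw [Int.card_Icc] at h2
  have h3 : ((((m + 1 - -m).toNat : ℕ)) : ℤ) = 2 * m + 1 := by
    rw [Int.toNat_of_nonneg (by omega)]; ring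
  have h4 : ((((m + 1 - -m).toNat : ℕ)) : ℝ) = 2 * (m : ℝ) + 1 := by
    have := congrArg (fun z : ℤ => (z : ℝ)) h3
    push_cast at this
    exact this
  calc (((Icc (-m) m).filter (fun j => -m < 3 * j ∧ 3 * j ≤ m)).card : ℝ)
      ≤ (((m + 1 - -m).toNat : ℕ) : ℝ) := by exact_mod_cast h2
    _ = _ := h4

private theorem KTA_grow (c : ℝ) (hc : 0 < c) :
    ∀ᶠ N : ℕ in atTop, (N : ℝ) * (2 * N + 1) ≤ Real.exp (c * N) := by
  have h := (isLittleO_pow_exp_pos_mul_atTop 2 hc).bound (show (0 : ℝ) < 1 / 3 by norm_num)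
  have h' := tendsto_natCast_atTop_atTop.eventually h
  filter_upwards [h', eventually_ge_atTop 1] with N hN hN1
  rw [Real.norm_eq_abs, Real.norm_eq_abs, abs_of_nonneg (by positivity),
    abs_of_pos (Real.exp_pos _)] at hN
  have h1 : (1 : ℝ) ≤ N := by exact_mod_cast hN1
  nlinarith

theorem thm_KTA (h1 : St_TAI) : St_KTA := by
  obtain ⟨c, hc, hT⟩ := h1
  refine ⟨c / 2, by positivity, ?_⟩
  filter_upwards [hT, KTA_grow (c / 2) (by positivity)] with N hN hg R k hw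
  have hN0 := hN k hw
  have hP : 0 ≤ PP N k N := by
    have h0 := hN0 0 (Nat.zero_le _) (by
      have : |4 * ((0 : ℕ) : ℤ) - (2 * N + 1)| = 2 * N + 1 := by
        rw [abs_of_nonpos (by push_cast; omega)]; push_cast; ring
      rw [this]; omega)
    have h2 := (abs_nonneg _).trans h0
    exact nonneg_of_mul_nonneg_right h2 (Real.exp_pos _)
  set B : ℝ := Real.exp (-(c * N)) * PP N k N with hB
  have hB0 : 0 ≤ B := mul_nonneg (Real.exp_pos _).le hP
  have hterm : ∀ m ∈ Icc (1 : ℤ) N, ‖(aa N k m - cc N k m) * SS R m‖ ≤ (2 * (N : ℝ) + 1) * B := by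
    intro m hm
    rw [Finset.mem_Icc] at hm
    rw [norm_mul]
    have hS : ‖SS R m‖ ≤ 2 * (N : ℝ) + 1 := by
      refine (KTA_SS R m (by omega)).trans ?_
      have : (m : ℝ) ≤ N := by exact_mod_cast hm.2
      linarith
    have hA : ‖aa N k m - cc N k m‖ ≤ B := by
      unfold cc
      by_cases hcore : 200 * |4 * m - (2 * (N : ℤ) + 1)| ≤ 2 * (N : ℤ) + 1
      · rw [if_pos hcore, sub_self, norm_zero]; exact hB0
      · rw [if_neg hcore, sub_zero]
        unfold aa gg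
        rw [norm_mul, KTA_ee, one_mul, Complex.norm_real, Real.norm_eq_abs]
        obtain ⟨m', rfl⟩ := Int.eq_ofNat_of_zero_le (show 0 ≤ m by omega)
        exact hN0 m' (by omega) (by have hcore' := not_le.1 hcore; omega)
    calc ‖aa N k m - cc N k m‖ * ‖SS R m‖ ≤ B * (2 * (N : ℝ) + 1) :=
          mul_le_mul hA hS (norm_nonneg _) hB0
      _ = _ := by ring
  refine (norm_sum_le _ _).trans ((Finset.sum_le_sum hterm).trans ?_)
  rw [Finset.sum_const, Int.card_Icc, nsmul_eq_mul]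
  have hcard : ((((N : ℤ) + 1 - 1).toNat : ℕ) : ℝ) = N := by
    have : ((N : ℤ) + 1 - 1).toNat = N := by omega
    rw [this]
  rw [hcard]
  have he : Real.exp (c / 2 * N) * Real.exp (-(c * N)) = Real.exp (-(c / 2 * N)) := by
    rw [← Real.exp_add]; congr 1; ring
  calc (N : ℝ) * ((2 * (N : ℝ) + 1) * B) = ((N : ℝ) * (2 * N + 1)) * B := by ring
    _ ≤ Real.exp (c / 2 * N) * B := mul_le_mul_of_nonneg_right hg hB0
    _ = Real.exp (-(c / 2 * N)) * PP N k N := by rw [hB, ← mul_assoc, he]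

end Pool.Agent.CJX
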