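import Pool.Agent.CJX.StC

/-!
# CJX MAI: the final theorem
-/

set_option autoImplicit false

open Finset Filter MeasureTheory
open scoped BigOperators Topology

namespace Pool.Agent.CJX

open Pool.Agent.BorTree Pool.Agent.FEC

private theorem MAI_int :
    -16 * (∫ t in (0 : ℝ)..(Real.pi / 4), Real.log (2 * Real.sin t)) = 2 * EE := by
  have h : (∫ t in (0 : ℝ)..(Real.pi / 4), Real.log (2 * Real.sin t)) = II (Real.pi / 4) := rfl
  rw [h]
  unfold EE
  ring

private theorem MAI_EE : 1 / 10 ≤ EE := by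
  have h1 := II_gap
  have h2 := II_nonpos (x := Real.pi / 6) (by positivity) (by linarith [Real.pi_pos])
  have h3 := Real.pi_pos
  unfold EE
  linarith

private theorem MAI_hh (N : ℕ) : ((N : ℝ) + 1 / 2) / (2 * Real.pi) = 1 / (2 * hh N) := by
  unfold hh
  have h1 := Real.pi_pos
  have h2 : (0 : ℝ) < 2 * N + 1 := by positivity
  field_simp

private theorem MAI_hh2 (N : ℕ) : 2 * Real.pi / ((N : ℝ) + 1 / 2) = 2 * hh N := by
  unfold hh
  have h2 : (0 : ℝ) < 2 * N + 1 := by positivity
  have h3 : (0 : ℝ) < (N : ℝ) + 1 / 2 := by positivity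
  field_simp

private theorem MAI_hp (N : ℕ) : 0 < hh N := by
  unfold hh
  have h1 := Real.pi_pos
  positivity

theorem thm_MAI (h1 : St_FIN) : St_MAI := by
  obtain ⟨c, hc, hN⟩ := h1
  have ht : Tendsto (fun n : ℕ => 15 * n + 7) atTop atTop := by
    apply tendsto_atTop_mono (fun n => (by omega : n ≤ 15 * n + 7)) tendsto_id
  have hn : ∀ᶠ n : ℕ in atTop, ‖JL (15 * n + 7)‖ ≤ Real.exp ((EE - c) / hh (15 * n + 7)) := by
    filter_upwards [ht.eventually hN] with n hn
    exact hn (2 * n + 1) (by ring)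
  refine ⟨⟨2 * c, by positivity, ?_⟩, ?_⟩
  · filter_upwards [hn] with n hn
    refine hn.trans (le_of_eq ?_)
    congr 1
    rw [MAI_int, MAI_hh]
    have := MAI_hp (15 * n + 7)
    field_simp
  · intro hlim
    rw [MAI_int] at hlim
    have hlim2 := hlim.comp ht
    have hδ : 2 * EE - min (2 * c) (1 / 10) < 2 * EE := by
      have : 0 < min (2 * c) (1 / 10) := lt_min (by positivity) (by norm_num)
      linarith
    have hev := (tendsto_order.1 hlim2).1 _ hδ
    obtain ⟨n, h2, h3⟩ := (hev.and hn).exists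
    simp only [Function.comp_apply] at h2
    rw [MAI_hh2] at h2
    have hp := MAI_hp (15 * n + 7)
    rcases (norm_nonneg (JL (15 * n + 7))).eq_or_lt with h0 | h0
    · rw [← h0, Real.log_zero, mul_zero] at h2
      have h4 := MAI_EE
      have h5 : min (2 * c) (1 / 10 : ℝ) ≤ 1 / 10 := min_le_right _ _
      linarith
    · have h4 : Real.log ‖JL (15 * n + 7)‖ ≤ (EE - c) / hh (15 * n + 7) := by
        rw [Real.log_le_iff_le_exp h0]
        exact h3
      have h5 := mul_le_mul_of_nonneg_left h4 (by positivity : 0 ≤ 2 * hh (15 * n + 7))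
      have h6 : 2 * hh (15 * n + 7) * ((EE - c) / hh (15 * n + 7)) = 2 * EE - 2 * c := by
        field_simp
      have h7 : min (2 * c) (1 / 10 : ℝ) ≤ 2 * c := min_le_left _ _
      linarith

end Pool.Agent.CJX
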