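import Pool.Agent.CJX.StC
import Pool.Agent.BorTree.Main

set_option autoImplicit false

open Finset Filter MeasureTheory
open scoped BigOperators Topology

namespace Pool.Agent.CJX

open Pool.Agent.BorTree Pool.Agent.FEC

theorem thm_NBG (h1 : St_GAP) : St_NBG := by
  refine ⟨1 / 20000, by norm_num, ?_⟩
  filter_upwards [LL_small' (ε := 1 / 20000) 50 (by norm_num) (by norm_num),
    eventually_ge_atTop 200] with N hLL hN k hk hb hW
  have hp := hh_pos N
  have hmul := hh_mul N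
  have hpi := Real.pi_gt_three
  have hpos : 0 < bor N k * PP N k N ^ 3 := mul_pos (bor_pos hk) (pow_pos (PPN_pos hk) _)
  obtain ⟨m, hm, hm2⟩ : ∃ m : ℕ, N - k = m ∧ 2 * m ≤ N := ⟨N - k, rfl, by omega⟩
  have hn := (abs_le.1 (log_node_big (by omega : 2 ≤ N) hk hb)).2
  rw [hm] at hn
  have hNr : (200 : ℝ) ≤ (N : ℝ) := by exact_mod_cast hN
  have h2m : (2 * m : ℝ) ≤ N := by exact_mod_cast hm2
  have hg := h1 (hh N * (m : ℝ)) (by positivity) (by nlinarith)
  -- distance to the maximum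
  have hd : (1 / 200 : ℝ) ≤ |hh N * (m : ℝ) - Real.pi / 4| := by
    have hW' : (N : ℤ) + 1 ≤ 100 * |4 * (k : ℤ) - 3 * N| := by
      unfold Win at hW
      push Not at hW
      omega
    have hk' : (4 * (k : ℤ) - 3 * N) = N - 4 * m := by omega
    rw [hk'] at hW'
    have hW2 : (N : ℝ) + 1 ≤ 100 * |(N : ℝ) - 4 * m| := by exact_mod_cast hW'
    have e : hh N * (m : ℝ) - Real.pi / 4 = hh N / 8 * (8 * m - 2 * N - 1) := by
      linear_combination (1 / 8 : ℝ) * hmul
    rw [e, abs_mul, abs_of_pos (by positivity : (0 : ℝ) < hh N / 8)]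
    have h3 : 2 * |(N : ℝ) - 4 * m| - 1 ≤ |(8 * m - 2 * N - 1 : ℝ)| := by
      rcases abs_cases ((N : ℝ) - 4 * m) with ⟨ha, _⟩ | ⟨ha, _⟩ <;>
        rcases abs_cases (8 * m - 2 * N - 1 : ℝ) with ⟨hb', _⟩ | ⟨hb', _⟩ <;> linarith
    have h4 : ((N : ℝ) + 1) / 50 - 1 ≤ |(8 * m - 2 * N - 1 : ℝ)| := by linarith
    have h5 : hh N / 8 * (((N : ℝ) + 1) / 50 - 1) ≤ hh N / 8 * |(8 * m - 2 * N - 1 : ℝ)| :=
      mul_le_mul_of_nonneg_left h4 (by positivity)
    refine le_trans ?_ h5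
    have h6 : hh N = 2 * Real.pi / (2 * N + 1) := by
      field_simp
      linarith
    rw [h6, div_div, div_mul_eq_mul_div, le_div_iff₀ (by positivity)]
    nlinarith
  have hd2 : (1 / 40000 : ℝ) ≤ (hh N * (m : ℝ) - Real.pi / 4) ^ 2 := by
    rw [← sq_abs]
    nlinarith
  rw [← Real.exp_log hpos]
  apply Real.exp_le_exp.2
  have h7 : - (4 * (II (hh N * (m : ℝ)) + II (Real.pi / 2 - hh N * (m : ℝ))) / hh N) ≤
      (EE - 1 / 10000) / hh N := by
    rw [← neg_div]
    apply div_le_div_of_nonneg_right _ hp.le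
    unfold EE
    linarith
  have h8 : (EE - 1 / 10000) / hh N + 1 / 20000 / hh N = (EE - 1 / 20000) / hh N := by
    rw [← add_div]
    congr 1
    ring
  linarith

end Pool.Agent.CJX
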