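import Pool.Agent.CJX.StB

/-!
# CJX, module OSC: bound of the oscillating sum
-/

set_option autoImplicit false

open Finset Filter MeasureTheory
open scoped BigOperators

namespace Pool.Agent.CJX

open Pool.Agent.BorTree Pool.Agent.FEC

private theorem OSC_half (R n : ℕ) (j : ℤ) :
    ∫ u : ℝ, Real.exp (-(Real.pi * u ^ 2)) * (‖1 + zu R j u‖ + 1 / 4 * ‖zu R j u‖) ^ n =
      2 ^ n * ∫ u : ℝ, Real.exp (-(Real.pi * u ^ 2)) *
        ((‖1 + zu R j u‖ + 1 / 4 * ‖zu R j u‖) / 2) ^ n := by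
  rw [← integral_const_mul]
  refine integral_congr_ae (Filter.Eventually.of_forall fun u => ?_)
  have h2 : (2 : ℝ) ^ n ≠ 0 := by positivity
  simp only [div_pow]
  field_simp

theorem thm_OSC (h1 : St_AVG) (h2 : St_GAU) (h3 : St_NUM) : St_OSC := by
  intro R n Psi M hR hM hn hsupp hdiff
  obtain ⟨a, ha⟩ : ∃ a : ℤ, a = (31 * (R : ℤ) + 24) / 25 := ⟨_, rfl⟩
  obtain ⟨b, hb⟩ : ∃ b : ℤ, b = (44 * (R : ℤ)) / 25 := ⟨_, rfl⟩
  have hR' : (1 : ℤ) ≤ R := by exact_mod_cast hR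
  have hn' : 1250 * (n : ℤ) ≤ R := by exact_mod_cast hn
  have hu : ∀ j : ℤ, ff R j * Psi j ≠ 0 → a ≤ j ∧ j ≤ b := by
    intro j hj
    obtain ⟨h4, h5⟩ := hsupp j (right_ne_zero_of_mul hj)
    constructor <;> omega
  have hsub : Icc a b ⊆ Icc (1 : ℤ) (3 * R) := by
    intro j hj
    rw [Finset.mem_Icc] at hj ⊢
    constructor <;> omega
  have hsum : ∑ j ∈ Icc (1 : ℤ) (3 * R), ff R j * Psi j = ∑ j ∈ Icc a b, ff R j * Psi j := by
    refine (Finset.sum_subset hsub fun j _ hj => ?_).symm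
    by_contra h0
    exact hj (Finset.mem_Icc.mpr (hu j h0))
  have hA := h1 (fun j => ff R j * Psi j) a b n hu
  have hcard : ((Icc (a - n) b).card : ℝ) ≤ R + 1 := by
    rw [Int.card_Icc]
    have h4 : (b + 1 - (a - n)).toNat ≤ R + 1 := by omega
    exact_mod_cast h4
  have hE : 0 ≤ 3 * Real.exp (-((n : ℝ) / 20)) := by positivity
  have key : ‖(2 : ℂ) ^ n * ∑ j ∈ Icc a b, ff R j * Psi j‖ ≤
      (R + 1) * (M * (2 ^ n * (3 * Real.exp (-((n : ℝ) / 20))))) := by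
    rw [← hA]
    have h5 : ∀ j ∈ Icc (a - n) b,
        ‖∑ l ∈ range (n + 1), (n.choose l : ℂ) * (ff R (j + l) * Psi (j + l))‖ ≤
          M * (2 ^ n * (3 * Real.exp (-((n : ℝ) / 20)))) := by
      intro j hj
      rw [Finset.mem_Icc] at hj
      refine (h2 R n Psi M (1 / 4) j hR hM (by norm_num) (fun s hs => hdiff s hs j)).trans ?_
      rw [OSC_half]
      refine mul_le_mul_of_nonneg_left ?_ hM
      refine mul_le_mul_of_nonneg_left ?_ (by positivity)
      exact h3 R n j hR hn (by omega) (by omega)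
    calc ‖∑ j ∈ Icc (a - n) b, ∑ l ∈ range (n + 1),
          (n.choose l : ℂ) * (ff R (j + l) * Psi (j + l))‖
        ≤ ∑ j ∈ Icc (a - n) b, ‖∑ l ∈ range (n + 1),
          (n.choose l : ℂ) * (ff R (j + l) * Psi (j + l))‖ := norm_sum_le _ _
      _ ≤ ∑ _j ∈ Icc (a - n) b, M * (2 ^ n * (3 * Real.exp (-((n : ℝ) / 20)))) :=
          Finset.sum_le_sum h5
      _ = ((Icc (a - n) b).card : ℝ) * (M * (2 ^ n * (3 * Real.exp (-((n : ℝ) / 20))))) := by
          rw [Finset.sum_const, nsmul_eq_mul]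
      _ ≤ (R + 1) * (M * (2 ^ n * (3 * Real.exp (-((n : ℝ) / 20))))) :=
          mul_le_mul_of_nonneg_right hcard (by positivity)
  rw [hsum]
  rw [norm_mul, norm_pow, Complex.norm_ofNat] at key
  have h2n : (0 : ℝ) < 2 ^ n := by positivity
  have h6 : (2 : ℝ) ^ n * ‖∑ j ∈ Icc a b, ff R j * Psi j‖ ≤
      2 ^ n * (3 * (R + 1) * M * Real.exp (-((n : ℝ) / 20))) := by
    refine key.trans (le_of_eq ?_)
    ring
  exact le_of_mul_le_mul_left h6 h2n

end Pool.Agent.CJX
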