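import Pool.Agent.CJX.StC

/-! # CJX, module PQT: trivial bound of `PQ` -/

set_option autoImplicit false

open Finset
open scoped BigOperators

namespace Pool.Agent.CJX

open Pool.Agent.BorTree Pool.Agent.FEC

private theorem PQT_norm_tt (N : ℕ) (x : ℝ) : ‖tt N x‖ = 1 := by
  unfold tt ee
  exact Complex.norm_exp_ofReal_mul_I _

private theorem PQT_F2 {N k : ℕ} {B : ℝ} (hB : ∀ M : ℤ, |PP N k M| ≤ B) (z : ℕ) :
    ‖F2 N k z‖ ≤ (z : ℝ) * B := by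
  unfold F2
  refine le_trans (norm_sum_le _ _) ?_
  have h : ∀ l ∈ range z, ‖tt N ((wj z l : ℝ) ^ 2 / 2 + (wj z l : ℝ) / 2) *
      (PP N k (2 * wj z l + 1) : ℂ)‖ ≤ B := by
    intro l _
    rw [norm_mul, PQT_norm_tt, one_mul, Complex.norm_real, Real.norm_eq_abs]
    exact hB _
  refine le_trans (Finset.sum_le_sum h) ?_
  rw [Finset.sum_const, Finset.card_range, nsmul_eq_mul]

private theorem PQT_sign (z : ℤ) : ‖((z.sign : ℤ) : ℂ)‖ ≤ 1 := by
  rcases lt_trichotomy z 0 with h | h | h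
  · rw [Int.sign_eq_neg_one_of_neg h]; simp
  · rw [h]; simp
  · rw [Int.sign_eq_one_of_pos h]; simp

private theorem PQT_F2z {N k : ℕ} {B : ℝ} (hB : ∀ M : ℤ, |PP N k M| ≤ B) (h0 : 0 ≤ B) (z : ℤ)
    (c : ℕ) (hz : z.natAbs ≤ c) : ‖F2z N k z‖ ≤ (c : ℝ) * B := by
  unfold F2z
  rw [norm_mul]
  have h1 := PQT_F2 hB z.natAbs
  have h2 := PQT_sign z
  have h3 : ((z.natAbs : ℕ) : ℝ) ≤ c := by exact_mod_cast hz
  calc ‖((z.sign : ℤ) : ℂ)‖ * ‖F2 N k z.natAbs‖ ≤ 1 * ((z.natAbs : ℝ) * B) :=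
        mul_le_mul h2 h1 (norm_nonneg _) zero_le_one
    _ = (z.natAbs : ℝ) * B := one_mul _
    _ ≤ (c : ℝ) * B := mul_le_mul_of_nonneg_right h3 h0

theorem thm_PQT : St_PQT := by
  intro N k B hB
  have h0 : 0 ≤ B := le_trans (abs_nonneg _) (hB 0)
  unfold PQ
  refine le_trans (norm_sum_le _ _) ?_
  have h : ∀ l ∈ range N, ‖tt N (-(15 * (wj N l : ℝ) ^ 2 / 4 + 5 * N * (wj N l : ℝ) / 2)) *
      F2z N k (N + 3 * wj N l)‖ ≤ ((4 * N : ℕ) : ℝ) * B := by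
    intro l hl
    rw [norm_mul, PQT_norm_tt, one_mul]
    have hl' : l < N := Finset.mem_range.1 hl
    refine PQT_F2z hB h0 _ (4 * N) ?_
    unfold wj
    omega
  refine le_trans (Finset.sum_le_sum h) ?_
  rw [Finset.sum_const, Finset.card_range, nsmul_eq_mul]
  push_cast
  apply le_of_eq
  ring

end Pool.Agent.CJX
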