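import Pool.Agent.CJX.StA

/-!
# CJX, module PSD: differences of `Ps`
-/

set_option autoImplicit false

open Finset
open scoped BigOperators

namespace Pool.Agent.CJX

open Pool.Agent.BorTree Pool.Agent.FEC

private theorem PSD_fwd (s : ℕ) : ∀ (f : ℤ → ℂ) (a j : ℤ),
    (fwdDiff (1 : ℤ))^[s] (fun j => f (3 * j + a)) j = (fwdDiff (3 : ℤ))^[s] f (3 * j + a) := by
  induction s with
  | zero => intro f a j; rfl
  | succ s ih =>
    intro f a j
    rw [Function.iterate_succ_apply, Function.iterate_succ_apply, ← ih]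
    have h1 : fwdDiff (1 : ℤ) (fun j => f (3 * j + a)) = fun j => fwdDiff (3 : ℤ) f (3 * j + a) := by
      funext i
      simp only [fwdDiff]
      rw [show 3 * (i + 1) + a = 3 * i + a + 3 by ring]
    rw [h1]

private theorem PSD_bwd (s : ℕ) : ∀ (f : ℤ → ℂ) (a j : ℤ),
    (fwdDiff (1 : ℤ))^[s] (fun j => f (a - 3 * j)) j =
      (-1) ^ s * (fwdDiff (3 : ℤ))^[s] f (a - 3 * j - 3 * s) := by
  induction s with
  | zero => intro f a j; simp
  | succ s ih =>
    intro f a j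
    rw [Function.iterate_succ_apply, Function.iterate_succ_apply]
    have h1 : fwdDiff (1 : ℤ) (fun j => f (a - 3 * j)) =
        (-1 : ℂ) • fun j => fwdDiff (3 : ℤ) f ((a - 3) - 3 * j) := by
      funext i
      simp only [fwdDiff, Pi.smul_apply, smul_eq_mul]
      rw [show a - 3 * (i + 1) = a - 3 - 3 * i by ring, show a - 3 - 3 * i + 3 = a - 3 * i by ring]
      ring
    rw [h1, fwdDiff_iter_const_smul, Pi.smul_apply, ih, smul_eq_mul]
    rw [show a - 3 - 3 * j - 3 * (s : ℤ) = a - 3 * j - 3 * ((s + 1 : ℕ) : ℤ) by push_cast; ring]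
    ring

private theorem PSD_step (h : ℤ → ℂ) (N : ℤ) (hh : ∀ m, h m ≠ 0 → 1 ≤ m ∧ m ≤ N) (x : ℤ) :
    (∑ m ∈ Icc (1 : ℤ) N, if m < x + 1 then h m else 0) =
      (∑ m ∈ Icc (1 : ℤ) N, if m < x then h m else 0) + h x := by
  have h1 : ∀ m : ℤ, (if m < x + 1 then h m else 0) =
      (if m < x then h m else 0) + if m = x then h m else 0 := by
    intro m
    by_cases h2 : m = x
    · subst h2; simp
    · by_cases h3 : m < x
      · rw [if_pos (by omega), if_pos h3, if_neg h2, add_zero]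
      · rw [if_neg (by omega), if_neg h3, if_neg h2, add_zero]
  rw [Finset.sum_congr rfl fun m _ => h1 m, Finset.sum_add_distrib, Finset.sum_ite_eq']
  congr 1
  by_cases h2 : x ∈ Icc (1 : ℤ) N
  · rw [if_pos h2]
  · rw [if_neg h2]
    by_contra h3
    exact h2 (Finset.mem_Icc.mpr (hh x fun h4 => h3 h4.symm))

private theorem PSD_supp (N R k : ℕ) (hr : 2 * N + 1 = 15 * R) (m : ℤ) (hm : cc N k m ≠ 0) :
    1 ≤ m ∧ m ≤ N ∧ 2 * m < 9 * R := by
  unfold cc at hm
  split_ifs at hm with h1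
  · have h2 : (2 * (N : ℤ) + 1) = 15 * R := by exact_mod_cast hr
    have h3 := abs_le.mp (show |4 * m - (2 * (N : ℤ) + 1)| ≤ |4 * m - (2 * (N : ℤ) + 1)| from le_rfl)
    obtain ⟨h4, h5⟩ := h3
    refine ⟨?_, ?_, ?_⟩ <;> omega
  · exact absurd rfl hm

private theorem PSD_diff (N R k : ℕ) (hr : 2 * N + 1 = 15 * R) (j : ℤ) :
    Ps N R k (j + 1) - Ps N R k j =
      (cc N k (3 * j + 0) + cc N k (3 * j + 1) + cc N k (3 * j + 2)) -
      (cc N k (9 * R - 3 * j) + cc N k (9 * R - 1 - 3 * j) + cc N k (9 * R - 2 - 3 * j)) := by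
  have hP : ∀ j : ℤ, Ps N R k j = (∑ m ∈ Icc (1 : ℤ) N, if m < 3 * j then cc N k m else 0) +
      (∑ m ∈ Icc (1 : ℤ) N, if m < 9 * R - 3 * j + 1 then cc N k m else 0) -
      ∑ m ∈ Icc (1 : ℤ) N, cc N k m := by
    intro j
    unfold Ps
    rw [← Finset.sum_add_distrib, ← Finset.sum_sub_distrib]
    refine Finset.sum_congr rfl fun m _ => ?_
    by_cases h0 : cc N k m = 0
    · simp [h0]
    · obtain ⟨h1, h2, h3⟩ := PSD_supp N R k hr m h0
      by_cases h4 : m < 3 * j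
      · by_cases h5 : m ≤ 9 * (R : ℤ) - 3 * j
        · rw [if_pos ⟨h4, h5⟩, if_pos h4, if_pos (by omega)]; ring
        · rw [if_neg (fun h => h5 h.2), if_pos h4, if_neg (by omega)]; ring
      · rw [if_neg (fun h => h4 h.1), if_neg h4, if_pos (by omega)]; ring
  have hs := PSD_step (cc N k) N fun m hm =>
    ⟨(PSD_supp N R k hr m hm).1, (PSD_supp N R k hr m hm).2.1⟩
  obtain ⟨T, hT⟩ : ∃ T : ℤ → ℂ, ∀ x, T x = ∑ m ∈ Icc (1 : ℤ) N, if m < x then cc N k m else 0 :=
    ⟨_, fun _ => rfl⟩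
  simp only [← hT] at hP hs
  have e1 : T (3 * (j + 1)) = T (3 * j) + cc N k (3 * j + 0) + cc N k (3 * j + 1) +
      cc N k (3 * j + 2) := by
    rw [show 3 * (j + 1) = 3 * j + 2 + 1 by ring, hs, show 3 * j + 2 = 3 * j + 1 + 1 by ring, hs,
      hs, add_zero]
  have e2 : T (9 * R - 3 * j + 1) = T (9 * R - 3 * (j + 1) + 1) + cc N k (9 * R - 2 - 3 * j) +
      cc N k (9 * R - 1 - 3 * j) + cc N k (9 * R - 3 * j) := by
    rw [hs, show 9 * (R : ℤ) - 3 * j = 9 * R - 1 - 3 * j + 1 by ring, hs,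
      show 9 * (R : ℤ) - 1 - 3 * j = 9 * R - 2 - 3 * j + 1 by ring, hs,
      show 9 * (R : ℤ) - 3 * (j + 1) + 1 = 9 * R - 2 - 3 * j by ring]
  rw [hP, hP, e1, e2]
  ring

theorem thm_PSD : St_PSD := by
  intro N R k n M μ hr hM hμ hd s hs j
  have hNM : 0 ≤ (N : ℝ) * M := by positivity
  rcases Nat.eq_zero_or_pos s with h0 | h0
  · subst h0
    have h1 : ∀ m : ℤ, ‖cc N k m‖ ≤ M := fun m => by simpa using hd 0 (Nat.zero_le _) m
    have h2 : ‖Ps N R k j‖ ≤ N * M := by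
      unfold Ps
      refine (norm_sum_le _ _).trans ?_
      refine (Finset.sum_le_card_nsmul _ _ M fun m _ => ?_).trans ?_
      · split_ifs
        · exact h1 m
        · simpa using hM
      · rw [Int.card_Icc, nsmul_eq_mul]
        have : ((N : ℤ) + 1 - 1).toNat = N := by omega
        rw [this]
    have h3 : 0 ≤ 6 / μ * M := by positivity
    simp only [Function.iterate_zero, id_eq, pow_zero, mul_one]
    linarith [add_mul (6 / μ) (N : ℝ) M]
  · obtain ⟨t, rfl⟩ : ∃ t, s = t + 1 := ⟨s - 1, by omega⟩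
    have hb : ∀ m : ℤ, ‖(fwdDiff (3 : ℤ))^[t] (cc N k) m‖ ≤ M * μ ^ t := fun m => hd t (by omega) m
    have hD : fwdDiff (1 : ℤ) (Ps N R k) =
        ((fun j => cc N k (3 * j + 0)) + (fun j => cc N k (3 * j + 1)) +
          (fun j => cc N k (3 * j + 2))) +
        (-1 : ℂ) • ((fun j => cc N k (9 * R - 3 * j)) + (fun j => cc N k (9 * R - 1 - 3 * j)) +
          (fun j => cc N k (9 * R - 2 - 3 * j))) := by
      funext i
      have := PSD_diff N R k hr i
      simp only [fwdDiff, Pi.add_apply, Pi.smul_apply, smul_eq_mul]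
      rw [this]
      ring
    have hf : ∀ a : ℤ, ‖(fwdDiff (1 : ℤ))^[t] (fun j => cc N k (3 * j + a)) j‖ ≤ M * μ ^ t := by
      intro a
      rw [PSD_fwd]
      exact hb _
    have hg : ∀ a : ℤ, ‖(fwdDiff (1 : ℤ))^[t] (fun j => cc N k (a - 3 * j)) j‖ ≤ M * μ ^ t := by
      intro a
      rw [PSD_bwd, norm_mul, norm_pow, norm_neg, norm_one, one_pow, one_mul]
      exact hb _
    rw [Function.iterate_succ_apply, hD]
    simp only [fwdDiff_iter_add, fwdDiff_iter_const_smul, Pi.add_apply, Pi.smul_apply]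
    have h1 := hf 0
    have h2 := hf 1
    have h3 := hf 2
    have h4 := hg (9 * R)
    have h5 := hg (9 * R - 1)
    have h6 := hg (9 * R - 2)
    refine (norm_add_le _ _).trans ?_
    rw [norm_smul, norm_neg, norm_one, one_mul]
    have h7 := norm_add₃_le (a := (fwdDiff (1 : ℤ))^[t] (fun j => cc N k (3 * j + 0)) j)
      (b := (fwdDiff (1 : ℤ))^[t] (fun j => cc N k (3 * j + 1)) j)
      (c := (fwdDiff (1 : ℤ))^[t] (fun j => cc N k (3 * j + 2)) j)
    have h8 := norm_add₃_le (a := (fwdDiff (1 : ℤ))^[t] (fun j => cc N k (9 * R - 3 * j)) j)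
      (b := (fwdDiff (1 : ℤ))^[t] (fun j => cc N k (9 * R - 1 - 3 * j)) j)
      (c := (fwdDiff (1 : ℤ))^[t] (fun j => cc N k (9 * R - 2 - 3 * j)) j)
    have h9 : 0 ≤ (N : ℝ) * M * μ ^ (t + 1) := by positivity
    have h10 : (6 / μ + N) * M * μ ^ (t + 1) = 6 * (M * μ ^ t) + (N : ℝ) * M * μ ^ (t + 1) := by
      rw [pow_succ]
      field_simp
    rw [h10]
    linarith
end Pool.Agent.CJX
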