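import Pool.Agent.CJX.StB

/-!
# CJX, module QBT: the q-binomial theorem at the root of unity
-/

set_option autoImplicit false

open Finset
open scoped BigOperators

namespace Pool.Agent.CJX

open Pool.Agent.BorTree Pool.Agent.FEC

private lemma QBT_ee_add (x y : ℝ) : ee (x + y) = ee x * ee y := by
  unfold ee
  rw [← Complex.exp_add]
  congr 1
  push_cast
  ring

private lemma QBT_ee_pow (x : ℝ) (n : ℕ) : ee x ^ n = ee (n * x) := by
  unfold ee
  rw [← Complex.exp_nat_mul]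
  congr 1
  push_cast
  ring

private lemma QBT_sn (N : ℕ) (m : ℤ) : ((sn N m : ℝ) : ℂ) * Complex.I =
    ee ((m : ℝ) / (2 * N + 1)) - ee (-((m : ℝ) / (2 * N + 1))) := by
  have h1 : ∀ x : ℝ, ee x = Complex.cos ((2 * Real.pi * x : ℝ) : ℂ) +
      Complex.sin ((2 * Real.pi * x : ℝ) : ℂ) * Complex.I := by
    intro x
    unfold ee
    rw [Complex.exp_mul_I]
  have h2 : 2 * Real.pi / (2 * (N : ℝ) + 1) * (m : ℝ) =
      2 * Real.pi * ((m : ℝ) / (2 * N + 1)) := by ring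
  have h3 : 2 * Real.pi * -((m : ℝ) / (2 * N + 1)) =
      -(2 * Real.pi * ((m : ℝ) / (2 * N + 1))) := by ring
  rw [h1, h1, h3]
  unfold sn
  rw [h2]
  push_cast
  rw [Complex.cos_neg, Complex.sin_neg]
  ring

private lemma QBT_sin (N : ℕ) (x y : ℤ) : ((sn N (x + y) : ℝ) : ℂ) =
    ((sn N x : ℝ) : ℂ) * ee (-((y : ℝ) / (2 * N + 1))) +
      ((sn N y : ℝ) : ℂ) * ee ((x : ℝ) / (2 * N + 1)) := by
  have hI : Complex.I ≠ 0 := Complex.I_ne_zero
  apply mul_right_cancel₀ hI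
  rw [add_mul, mul_right_comm, QBT_sn, QBT_sn, mul_right_comm (((sn N y : ℝ) : ℂ)), QBT_sn]
  have h1 : ((x + y : ℤ) : ℝ) / (2 * (N : ℝ) + 1) =
      (x : ℝ) / (2 * N + 1) + (y : ℝ) / (2 * N + 1) := by
    push_cast
    ring
  have h2 : -((x : ℝ) / (2 * (N : ℝ) + 1) + (y : ℝ) / (2 * N + 1)) =
      -((x : ℝ) / (2 * N + 1)) + -((y : ℝ) / (2 * N + 1)) := by ring
  rw [h1, h2, QBT_ee_add, QBT_ee_add]
  ring

/-- the recursion of the q-binomial coefficients -/
private lemma QBT_rec (N K b : ℕ) (hK : K + 1 ≤ N) (hb : b + 1 ≤ K) :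
    ((GG N (K + 1) / (GG N (b + 1) * GG N (K + 1 - (b + 1))) : ℝ) : ℂ) =
      ((GG N K / (GG N (b + 1) * GG N (K - (b + 1))) : ℝ) : ℂ) *
          ee (-(((b + 1 : ℕ) : ℝ) / (2 * N + 1))) +
        ((GG N K / (GG N b * GG N (K - b)) : ℝ) : ℂ) *
          ee (((K : ℝ) - b) / (2 * N + 1)) := by
  obtain ⟨c, rfl⟩ : ∃ c, K = b + 1 + c := ⟨K - (b + 1), by omega⟩
  have e1 : b + 1 + c + 1 - (b + 1) = c + 1 := by omega
  have e2 : b + 1 + c - (b + 1) = c := by omega
  have e3 : b + 1 + c - b = c + 1 := by omega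
  rw [e1, e2, e3]
  have hG : ∀ m, m ≤ N → ((GG N m : ℝ) : ℂ) ≠ 0 := by
    intro m hm
    exact_mod_cast (GG_pos hm).ne'
  have hs : ∀ m : ℕ, 1 ≤ m → m ≤ N → ((sn N m : ℝ) : ℂ) ≠ 0 := by
    intro m h1 h2
    exact_mod_cast (sn_pos (by exact_mod_cast h1) (by exact_mod_cast h2)).ne'
  have g1 : ((GG N (b + 1 + c + 1) : ℝ) : ℂ) =
      ((GG N (b + 1 + c) : ℝ) : ℂ) * ((sn N ((b : ℤ) + 1 + c + 1) : ℝ) : ℂ) := by
    rw [GG_succ]
    push_cast
    rfl
  have g2 : ((GG N (b + 1) : ℝ) : ℂ) = ((GG N b : ℝ) : ℂ) * ((sn N ((b : ℤ) + 1) : ℝ) : ℂ) := by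
    rw [GG_succ]
    push_cast
    rfl
  have g3 : ((GG N (c + 1) : ℝ) : ℂ) = ((GG N c : ℝ) : ℂ) * ((sn N ((c : ℤ) + 1) : ℝ) : ℂ) := by
    rw [GG_succ]
    push_cast
    rfl
  have key := QBT_sin N ((c : ℤ) + 1) ((b : ℤ) + 1)
  have k1 : (c : ℤ) + 1 + ((b : ℤ) + 1) = (b : ℤ) + 1 + c + 1 := by ring
  rw [k1] at key
  have k2 : (((c : ℤ) + 1 : ℤ) : ℝ) / (2 * (N : ℝ) + 1) =
      (((b + 1 + c : ℕ) : ℝ) - b) / (2 * N + 1) := by
    push_cast
    ring
  have k3 : -((((b : ℤ) + 1 : ℤ) : ℝ) / (2 * (N : ℝ) + 1)) =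
      -(((b + 1 : ℕ) : ℝ) / (2 * N + 1)) := by
    push_cast
    ring
  rw [k2, k3] at key
  have n1 := hG b (by omega)
  have n2 := hG c (by omega)
  have n3 := hG (b + 1 + c) (by omega)
  have n4 : ((sn N ((b : ℤ) + 1) : ℝ) : ℂ) ≠ 0 := by
    have := hs (b + 1) (by omega) (by omega)
    push_cast at this
    exact this
  have n5 : ((sn N ((c : ℤ) + 1) : ℝ) : ℂ) ≠ 0 := by
    have := hs (c + 1) (by omega) (by omega)
    push_cast at this
    exact this
  push_cast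
  push_cast at key
  rw [g1, g2, g3, key]
  field_simp

theorem thm_QBT : St_QBT := by
  intro N K
  induction K with
  | zero =>
    intro _ z
    simp [GG_zero]
  | succ K ih =>
    intro hK z
    have hG : ∀ m, m ≤ N → GG N m ≠ 0 := fun m hm => (GG_pos hm).ne'
    have hprod : ∏ l ∈ range (K + 1), (1 + z * ee ((2 * (l : ℝ) - ((K + 1 : ℕ) : ℝ) + 1) /
        (2 * N + 1))) = (1 + z * ee ((K : ℝ) / (2 * N + 1))) *
          ∏ l ∈ range K, (1 + (z * ee (-(1 / (2 * (N : ℝ) + 1)))) *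
            ee ((2 * (l : ℝ) - K + 1) / (2 * N + 1))) := by
      rw [prod_range_succ, mul_comm]
      congr 1
      · congr 3
        push_cast
        ring
      · refine prod_congr rfl fun l _ => ?_
        rw [mul_assoc, ← QBT_ee_add]
        congr 3
        push_cast
        ring
    rw [hprod, ← ih (by omega) (z * ee (-(1 / (2 * (N : ℝ) + 1))))]
    have hpow : ∀ b : ℕ, (z * ee (-(1 / (2 * (N : ℝ) + 1)))) ^ b =
        z ^ b * ee (-((b : ℝ) / (2 * N + 1))) := by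
      intro b
      rw [mul_pow, QBT_ee_pow]
      congr 2
      ring
    simp only [hpow]
    rw [add_mul, one_mul]
    -- left side
    rw [sum_range_succ' _ (K + 1), sum_range_succ _ K]
    -- the two sums of the right side
    have hA : ∑ b ∈ range (K + 1), ((GG N K / (GG N b * GG N (K - b)) : ℝ) : ℂ) *
        (z ^ b * ee (-((b : ℝ) / (2 * N + 1)))) =
        (∑ b ∈ range K, ((GG N K / (GG N (b + 1) * GG N (K - (b + 1))) : ℝ) : ℂ) *
          (z ^ (b + 1) * ee (-(((b + 1 : ℕ) : ℝ) / (2 * N + 1))))) + 1 := by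
      rw [sum_range_succ' _ K]
      congr 1
      have h1 : (GG N K / (GG N 0 * GG N (K - 0)) : ℝ) = 1 := by
        rw [GG_zero, Nat.sub_zero, one_mul, div_self (hG K (by omega))]
      rw [h1]
      simp [ee]
    have hB : z * ee ((K : ℝ) / (2 * N + 1)) * ∑ b ∈ range (K + 1),
        ((GG N K / (GG N b * GG N (K - b)) : ℝ) : ℂ) * (z ^ b * ee (-((b : ℝ) / (2 * N + 1)))) =
        (∑ b ∈ range K, ((GG N K / (GG N b * GG N (K - b)) : ℝ) : ℂ) *
          ee (((K : ℝ) - b) / (2 * N + 1)) * z ^ (b + 1)) + z ^ (K + 1) := by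
      rw [mul_sum, sum_range_succ]
      congr 1
      · refine sum_congr rfl fun b _ => ?_
        have h1 : ee (((K : ℝ) - b) / (2 * N + 1)) = ee ((K : ℝ) / (2 * N + 1)) *
            ee (-((b : ℝ) / (2 * N + 1))) := by
          rw [← QBT_ee_add]
          congr 1
          ring
        rw [h1]
        ring
      · have h1 : (GG N K / (GG N K * GG N (K - K)) : ℝ) = 1 := by
          rw [Nat.sub_self, GG_zero, mul_one, div_self (hG K (by omega))]
        have h2 : ee ((K : ℝ) / (2 * N + 1)) * ee (-((K : ℝ) / (2 * N + 1))) = 1 := by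
          rw [← QBT_ee_add, add_neg_cancel]
          simp [ee]
        rw [h1]
        push_cast
        calc _ = z ^ (K + 1) * (ee ((K : ℝ) / (2 * N + 1)) * ee (-((K : ℝ) / (2 * N + 1)))) := by
              ring
          _ = z ^ (K + 1) := by rw [h2, mul_one]
    rw [hB, hA]
    have hC : ((GG N (K + 1) / (GG N (K + 1) * GG N (K + 1 - (K + 1))) : ℝ) : ℂ) = 1 := by
      rw [Nat.sub_self, GG_zero, mul_one, div_self (hG (K + 1) hK)]
      norm_num
    have hD : ((GG N (K + 1) / (GG N 0 * GG N (K + 1 - 0)) : ℝ) : ℂ) = 1 := by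
      rw [GG_zero, Nat.sub_zero, one_mul, div_self (hG (K + 1) hK)]
      norm_num
    rw [hC, hD]
    have hE : ∑ b ∈ range K, ((GG N (K + 1) / (GG N (b + 1) * GG N (K + 1 - (b + 1))) : ℝ) : ℂ) *
        z ^ (b + 1) =
        (∑ b ∈ range K, ((GG N K / (GG N (b + 1) * GG N (K - (b + 1))) : ℝ) : ℂ) *
          (z ^ (b + 1) * ee (-(((b + 1 : ℕ) : ℝ) / (2 * N + 1))))) +
        ∑ b ∈ range K, ((GG N K / (GG N b * GG N (K - b)) : ℝ) : ℂ) *
          ee (((K : ℝ) - b) / (2 * N + 1)) * z ^ (b + 1) := by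
      rw [← sum_add_distrib]
      refine sum_congr rfl fun b hb => ?_
      rw [QBT_rec N K b hK (by have := mem_range.mp hb; omega)]
      ring
    rw [hE]
    ring

end Pool.Agent.CJX
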