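import Pool.Agent.CJX.StB

/-! CJX, module QPP (helper30): `P_k` as a quotient of `q`-factorials. -/

set_option autoImplicit false

open Finset Filter MeasureTheory
open scoped BigOperators

namespace Pool.Agent.CJX

open Pool.Agent.BorTree Pool.Agent.FEC

private theorem QPP_hh (N : ℕ) : hh N = 2 * Real.pi / (2 * N + 1) := rfl

private theorem QPP_norm (N k : ℕ) :
    ‖1 - Complex.exp (2 * Real.pi * Complex.I * (((2 : ℕ) : ℂ) / ((2 * N + 1 : ℕ) : ℂ))) ^ (k + 1)‖ =
      |sn N ((k : ℤ) + 1)| := by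
  rw [← Complex.exp_nat_mul]
  have e1 : (((k + 1 : ℕ) : ℂ) * (2 * Real.pi * Complex.I * (((2 : ℕ) : ℂ) / ((2 * N + 1 : ℕ) : ℂ)))) =
      Complex.I * ((2 * (2 * Real.pi / (2 * N + 1) * ((k : ℝ) + 1)) : ℝ) : ℂ) := by
    push_cast
    ring
  rw [e1, norm_sub_rev, Complex.norm_exp_I_mul_ofReal_sub_one, Real.norm_eq_abs]
  unfold sn
  congr 3
  push_cast
  ring

private theorem QPP_GN (N : ℕ) : GG N N ^ 2 = 2 * N + 1 := by
  have hprim : IsPrimitiveRoot
      (Complex.exp (2 * Real.pi * Complex.I * (((2 : ℕ) : ℂ) / ((2 * N + 1 : ℕ) : ℂ))))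
      (2 * N + 1) := by
    refine Complex.isPrimitiveRoot_exp_of_coprime 2 (2 * N + 1) (by omega) ?_
    rw [Nat.coprime_two_left]
    exact ⟨N, rfl⟩
  have h1 := hprim.prod_one_sub_pow_eq_order
  have h2 := congrArg (fun z : ℂ => ‖z‖) h1
  simp only [norm_prod] at h2
  have h3 : ∀ k ∈ range (2 * N), ‖1 - Complex.exp (2 * Real.pi * Complex.I *
      (((2 : ℕ) : ℂ) / ((2 * N + 1 : ℕ) : ℂ))) ^ (k + 1)‖ = |sn N ((k : ℤ) + 1)| :=
    fun k _ => QPP_norm N k
  rw [Finset.prod_congr rfl h3, ← Finset.abs_prod] at h2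
  have h4 : ∏ k ∈ range (2 * N), sn N ((k : ℤ) + 1) = GG N (2 * N) := rfl
  rw [h4] at h2
  have h5 := GG_reflect (N := N) (a := N) le_rfl
  rw [Nat.sub_self, GG_zero, mul_one, ← two_mul] at h5
  rw [h5, abs_mul, abs_pow, abs_neg, abs_one, one_pow, one_mul, abs_of_nonneg (sq_nonneg _)] at h2
  rw [h2]
  have h6 : ((2 * N : ℕ) : ℂ) + 1 = ((2 * N + 1 : ℕ) : ℂ) := by push_cast; ring
  rw [h6, Complex.norm_natCast]
  push_cast
  ring

theorem thm_QPP : St_QPP := by
  intro N hN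
  refine ⟨QPP_GN N, fun k hk => ⟨?_, fun hk2 m hm => ?_⟩⟩
  · have h1 := PPN_closed hk
    rw [QPP_GN] at h1
    have g1 : GG N (N - k - 1) ≠ 0 := GG_ne (by omega)
    have g2 : GG N (N - k) ≠ 0 := GG_ne (by omega)
    unfold qb
    have e1 : 2 * N - 2 * k - 1 - (N - k - 1) = N - k := by omega
    rw [e1, mul_one_div, eq_div_iff (mul_ne_zero g1 g2), ← h1]
    ring
  · have hcast : (2 * (m : ℤ)) = ((2 * m : ℕ) : ℤ) := by push_cast; ring
    split_ifs with hcond
    · obtain ⟨c1, c2⟩ := hcond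
      have h1 := PP_closed (N := N) (k := k) (y := 2 * m) (by omega) (by omega)
      obtain ⟨a, ha⟩ : ∃ a, 2 * m + k = N + a := ⟨2 * m + k - N, by omega⟩
      have haN : a ≤ N := by omega
      have h2 := GG_reflect (N := N) (a := a) haN
      rw [QPP_GN] at h2
      rw [ha, ← hcast] at h1
      have g1 : GG N (2 * m - k - 1) ≠ 0 := GG_ne (by omega)
      have g2 : GG N (N - a) ≠ 0 := GG_ne (by omega)
      unfold qb
      have e1 : 2 * N - 2 * k - 1 - (2 * m - k - 1) = N - a := by omega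
      rw [e1, mul_one_div, eq_div_iff (mul_ne_zero g1 g2)]
      have h3 : (-1 : ℝ) ^ (k + a) * (-1) ^ N = 1 := by
        rw [← pow_add, show k + a + N = 2 * (m + k) by omega, pow_mul]
        norm_num
      have h4 : (-1 : ℝ) ^ N * (-1) ^ N = 1 := by
        rw [← mul_pow]; norm_num
      have h5 : (-1 : ℝ) ^ k * (-1) ^ a = (-1) ^ N := by
        rw [← pow_add]
        linear_combination (-1 : ℝ) ^ N * h3 - (-1 : ℝ) ^ (k + a) * h4
      linear_combination (GG N (N - a)) * h1 + (-1 : ℝ) ^ k * h2 + (2 * (N : ℝ) + 1) * h5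
    · rw [hcast]
      rcases Nat.lt_or_ge k (2 * m) with h | h
      · rw [PP_eq_zero_right (by omega) (by omega), zero_mul]
      · rw [PP_eq_zero_left h, zero_mul]

end Pool.Agent.CJX
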