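import Pool.Agent.CJX.StA

/-!
# CJX: the reduced formula for `PQ`
-/

set_option autoImplicit false

open Finset
open scoped BigOperators

namespace Pool.Agent.CJX

open Pool.Agent.BorTree Pool.Agent.FEC

private lemma RED_ee_add (x y : ℝ) : ee (x + y) = ee x * ee y := by
  unfold ee
  rw [← Complex.exp_add]
  congr 1
  push_cast
  ring

private lemma RED_ee_int (n : ℤ) : ee (n : ℝ) = 1 := by
  unfold ee
  rw [Complex.exp_eq_one_iff]
  exact ⟨n, by push_cast; ring⟩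

private lemma RED_ee_norm (x : ℝ) : ‖ee x‖ = 1 := by
  unfold ee
  exact Complex.norm_exp_ofReal_mul_I _

private lemma RED_YY (N k : ℕ) (m : ℤ) :
    YY N k (N - m) = -(ee ((N : ℝ) / 2 + (N : ℝ) * (N + 1) / (2 * N + 1))) * aa N k m := by
  have hr : (2 * (N : ℝ) + 1) ≠ 0 := by positivity
  have h1 : PP N k (2 * ((N : ℤ) - m) + 1) = - PP N k (2 * m) := by
    rw [← PP_reflect N k (2 * m)]
    congr 1
    ring
  have h2 : ((((N : ℤ) - m : ℤ) : ℝ) / 2 + ((((N : ℤ) - m : ℤ) : ℝ) ^ 2 + (((N : ℤ) - m : ℤ) : ℝ)) /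
      (2 * N + 1)) = ((N : ℝ) / 2 + (N : ℝ) * (N + 1) / (2 * N + 1)) +
      (((m : ℝ) / 2 + (m : ℝ) ^ 2 / (2 * N + 1)) + ((-2 * m : ℤ) : ℝ)) := by
    push_cast
    field_simp
    ring
  unfold YY aa gg
  rw [h1, h2, RED_ee_add (_ / 2 + _) (_ + _), RED_ee_add (_ / 2 + _) (((-2 * m : ℤ) : ℝ)), RED_ee_int]
  push_cast
  ring

private lemma RED_inner (N R : ℕ) (h : 2 * N + 1 = 15 * R) (hz : ∀ j : ℤ, gz N R (N + 3 * j) = ff R j)
    (m : ℤ) (h1 : 1 ≤ m) (h2 : m ≤ N) (l : ℕ) (hl : (l : ℤ) = N - m) :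
    ∑ z ∈ (Icc 1 (2 * N)).filter (fun z => z % 3 = 1 ∧ l < z ∧ z ≤ 2 * N - l), gz N R z =
      SS R m := by
  unfold SS
  symm
  refine Finset.sum_bij (fun j _ => ((N : ℤ) + 3 * j).toNat) ?_ ?_ ?_ ?_
  · intro j hj
    rw [mem_filter, mem_Icc] at hj ⊢
    omega
  · intro j hj j' hj' e
    rw [mem_filter, mem_Icc] at hj hj'
    omega
  · intro z hzz
    rw [mem_filter, mem_Icc] at hzz
    refine ⟨((z : ℤ) - N) / 3, ?_, ?_⟩
    · rw [mem_filter, mem_Icc]
      omega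
    · omega
  · intro j hj
    rw [mem_filter, mem_Icc] at hj
    have e : (((((N : ℤ) + 3 * j).toNat : ℕ)) : ℤ) = (N : ℤ) + 3 * j := by
      apply Int.toNat_of_nonneg
      omega
    rw [e, hz]

theorem thm_RED (hPSI : St_PSI) (hFLD : St_FLD) (hSWP : St_SWP) : St_RED := by
  intro N R k h
  obtain ⟨hp1, hp2⟩ := hPSI N R h
  have e1 : PQ N k = (-1) ^ (N + 1) * ∑ l ∈ range N, YY N k l *
      ∑ z ∈ (Icc 1 (2 * N)).filter (fun z => z % 3 = 1 ∧ l < z ∧ z ≤ 2 * N - l), gz N R z := by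
    rw [← hSWP N R k h, ← hFLD N R k h, Finset.mul_sum]
    unfold PQ
    refine Finset.sum_congr rfl fun l _ => ?_
    rw [hp1, mul_assoc]
  have e2 : ∑ l ∈ range N, YY N k l *
      ∑ z ∈ (Icc 1 (2 * N)).filter (fun z => z % 3 = 1 ∧ l < z ∧ z ≤ 2 * N - l), gz N R z =
      -(ee ((N : ℝ) / 2 + (N : ℝ) * (N + 1) / (2 * N + 1))) *
      ∑ m ∈ Icc (1 : ℤ) N, aa N k m * SS R m := by
    rw [Finset.mul_sum]
    refine Finset.sum_bij (fun l _ => (N : ℤ) - (l : ℤ)) ?_ ?_ ?_ ?_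
    · intro l hl
      rw [mem_range] at hl
      rw [mem_Icc]
      omega
    · intro l hl l' hl' e
      omega
    · intro m hm
      rw [mem_Icc] at hm
      refine ⟨((N : ℤ) - m).toNat, ?_, ?_⟩
      · rw [mem_range]
        omega
      · omega
    · intro l hl
      rw [mem_range] at hl
      have h3 := RED_YY N k ((N : ℤ) - l)
      have h4 := RED_inner N R h hp2 ((N : ℤ) - l) (by omega) (by omega) l (by omega)
      rw [h4]
      have h5 : ((N : ℤ) - ((N : ℤ) - (l : ℤ))) = (l : ℤ) := by ring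
      rw [h5] at h3
      rw [h3, mul_assoc]
  rw [e1, e2, norm_mul, norm_mul, norm_neg, RED_ee_norm, norm_pow, norm_neg, norm_one, one_pow,
    one_mul, one_mul]

end Pool.Agent.CJX
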