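import Pool.Agent.CJX.StA

/-!
# CJX, module SSM (helper37): `SS` is minus the complementary sum
-/

set_option autoImplicit false

open Finset
open scoped BigOperators

namespace Pool.Agent.CJX

open Pool.Agent.BorTree Pool.Agent.FEC

theorem thm_SSM (h1 : St_FFP) : St_SSM := by
  intro R hR m hm hmR
  have h0 := (h1 R hR).2 (-((m - 1) / 3))
  have hset : Ico (-((m - 1) / 3)) (-((m - 1) / 3) + 3 * (R : ℤ)) =
      (Icc (-m) m).filter (fun j => -m < 3 * j ∧ 3 * j ≤ m) ∪
        (Icc (1 : ℤ) (3 * R)).filter (fun j => m < 3 * j ∧ m ≤ 9 * R - 3 * j) := by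
    ext j
    simp only [mem_Ico, mem_union, mem_filter, mem_Icc]
    omega
  have hdis : Disjoint ((Icc (-m) m).filter (fun j => -m < 3 * j ∧ 3 * j ≤ m))
      ((Icc (1 : ℤ) (3 * R)).filter (fun j => m < 3 * j ∧ m ≤ 9 * R - 3 * j)) := by
    rw [Finset.disjoint_left]
    intro j hj hj'
    simp only [mem_filter, mem_Icc] at hj hj'
    omega
  rw [hset, Finset.sum_union hdis] at h0
  unfold SS
  exact eq_neg_of_add_eq_zero_left h0

end Pool.Agent.CJX
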