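import Pool.Agent.CJX.StA

/-!
# CJX, module SWP: exchange of the sums, reflection (helper12)
-/

set_option autoImplicit false

open Finset
open scoped BigOperators

namespace Pool.Agent.CJX

open Pool.Agent.BorTree Pool.Agent.FEC

/-- `gz` is invariant under `z ↦ 2 N + 1 - z` -/
private theorem SWP_gz (N R z : ℕ) (hz : z ≤ 2 * N + 1) :
    gz N R ((2 * N + 1 - z : ℕ) : ℤ) = gz N R (z : ℤ) := by
  unfold gz
  congr 2
  push_cast [Nat.cast_sub hz]
  ring_nf

/-- the sum over the odd `z` prime to 3 in a symmetric interval -/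
private theorem SWP_refl (N R l : ℕ) (hr : 2 * N + 1 = 15 * R) :
    ∑ z ∈ (range (2 * N + 1)).filter (fun z => (Odd z ∧ ¬ 3 ∣ z) ∧ l < z ∧ z ≤ 2 * N - l),
      gz N R (z : ℤ) =
    ∑ z ∈ (Icc 1 (2 * N)).filter (fun z => z % 3 = 1 ∧ l < z ∧ z ≤ 2 * N - l), gz N R (z : ℤ) := by
  classical
  have h1 : (range (2 * N + 1)).filter (fun z => (Odd z ∧ ¬ 3 ∣ z) ∧ l < z ∧ z ≤ 2 * N - l) =
      (range (2 * N + 1)).filter (fun z => (Odd z ∧ z % 3 = 1) ∧ l < z ∧ z ≤ 2 * N - l) ∪
      (range (2 * N + 1)).filter (fun z => (Odd z ∧ z % 3 = 2) ∧ l < z ∧ z ≤ 2 * N - l) := by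
    ext z
    simp only [mem_filter, mem_range, mem_union, Nat.odd_iff]
    omega
  have h2 : (Icc 1 (2 * N)).filter (fun z => z % 3 = 1 ∧ l < z ∧ z ≤ 2 * N - l) =
      (range (2 * N + 1)).filter (fun z => (Odd z ∧ z % 3 = 1) ∧ l < z ∧ z ≤ 2 * N - l) ∪
      (range (2 * N + 1)).filter (fun z => (¬ Odd z ∧ z % 3 = 1) ∧ l < z ∧ z ≤ 2 * N - l) := by
    ext z
    simp only [mem_filter, mem_range, mem_union, Nat.odd_iff, mem_Icc]
    omega
  rw [h1, h2, sum_union, sum_union]
  · congr 1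
    refine sum_nbij' (fun z => 2 * N + 1 - z) (fun z => 2 * N + 1 - z) ?_ ?_ ?_ ?_ ?_
    · intro z hz
      simp only [mem_filter, mem_range, Nat.odd_iff] at hz ⊢
      omega
    · intro z hz
      simp only [mem_filter, mem_range, Nat.odd_iff] at hz ⊢
      omega
    · intro z hz
      simp only [mem_filter, mem_range] at hz
      omega
    · intro z hz
      simp only [mem_filter, mem_range] at hz
      omega
    · intro z hz
      simp only [mem_filter, mem_range] at hz
      exact (SWP_gz N R z (by omega)).symm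
  · rw [disjoint_left]
    intro z hz hz'
    simp only [mem_filter] at hz hz'
    exact hz'.2.1.1 hz.2.1.1
  · rw [disjoint_left]
    intro z hz hz'
    simp only [mem_filter] at hz hz'
    omega

theorem thm_SWP (hY : St_YSM) : St_SWP := by
  classical
  intro N R k hr
  have hN : 1 ≤ N := by omega
  obtain ⟨y1, y2, -, -, -⟩ := hY N k hN
  set S := (range (2 * N + 1)).filter (fun z => Odd z ∧ ¬ 3 ∣ z) with hS
  -- the tails
  set W : ℕ → ℂ := fun l => ∑ z ∈ S.filter (fun z => l < z), gz N R (z : ℤ) with hW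
  have e1 : ∑ z ∈ S, gz N R (z : ℤ) * F2 N k z =
      ∑ l ∈ range (2 * N + 1), YY N k (l : ℤ) * W l := by
    have h1 : ∀ z ∈ S, gz N R (z : ℤ) * F2 N k z =
        ∑ l ∈ range (2 * N + 1), if l < z then YY N k (l : ℤ) * gz N R (z : ℤ) else 0 := by
      intro z hz
      rw [hS, mem_filter, mem_range] at hz
      rw [y1 z hz.2.1, mul_sum, ← sum_filter]
      have h2 : (range (2 * N + 1)).filter (fun l => l < z) = range z := by
        ext l
        simp only [mem_filter, mem_range]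
        omega
      rw [h2]
      exact sum_congr rfl fun l _ => mul_comm _ _
    rw [sum_congr rfl h1, sum_comm]
    refine sum_congr rfl fun l _ => ?_
    rw [hW]
    simp only
    rw [mul_sum]
    exact (sum_filter (fun z => l < z) fun z => YY N k (l : ℤ) * gz N R (z : ℤ)).symm
  have y3 : YY N k (N : ℤ) = 0 := by
    have h1 := y2 (N : ℤ)
    have h2 : 2 * (N : ℤ) - N = N := by ring
    rw [h2] at h1
    exact self_eq_neg.mp h1
  have e2 : ∑ l ∈ range (2 * N + 1), YY N k (l : ℤ) * W l =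
      ∑ l ∈ range N, YY N k (l : ℤ) * (W l - W (2 * N - l)) := by
    have h0 : 2 * N + 1 = (N + 1) + N := by omega
    rw [h0, sum_range_add, sum_range_succ, y3, zero_mul, add_zero,
      ← sum_range_reflect (fun x => YY N k ((N + 1 + x : ℕ) : ℤ) * W (N + 1 + x)) N,
      ← sum_add_distrib]
    refine sum_congr rfl fun l hl => ?_
    rw [mem_range] at hl
    have h1 : N + 1 + (N - 1 - l) = 2 * N - l := by omega
    rw [h1]
    have h2 : ((2 * N - l : ℕ) : ℤ) = 2 * (N : ℤ) - l := by omega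
    rw [h2, y2]
    ring
  rw [e1, e2]
  refine sum_congr rfl fun l hl => ?_
  rw [mem_range] at hl
  congr 1
  rw [← SWP_refl N R l hr]
  have h3 : W l = W (2 * N - l) + ∑ z ∈ (range (2 * N + 1)).filter
      (fun z => (Odd z ∧ ¬ 3 ∣ z) ∧ l < z ∧ z ≤ 2 * N - l), gz N R (z : ℤ) := by
    rw [hW]
    simp only
    rw [← sum_union]
    · congr 1
      ext z
      simp only [hS, mem_filter, mem_range, mem_union]
      constructor
      · rintro ⟨⟨h4, h5⟩, h6⟩
        by_cases h7 : z ≤ 2 * N - l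
        · exact Or.inr ⟨h4, h5, h6, h7⟩
        · exact Or.inl ⟨⟨h4, h5⟩, by omega⟩
      · rintro (⟨⟨h4, h5⟩, h6⟩ | ⟨h4, h5, h6, h7⟩)
        · exact ⟨⟨h4, h5⟩, by omega⟩
        · exact ⟨⟨h4, h5⟩, h6⟩
    · rw [disjoint_left]
      intro z hz hz'
      simp only [mem_filter] at hz hz'
      omega
  rw [h3]
  ring

end Pool.Agent.CJX
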