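import Pool.Agent.CJX.StB

set_option autoImplicit false

open Finset Filter
open scoped BigOperators

namespace Pool.Agent.CJX

open Pool.Agent.BorTree Pool.Agent.FEC

private theorem TAI_sn {N : ℕ} {p i : ℤ} (hp : 0 ≤ p) (hi : 0 ≤ i) (h6 : 6 * p ≤ 2 * N + 1)
    (h4 : 4 * i ≤ 2 * N + 1) :
    sn N (p - i) ≤ Real.exp (-(4 * (i : ℝ) / (2 * N + 1))) * sn N (p + i) := by
  have hpi0 := Real.pi_pos
  have hh1 := hh_mul N
  have hh0 := hh_pos N
  have hr : (0 : ℝ) < 2 * N + 1 := by positivity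
  have hpR : (0 : ℝ) ≤ p := by exact_mod_cast hp
  have hiR : (0 : ℝ) ≤ i := by exact_mod_cast hi
  have h6R : (6 : ℝ) * p ≤ 2 * N + 1 := by exact_mod_cast h6
  have h4R : (4 : ℝ) * i ≤ 2 * N + 1 := by exact_mod_cast h4
  have hA : hh N * p ≤ Real.pi / 3 := by nlinarith
  have hA0 : 0 ≤ hh N * p := by positivity
  have hd : hh N * i ≤ Real.pi / 2 := by nlinarith
  have hd0 : 0 ≤ hh N * i := by positivity
  have hcos : 1 / 2 ≤ Real.cos (hh N * p) := by
    rw [← Real.cos_pi_div_three]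
    exact Real.cos_le_cos_of_nonneg_of_le_pi hA0 (by linarith) hA
  have hsin : 2 / Real.pi * (hh N * i) ≤ Real.sin (hh N * i) := Real.mul_le_sin hd0 hd
  have hsin2 : 2 / Real.pi * (hh N * i) = 4 * (i : ℝ) / (2 * N + 1) := by
    unfold hh
    field_simp
    ring
  have hsin0 : 0 ≤ Real.sin (hh N * i) :=
    Real.sin_nonneg_of_nonneg_of_le_pi hd0 (by linarith)
  have hsum0 : 0 ≤ Real.sin (hh N * p + hh N * i) :=
    Real.sin_nonneg_of_nonneg_of_le_pi (by positivity) (by linarith)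
  have hsum1 : Real.sin (hh N * p + hh N * i) ≤ 1 := Real.sin_le_one _
  have hid : Real.sin (hh N * p + hh N * i) - Real.sin (hh N * p - hh N * i) =
      2 * Real.cos (hh N * p) * Real.sin (hh N * i) := by
    rw [Real.sin_add, Real.sin_sub]; ring
  have h1 : Real.sin (hh N * p - hh N * i) ≤
      (1 - Real.sin (hh N * i)) * Real.sin (hh N * p + hh N * i) := by
    nlinarith [mul_nonneg hsin0 (sub_nonneg.2 hsum1), mul_nonneg (sub_nonneg.2 hcos) hsin0]
  have h2 : 1 - Real.sin (hh N * i) ≤ Real.exp (-(4 * (i : ℝ) / (2 * N + 1))) := by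
    have h3 := Real.add_one_le_exp (-(4 * (i : ℝ) / (2 * N + 1)))
    rw [← hsin2] at h3 ⊢
    linarith
  rw [sn_eq, sn_eq]
  push_cast
  rw [mul_sub, mul_add]
  nlinarith [mul_le_mul_of_nonneg_right h2 hsum0]

private theorem TAI_qb {N a : ℕ} (hK : 2 * a + 1 ≤ N) (h6 : 6 * (a + 1) ≤ 2 * N + 1) (i : ℕ)
    (hi : i ≤ a) :
    qb N (2 * a + 1) (a - i) ≤
      Real.exp (-(2 * (i : ℝ) ^ 2 / (2 * N + 1))) * qb N (2 * a + 1) a := by
  have hr : (0 : ℝ) < 2 * N + 1 := by positivity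
  induction i with
  | zero => simp
  | succ i ih =>
    have ih := ih (by omega)
    obtain ⟨b, rfl⟩ : ∃ b, a = i + 1 + b := ⟨a - (i + 1), by omega⟩
    have e1 : i + 1 + b - i = b + 1 := by omega
    have e2 : i + 1 + b - (i + 1) = b := by omega
    rw [e1] at ih
    rw [e2]
    set K := 2 * (i + 1 + b) + 1 with hKdef
    set c := 2 * (i + 1 + b) - b with hc
    have e3 : K - (b + 1) = c := by omega
    have e4 : K - b = c + 1 := by omega
    have hb1 : 0 < GG N b := GG_pos (by omega)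
    have hc1 : 0 < GG N c := GG_pos (by omega)
    have hsb : 0 < sn N ((b : ℤ) + 1) := sn_pos (by positivity) (by omega)
    have hsc : 0 < sn N ((c : ℤ) + 1) := sn_pos (by positivity) (by omega)
    have hq : qb N K b * sn N ((c : ℤ) + 1) = qb N K (b + 1) * sn N ((b : ℤ) + 1) := by
      unfold qb
      rw [e3, e4, GG_succ, GG_succ]
      field_simp
    have hq0 : 0 < qb N K (b + 1) := by
      unfold qb
      rw [e3]
      have : 0 < GG N (b + 1) := GG_pos (by omega)
      positivity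
    have hsn := TAI_sn (N := N) (p := ((i + 1 + b : ℕ) : ℤ) + 1) (i := (i : ℤ) + 1) (by positivity)
      (by positivity) (by push_cast at *; omega) (by push_cast at *; omega)
    have e5 : ((i + 1 + b : ℕ) : ℤ) + 1 - ((i : ℤ) + 1) = (b : ℤ) + 1 := by push_cast; ring
    have e6 : ((i + 1 + b : ℕ) : ℤ) + 1 + ((i : ℤ) + 1) = (c : ℤ) + 1 := by
      push_cast at *; omega
    rw [e5, e6] at hsn
    have h1 : qb N K b ≤ qb N K (b + 1) * Real.exp (-(4 * (((i : ℤ) + 1 : ℤ) : ℝ) / (2 * N + 1))) := by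
      refine le_of_mul_le_mul_right ?_ hsc
      rw [hq, mul_assoc]
      exact mul_le_mul_of_nonneg_left hsn hq0.le
    have h2 : qb N K (b + 1) * Real.exp (-(4 * (((i : ℤ) + 1 : ℤ) : ℝ) / (2 * N + 1))) ≤
        (Real.exp (-(2 * (i : ℝ) ^ 2 / (2 * N + 1))) * qb N K (i + 1 + b)) *
          Real.exp (-(4 * (((i : ℤ) + 1 : ℤ) : ℝ) / (2 * N + 1))) :=
      mul_le_mul_of_nonneg_right ih (Real.exp_pos _).le
    refine h1.trans (h2.trans ?_)
    have hq1 : 0 ≤ qb N K (i + 1 + b) := by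
      unfold qb
      have h3 : 0 < GG N (i + 1 + b) := GG_pos (by omega)
      have h4 : 0 < GG N (K - (i + 1 + b)) := GG_pos (by omega)
      positivity
    rw [mul_right_comm, ← Real.exp_add]
    refine mul_le_mul_of_nonneg_right (Real.exp_le_exp.2 ?_) hq1
    push_cast
    rw [← neg_add, neg_le_neg_iff, ← add_div]
    refine div_le_div_of_nonneg_right ?_ hr.le
    nlinarith

private theorem TAI_exp {N i : ℕ} (hN : 1000 ≤ N) (hi : 2 * N + 1 ≤ 400 * (2 * i + 1)) :
    Real.exp (-(2 * (i : ℝ) ^ 2 / (2 * N + 1))) ≤ Real.exp (-(1 / 1000000 * N)) := by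
  have hr : (0 : ℝ) < 2 * N + 1 := by positivity
  have hNR : (1000 : ℝ) ≤ N := by exact_mod_cast hN
  have hiR : (2 : ℝ) * N + 1 ≤ 400 * (2 * i + 1) := by exact_mod_cast hi
  rw [Real.exp_le_exp, neg_le_neg_iff, le_div_iff₀ hr]
  have h1 : (2 * N + 1 : ℝ) / 1000 ≤ i := by linarith
  have h2 : 0 ≤ (2 * N + 1 : ℝ) / 1000 := by positivity
  nlinarith [mul_le_mul h1 h1 h2 (by positivity : (0 : ℝ) ≤ i)]

private theorem TAI_symm {N K b : ℕ} (hb : b ≤ K) : qb N K b = qb N K (K - b) := by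
  unfold qb
  rw [Nat.sub_sub_self hb, mul_comm]

theorem thm_TAI (h1 : St_QPP) (h2 : St_QMX) : St_TAI := by
  refine ⟨1 / 1000000, by norm_num, ?_⟩
  filter_upwards [eventually_ge_atTop 1000] with N hN k hk m hm h400
  have hk' := hk
  unfold Win at hk'
  have hka := abs_le.1 (show |4 * (k : ℤ) - 3 * N| ≤ N / 100 by omega)
  have hkN : k < N := by omega
  have hN1 : 1 ≤ N := by omega
  have hs : 0 < sn N 1 := sn_pos (by norm_num) (by exact_mod_cast hN1)
  obtain ⟨_, h3⟩ := h1 N hN1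
  obtain ⟨h4, h5⟩ := h3 k hkN
  have h5 := h5 (by omega) m hm
  have ea : 2 * N - 2 * k - 1 = 2 * (N - k - 1) + 1 := by omega
  rw [ea] at h4 h5
  have hodd : Odd (2 * (N - k - 1) + 1) := ⟨_, rfl⟩
  have hq0 : 0 < qb N (2 * (N - k - 1) + 1) (N - k - 1) :=
    (h2 N _ (N - k - 1) hodd (by omega) (by omega)).1
  refine le_of_mul_le_mul_right ?_ hs
  rw [mul_assoc, h4, ← abs_of_pos hs, ← abs_mul, h5]
  split_ifs with hc
  · rw [abs_mul, abs_mul, abs_pow, abs_neg, abs_one, one_pow, one_mul,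
      abs_of_pos (show (0 : ℝ) < 2 * N + 1 by positivity),
      abs_of_pos (h2 N _ (2 * m - k - 1) hodd (by omega) (by omega)).1, mul_left_comm]
    refine mul_le_mul_of_nonneg_left ?_ (by positivity)
    by_cases hle : 2 * m ≤ N
    · have e1 : 2 * m - k - 1 = (N - k - 1) - (N - 2 * m) := by omega
      rw [e1]
      refine (TAI_qb (by omega) (by omega) (N - 2 * m) (by omega)).trans ?_
      refine mul_le_mul_of_nonneg_right (TAI_exp hN ?_) hq0.le
      have : |4 * (m : ℤ) - (2 * N + 1)| = 2 * ((N - 2 * m : ℕ) : ℤ) + 1 := by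
        rw [abs_of_neg (by omega)]
        omega
      rw [this] at h400
      omega
    · have e1 : 2 * (N - k - 1) + 1 - (2 * m - k - 1) = (N - k - 1) - (2 * m - N - 1) := by omega
      rw [TAI_symm (by omega), e1]
      refine (TAI_qb (by omega) (by omega) (2 * m - N - 1) (by omega)).trans ?_
      refine mul_le_mul_of_nonneg_right (TAI_exp hN ?_) hq0.le
      have : |4 * (m : ℤ) - (2 * N + 1)| = 2 * ((2 * m - N - 1 : ℕ) : ℤ) + 1 := by
        rw [abs_of_pos (by omega)]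
        omega
      rw [this] at h400
      omega
  · rw [abs_zero]
    positivity

end Pool.Agent.CJX
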