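import Pool.Agent.CJX.StB

/-!
# [XBD] Gaussian-type bound of `XX`
-/

set_option autoImplicit false

open Finset Filter
open scoped BigOperators

namespace Pool.Agent.CJX

open Pool.Agent.BorTree Pool.Agent.FEC

/-- at least `q` of the numbers `2 l - K + 1` have absolute value at most `q` -/
private theorem XBD_cnt (K q : ℕ) (h : q + 1 ≤ K) :
    q ≤ ((range K).filter fun l : ℕ => |2 * (l : ℤ) - K + 1| ≤ q).card := by
  have h1 : Ico ((K - q) / 2) ((K + q + 1) / 2) ⊆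
      (range K).filter fun l : ℕ => |2 * (l : ℤ) - K + 1| ≤ q := by
    intro l hl
    rw [mem_Ico] at hl
    rw [mem_filter, mem_range, abs_le]
    omega
  have h2 := card_le_card h1
  rw [Nat.card_Ico] at h2
  omega

private theorem XBD_rho1 {c Y : ℝ} (hc : 7 / 10 ≤ c) (hc1 : c ≤ 1) (hY : 0 ≤ Y) (hY2 : Y ≤ 2) :
    |(1 + c) - Y| ≤ (1 + c) * Real.exp (Y * (-(9 / 20))) := by
  have hpos : 0 < 1 + c := by linarith
  rcases le_total Y (1 + c) with h | h
  · rw [abs_of_nonneg (by linarith)]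
    have h1 : 1 - Y / 2 ≤ Real.exp (Y * (-(9 / 20))) := by
      have h2 := Real.add_one_le_exp (Y * (-(9 / 20)))
      linarith
    have h3 : (1 + c) * (1 - Y / 2) ≤ (1 + c) * Real.exp (Y * (-(9 / 20))) :=
      mul_le_mul_of_nonneg_left h1 hpos.le
    nlinarith
  · rw [abs_of_nonpos (by linarith)]
    have h1 : (1 : ℝ) / 5 ≤ Real.exp (-(9 / 10)) := by
      have h2 : Real.exp (9 / 10) ≤ 5 := by
        have h3 : Real.exp (9 / 10) ≤ Real.exp 1 := Real.exp_le_exp.2 (by norm_num)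
        have h4 := Real.exp_one_lt_d9
        linarith
      rw [Real.exp_neg, div_le_iff₀ (by norm_num : (0 : ℝ) < 5)]
      have h5 : 0 < Real.exp (9 / 10) := Real.exp_pos _
      rw [← div_eq_inv_mul, le_div_iff₀ h5]
      linarith
    have h2 : Real.exp (-(9 / 10)) ≤ Real.exp (Y * (-(9 / 20))) :=
      Real.exp_le_exp.2 (by linarith)
    have h3 : (1 + c) * (1 / 5) ≤ (1 + c) * Real.exp (Y * (-(9 / 20))) :=
      mul_le_mul_of_nonneg_left (h1.trans h2) hpos.le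
    linarith

private theorem XBD_rho2 {c Y : ℝ} (hc : 0 ≤ c) (hY : 0 ≤ Y) (hY2 : Y ≤ 2) :
    |(1 + c) - Y| ≤ (1 + c) * Real.exp (Y * 0) := by
  rw [mul_zero, Real.exp_zero, mul_one, abs_le]
  constructor <;> linarith

private theorem XBD_rho3 {c Y : ℝ} (hc : -(2 / 125) ≤ c) (hY : 0 ≤ Y) (hY2 : Y ≤ 2) :
    |(1 + c) - Y| ≤ (1 + c) * Real.exp (Y * (1 / 20)) := by
  have hpos : 0 < 1 + c := by linarith
  have h0 := Real.add_one_le_exp (Y * (1 / 20))
  have h3 : (1 + c) * (Y * (1 / 20) + 1) ≤ (1 + c) * Real.exp (Y * (1 / 20)) :=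
    mul_le_mul_of_nonneg_left h0 hpos.le
  refine le_trans ?_ h3
  rw [abs_le]
  constructor <;> nlinarith

private theorem XBD_cos {N : ℕ} {a : ℤ} :
    Real.cos (2 * Real.pi * ((a : ℝ) / (2 * N + 1))) =
      Real.cos (2 * Real.pi * (|(a : ℝ)| / (2 * N + 1))) := by
  rcases abs_cases (a : ℝ) with ⟨h, -⟩ | ⟨h, -⟩
  · rw [h]
  · rw [h, neg_div, mul_neg, Real.cos_neg]

private theorem XBD_c1 {N : ℕ} {a : ℤ} (h : 8 * |(a : ℝ)| ≤ 2 * N + 1) :
    7 / 10 ≤ Real.cos (2 * Real.pi * ((a : ℝ) / (2 * N + 1))) := by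
  have hr : (0 : ℝ) < 2 * N + 1 := by positivity
  rw [XBD_cos]
  have h1 : 2 * Real.pi * (|(a : ℝ)| / (2 * N + 1)) ≤ Real.pi / 4 := by
    have h2 : |(a : ℝ)| / (2 * N + 1) ≤ 1 / 8 := by
      rw [div_le_iff₀ hr]
      linarith
    nlinarith [Real.pi_pos]
  have h3 : Real.cos (Real.pi / 4) ≤ Real.cos (2 * Real.pi * (|(a : ℝ)| / (2 * N + 1))) :=
    Real.cos_le_cos_of_nonneg_of_le_pi (by positivity) (by linarith [Real.pi_pos]) h1
  rw [Real.cos_pi_div_four] at h3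
  have h4 : (7 / 5 : ℝ) ≤ √2 := by
    rw [Real.le_sqrt' (by norm_num)]
    norm_num
  linarith

private theorem XBD_c2 {N : ℕ} {a : ℤ} (h : 4 * |(a : ℝ)| ≤ 2 * N + 1) :
    0 ≤ Real.cos (2 * Real.pi * ((a : ℝ) / (2 * N + 1))) := by
  have hr : (0 : ℝ) < 2 * N + 1 := by positivity
  rw [XBD_cos]
  refine Real.cos_nonneg_of_mem_Icc ⟨?_, ?_⟩
  · have : 0 ≤ 2 * Real.pi * (|(a : ℝ)| / (2 * N + 1)) := by positivity
    linarith [Real.pi_pos]
  · have h2 : |(a : ℝ)| / (2 * N + 1) ≤ 1 / 4 := by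
      rw [div_le_iff₀ hr]
      linarith
    nlinarith [Real.pi_pos]

private theorem XBD_c3 {N : ℕ} {a : ℤ} (h : 400 * |(a : ℝ)| ≤ 101 * (2 * N + 1)) :
    -(2 / 125) ≤ Real.cos (2 * Real.pi * ((a : ℝ) / (2 * N + 1))) := by
  have hr : (0 : ℝ) < 2 * N + 1 := by positivity
  rw [XBD_cos]
  have h1 : 2 * Real.pi * (|(a : ℝ)| / (2 * N + 1)) ≤ Real.pi / 2 + Real.pi / 200 := by
    have h2 : |(a : ℝ)| / (2 * N + 1) ≤ 101 / 400 := by
      rw [div_le_iff₀ hr]
      linarith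
    nlinarith [Real.pi_pos]
  have h3 : Real.cos (Real.pi / 2 + Real.pi / 200) ≤
      Real.cos (2 * Real.pi * (|(a : ℝ)| / (2 * N + 1))) :=
    Real.cos_le_cos_of_nonneg_of_le_pi (by positivity) (by linarith [Real.pi_pos]) h1
  have h4 : Real.cos (Real.pi / 2 + Real.pi / 200) = -Real.sin (Real.pi / 200) := by
    rw [add_comm, Real.cos_add_pi_div_two]
  have h5 : Real.sin (Real.pi / 200) ≤ Real.pi / 200 := Real.sin_le (by positivity)
  have h6 := Real.pi_lt_d2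
  rw [h4] at h3
  linarith

/-- the exponents -/
private noncomputable def XBD_e (N K l : ℕ) : ℝ :=
  (if |2 * (l : ℤ) - K + 1| ≤ ((2 * N + 1) / 8 : ℕ) then -(9 / 20) else 0) +
    (if |2 * (l : ℤ) - K + 1| ≤ ((2 * N + 1) / 4 : ℕ) then 0 else 1 / 20)

private theorem XBD_rho {N K l : ℕ} (hN : 1000 ≤ N) (hK : 200 * K ≤ 101 * N) (hl : l < K) {Y : ℝ}
    (hY : 0 ≤ Y) (hY2 : Y ≤ 2) :
    |(1 + Real.cos (2 * Real.pi * ((2 * (l : ℝ) - K + 1) / (2 * N + 1)))) - Y| ≤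
      (1 + Real.cos (2 * Real.pi * ((2 * (l : ℝ) - K + 1) / (2 * N + 1)))) *
        Real.exp (Y * XBD_e N K l) := by
  set a : ℤ := 2 * (l : ℤ) - K + 1 with ha
  have har : (2 * (l : ℝ) - K + 1) = (a : ℝ) := by rw [ha]; push_cast; ring
  rw [har]
  have habs : ((|a| : ℤ) : ℝ) = |(a : ℝ)| := Int.cast_abs
  unfold XBD_e
  rw [← ha]
  by_cases h1 : |a| ≤ ((2 * N + 1) / 8 : ℕ)
  · have h2 : |a| ≤ ((2 * N + 1) / 4 : ℕ) := by omega
    rw [if_pos h1, if_pos h2, add_zero]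
    refine XBD_rho1 (XBD_c1 ?_) (Real.cos_le_one _) hY hY2
    rw [← habs]
    have h3 : 8 * |a| ≤ 2 * (N : ℤ) + 1 := by omega
    exact_mod_cast h3
  · rw [if_neg h1, zero_add]
    by_cases h2 : |a| ≤ ((2 * N + 1) / 4 : ℕ)
    · rw [if_pos h2]
      refine XBD_rho2 (XBD_c2 ?_) hY hY2
      rw [← habs]
      have h3 : 4 * |a| ≤ 2 * (N : ℤ) + 1 := by omega
      exact_mod_cast h3
    · rw [if_neg h2]
      refine XBD_rho3 (XBD_c3 ?_) hY hY2
      rw [← habs]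
      have h4 : |a| ≤ K := by rw [abs_le]; omega
      have h3 : 400 * |a| ≤ 101 * (2 * (N : ℤ) + 1) := by omega
      exact_mod_cast h3

private theorem XBD_sum {N K : ℕ} (hN : 1000 ≤ N) (hK1 : 49 * N ≤ 100 * K + 100)
    (hK2 : 200 * K ≤ 101 * N) :
    ∑ l ∈ range K, XBD_e N K l ≤ -(1 / 25 * (2 * N + 1)) := by
  set q : ℕ := (2 * N + 1) / 8 with hq
  set q' : ℕ := (2 * N + 1) / 4 with hq'
  have hA := XBD_cnt K q (by omega)
  set A := ((range K).filter fun l : ℕ => |2 * (l : ℤ) - K + 1| ≤ q).card with hAdef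
  set B := ((range K).filter fun l : ℕ => |2 * (l : ℤ) - K + 1| ≤ q').card with hBdef
  have hB : K ≤ B + (K - q') := by
    rcases Nat.lt_or_ge q' K with h | h
    · have := XBD_cnt K q' h
      omega
    · have h1 : (range K).filter (fun l : ℕ => |2 * (l : ℤ) - K + 1| ≤ q') = range K := by
        refine filter_true_of_mem fun l hl => ?_
        rw [mem_range] at hl
        rw [abs_le]
        omega
      rw [hBdef, h1, card_range]
      omega
  have h1 : ∑ l ∈ range K, (if |2 * (l : ℤ) - K + 1| ≤ (q : ℕ) then (-(9 / 20) : ℝ) else 0) =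
      -(9 / 20) * A := by
    rw [← sum_filter, sum_const, nsmul_eq_mul, mul_comm]
  have h2 : ∑ l ∈ range K, (if |2 * (l : ℤ) - K + 1| ≤ (q' : ℕ) then (0 : ℝ) else 1 / 20) =
      1 / 20 * (K - B) := by
    have h3 : ∀ l ∈ range K, (if |2 * (l : ℤ) - K + 1| ≤ (q' : ℕ) then (0 : ℝ) else 1 / 20) =
        1 / 20 - (if |2 * (l : ℤ) - K + 1| ≤ (q' : ℕ) then (1 / 20 : ℝ) else 0) := by
      intro l _
      split_ifs <;> norm_num
    rw [sum_congr rfl h3, sum_sub_distrib, ← sum_filter, sum_const, sum_const, card_range,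
      nsmul_eq_mul, nsmul_eq_mul]
    ring
  have h3 : ∑ l ∈ range K, XBD_e N K l = -(9 / 20) * A + 1 / 20 * (K - B) := by
    rw [← h1, ← h2, ← sum_add_distrib]
    rfl
  rw [h3]
  have hA' : (q : ℝ) ≤ A := by exact_mod_cast hA
  have hB' : (K : ℝ) - B ≤ 1 / 1000 * N * 5 + 2 := by
    have h4 : 200 * K ≤ 200 * B + N + 400 := by omega
    have h5 : (200 : ℝ) * K ≤ 200 * B + N + 400 := by exact_mod_cast h4
    linarith
  have hq1 : (2 * (N : ℝ) + 1) ≤ 8 * q + 8 := by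
    have h4 : 2 * N + 1 ≤ 8 * q + 8 := by omega
    exact_mod_cast h4
  have hN' : (1000 : ℝ) ≤ N := by exact_mod_cast hN
  linarith

/-- [XBD] Gaussian-type bound of `XX`. -/
theorem thm_XBD (h1 : St_XPR) : St_XBD := by
  refine eventually_atTop.2 ⟨1000, fun N hN K hK1 hK2 x => ?_⟩
  have hKN : K ≤ N := by omega
  set Y : ℝ := 1 - Real.cos (2 * Real.pi * x) with hY
  have hY0 : 0 ≤ Y := by rw [hY]; linarith [Real.cos_le_one (2 * Real.pi * x)]
  have hY2 : Y ≤ 2 := by rw [hY]; linarith [Real.neg_one_le_cos (2 * Real.pi * x)]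
  have hG : 0 < GG N K := GG_pos hKN
  set c : ℕ → ℝ := fun l => Real.cos (2 * Real.pi * ((2 * (l : ℝ) - K + 1) / (2 * N + 1))) with hc
  have hcpos : ∀ l, 0 ≤ 1 + c l := fun l => by
    have := Real.neg_one_le_cos (2 * Real.pi * ((2 * (l : ℝ) - K + 1) / (2 * N + 1)))
    show 0 ≤ 1 + Real.cos _
    linarith
  have hx := h1 N K hKN x
  have h0 := h1 N K hKN 0
  rw [mul_zero, Real.cos_zero] at h0
  have h0' : (‖XX N K 0‖ * GG N K) ^ 2 = ∏ l ∈ range K, 2 * (1 + c l) := by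
    rw [h0]
    refine prod_congr rfl fun l _ => ?_
    rw [abs_of_nonneg (hcpos l)]
  have hx' : (‖XX N K x‖ * GG N K) ^ 2 ≤
      (∏ l ∈ range K, 2 * (1 + c l)) * Real.exp (Y * ∑ l ∈ range K, XBD_e N K l) := by
    rw [hx, mul_sum, Real.exp_sum, ← prod_mul_distrib]
    refine prod_le_prod (fun l _ => by positivity) fun l hl => ?_
    rw [mem_range] at hl
    have h2 := XBD_rho hN hK2 hl hY0 hY2
    have h3 : Real.cos (2 * Real.pi * x) +
        Real.cos (2 * Real.pi * ((2 * (l : ℝ) - K + 1) / (2 * N + 1))) =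
        (1 + Real.cos (2 * Real.pi * ((2 * (l : ℝ) - K + 1) / (2 * N + 1)))) - Y := by
      rw [hY]; ring
    rw [h3]
    have h4 := mul_le_mul_of_nonneg_left h2 (by norm_num : (0 : ℝ) ≤ 2)
    refine h4.trans (le_of_eq ?_)
    show _ = 2 * (1 + Real.cos (2 * Real.pi * ((2 * (l : ℝ) - K + 1) / (2 * N + 1)))) * _
    ring
  have hexp : Real.exp (Y * ∑ l ∈ range K, XBD_e N K l) ≤
      Real.exp (-(1 / 50 * Y * (2 * N + 1))) ^ 2 := by
    rw [← Real.exp_nat_mul]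
    refine Real.exp_le_exp.2 ?_
    have h2 := mul_le_mul_of_nonneg_left (XBD_sum hN hK1 hK2) hY0
    push_cast
    linarith
  have h2 : (‖XX N K x‖ * GG N K) ^ 2 ≤
      (‖XX N K 0‖ * GG N K * Real.exp (-(1 / 50 * Y * (2 * N + 1)))) ^ 2 := by
    rw [mul_pow (‖XX N K 0‖ * GG N K), h0']
    refine hx'.trans (mul_le_mul_of_nonneg_left hexp ?_)
    exact prod_nonneg fun l _ => mul_nonneg (by norm_num) (hcpos l)
  have h3 : ‖XX N K x‖ * GG N K ≤
      ‖XX N K 0‖ * GG N K * Real.exp (-(1 / 50 * Y * (2 * N + 1))) :=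
    le_of_sq_le_sq h2 (by positivity)
  have h4 : ‖XX N K x‖ ≤ ‖XX N K 0‖ * Real.exp (-(1 / 50 * Y * (2 * N + 1))) := by
    refine le_of_mul_le_mul_right ?_ hG
    linarith
  have h5 : ‖XX N K 0‖ ≤ ∑ b ∈ range (K + 1), qb N K b := by
    unfold XX
    refine (norm_sum_le _ _).trans (sum_le_sum fun b hb => ?_)
    rw [mem_range] at hb
    have h6 : 0 ≤ qb N K b := by
      unfold qb
      have := GG_pos (N := N) (m := b) (by omega)
      have := GG_pos (N := N) (m := K - b) (by omega)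
      positivity
    have h7 : ee ((b : ℝ) * 0) = 1 := by
      unfold ee
      rw [mul_zero, mul_zero, Complex.ofReal_zero, zero_mul, Complex.exp_zero]
    rw [h7, mul_one, Complex.norm_real, Real.norm_eq_abs, abs_of_nonneg h6]
  exact h4.trans (mul_le_mul_of_nonneg_right h5 (Real.exp_pos _).le)

end Pool.Agent.CJX
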