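import Pool.Agent.CJX.StB

/-!
# CJX, module XPR: the product formula for `|X|`
-/

set_option autoImplicit false

open Finset
open scoped BigOperators

namespace Pool.Agent.CJX

open Pool.Agent.BorTree Pool.Agent.FEC

private lemma XPR_ee_add (x y : ℝ) : ee (x + y) = ee x * ee y := by
  unfold ee
  rw [← Complex.exp_add]
  congr 1
  push_cast
  ring

private lemma XPR_ee_pow (x : ℝ) (n : ℕ) : ee x ^ n = ee (n * x) := by
  unfold ee
  rw [← Complex.exp_nat_mul]
  congr 1
  push_cast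
  ring

/-- `‖1 + ee x‖ = 2 |cos (π x)|` -/
private lemma XPR_norm (x : ℝ) : ‖1 + ee x‖ = 2 * |Real.cos (Real.pi * x)| := by
  have h1 : (1 : ℂ) + ee x = ee (x / 2) * (((2 * Real.cos (Real.pi * x) : ℝ)) : ℂ) := by
    have h2 : (((2 * Real.cos (Real.pi * x) : ℝ)) : ℂ) = ee (x / 2) + ee (-(x / 2)) := by
      unfold ee
      rw [Complex.exp_mul_I, Complex.exp_mul_I]
      have h3 : 2 * Real.pi * (x / 2) = Real.pi * x := by ring
      have h4 : 2 * Real.pi * -(x / 2) = -(Real.pi * x) := by ring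
      rw [h3, h4]
      push_cast
      rw [Complex.cos_neg, Complex.sin_neg]
      ring
    rw [h2, mul_add, ← XPR_ee_add, ← XPR_ee_add]
    have h5 : x / 2 + x / 2 = x := by ring
    have h6 : x / 2 + -(x / 2) = 0 := by ring
    rw [h5, h6]
    have h7 : ee 0 = 1 := by simp [ee]
    rw [h7, add_comm]
  have h8 : ‖ee (x / 2)‖ = 1 := by
    unfold ee
    exact Complex.norm_exp_ofReal_mul_I _
  rw [h1, norm_mul, h8, one_mul, Complex.norm_real, Real.norm_eq_abs, abs_mul, abs_two]

/-- `2 |cos (π (x + y))| * (2 |cos (π (x - y))|) = 2 |cos (2 π x) + cos (2 π y)|` -/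
private lemma XPR_pair (x y : ℝ) : 2 * |Real.cos (Real.pi * (x + y))| *
    (2 * |Real.cos (Real.pi * (x + -y))|) =
    2 * |Real.cos (2 * Real.pi * x) + Real.cos (2 * Real.pi * y)| := by
  have h1 : Real.cos (2 * Real.pi * x) + Real.cos (2 * Real.pi * y) =
      2 * (Real.cos (Real.pi * (x + y)) * Real.cos (Real.pi * (x + -y))) := by
    rw [Real.cos_add_cos]
    have h2 : (2 * Real.pi * x + 2 * Real.pi * y) / 2 = Real.pi * (x + y) := by ring
    have h3 : (2 * Real.pi * x - 2 * Real.pi * y) / 2 = Real.pi * (x + -y) := by ring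
    rw [h2, h3]
    ring
  rw [h1, abs_mul, abs_mul, abs_two]
  ring

theorem thm_XPR (h1 : St_QBT) : St_XPR := by
  intro N K hK x
  have hG : 0 < GG N K := GG_pos hK
  -- the sum as a product
  have hX : XX N K x * ((GG N K : ℝ) : ℂ) =
      ∏ l ∈ range K, (1 + ee (x + (2 * (l : ℝ) - K + 1) / (2 * N + 1))) := by
    have h2 := h1 N K hK (ee x)
    simp only [← XPR_ee_add] at h2
    rw [← h2]
    unfold XX
    rw [sum_mul]
    refine sum_congr rfl fun b _ => ?_
    rw [XPR_ee_pow]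
    unfold qb
    push_cast
    ring
  have hn : ‖XX N K x‖ * GG N K =
      ∏ l ∈ range K, (2 * |Real.cos (Real.pi * (x + (2 * (l : ℝ) - K + 1) / (2 * N + 1)))|) := by
    have h3 : ‖XX N K x * ((GG N K : ℝ) : ℂ)‖ = ‖XX N K x‖ * GG N K := by
      rw [norm_mul, Complex.norm_real, Real.norm_eq_abs, abs_of_pos hG]
    rw [← h3, hX, norm_prod]
    exact prod_congr rfl fun l _ => XPR_norm _
  have hr : ∏ l ∈ range K, (2 * |Real.cos (Real.pi * (x + (2 * (l : ℝ) - K + 1) /
        (2 * N + 1)))|) =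
      ∏ l ∈ range K, (2 * |Real.cos (Real.pi * (x + -((2 * (l : ℝ) - K + 1) /
        (2 * N + 1))))|) := by
    rw [← prod_range_reflect]
    refine prod_congr rfl fun l hl => ?_
    have hl' : l < K := mem_range.mp hl
    have h4 : ((K - 1 - l : ℕ) : ℝ) = (K : ℝ) - 1 - l := by
      rw [Nat.cast_sub (by omega), Nat.cast_sub (by omega)]
      push_cast
      ring
    rw [h4]
    have h5 : (2 * ((K : ℝ) - 1 - l) - K + 1) / (2 * (N : ℝ) + 1) =
        -((2 * (l : ℝ) - K + 1) / (2 * N + 1)) := by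
      ring
    rw [h5]
  rw [pow_two]
  nth_rewrite 2 [hn]
  rw [hn, hr]
  nth_rewrite 2 [← hr]
  rw [← prod_mul_distrib]
  refine prod_congr rfl fun l _ => ?_
  rw [mul_comm]
  exact XPR_pair _ _

end Pool.Agent.CJX
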