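import Pool.Agent.CJX.StA

/-!
# CJX: module YSM (helper75)

`F2` as a sum of `YY`, symmetries.
-/

set_option autoImplicit false

open Finset
open scoped BigOperators

namespace Pool.Agent.CJX

open Pool.Agent.BorTree Pool.Agent.FEC

private theorem YSM_ee_add (x y : ℝ) : ee (x + y) = ee x * ee y := by
  unfold ee
  rw [← Complex.exp_add]
  congr 1
  push_cast
  ring

private theorem YSM_ee_int (n : ℤ) : ee (n : ℝ) = 1 := by
  unfold ee
  rw [Complex.exp_eq_one_iff]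
  refine ⟨n, ?_⟩
  push_cast
  ring

private theorem YSM_ee_half : ee (1 / 2) = -1 := by
  unfold ee
  rw [← Complex.exp_pi_mul_I]
  congr 1
  push_cast
  ring

private theorem YSM_ee_add_int (x : ℝ) (n : ℤ) : ee (x + n) = ee x := by
  rw [YSM_ee_add, YSM_ee_int, mul_one]

private theorem YSM_ee_add_int_half (x : ℝ) (n : ℤ) : ee (x + n + 1 / 2) = - ee x := by
  rw [YSM_ee_add, YSM_ee_add_int, YSM_ee_half]
  ring

private theorem YSM_PP_neg (N k : ℕ) (M : ℤ) : PP N k (-M) = - PP N k M := by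
  unfold PP
  rw [sn_neg, neg_div, neg_mul]
  congr 2
  apply Finset.prod_congr rfl
  intro j _
  have e1 : -M + ((j : ℤ) + 1) = -(M - (j + 1)) := by ring
  have e2 : -M - ((j : ℤ) + 1) = -(M + (j + 1)) := by ring
  rw [e1, e2, sn_neg, sn_neg]
  ring

private theorem YSM_PP_add (N k : ℕ) (M : ℤ) : PP N k (M + (2 * N + 1)) = PP N k M := by
  have h := PP_reflect N k (-M)
  rw [YSM_PP_neg, neg_neg] at h
  rw [← h]
  congr 1
  ring

/-- the terms of `F2` -/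
private noncomputable def YSM_X (N k : ℕ) (i : ℤ) : ℂ :=
  ee (((i : ℝ) ^ 2 + i) / (2 * N + 1)) * (PP N k (2 * i + 1) : ℂ)

private theorem YSM_X_neg (N k : ℕ) (i : ℤ) : YSM_X N k (-i) = - YSM_X N k (i - 1) := by
  unfold YSM_X
  have h1 : (((-i : ℤ) : ℝ) ^ 2 + ((-i : ℤ) : ℝ)) = (((i - 1 : ℤ) : ℝ) ^ 2 + ((i - 1 : ℤ) : ℝ)) := by
    push_cast
    ring
  have h2 : 2 * (-i) + 1 = -(2 * (i - 1) + 1) := by ring
  rw [h1, h2, YSM_PP_neg]
  push_cast
  ring

private theorem YSM_YY_even (N k : ℕ) (j : ℤ) : YY N k (2 * j) = YSM_X N k (2 * j) := by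
  unfold YSM_X YY
  congr 1
  have h : ((2 * j : ℤ) : ℝ) / 2 + (((2 * j : ℤ) : ℝ) ^ 2 + ((2 * j : ℤ) : ℝ)) / (2 * N + 1) =
      (((2 * j : ℤ) : ℝ) ^ 2 + ((2 * j : ℤ) : ℝ)) / (2 * N + 1) + (j : ℤ) := by
    push_cast
    ring
  rw [h, YSM_ee_add_int]

private theorem YSM_YY_odd (N k : ℕ) (j : ℤ) : YY N k (2 * j + 1) = - YSM_X N k (2 * j + 1) := by
  unfold YSM_X YY
  have h : ((2 * j + 1 : ℤ) : ℝ) / 2 +
      (((2 * j + 1 : ℤ) : ℝ) ^ 2 + ((2 * j + 1 : ℤ) : ℝ)) / (2 * N + 1) =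
      (((2 * j + 1 : ℤ) : ℝ) ^ 2 + ((2 * j + 1 : ℤ) : ℝ)) / (2 * N + 1) + (j : ℤ) + 1 / 2 := by
    push_cast
    ring
  rw [h, YSM_ee_add_int_half]
  ring

private theorem YSM_term (N k z l : ℕ) :
    tt N ((wj z l : ℝ) ^ 2 / 2 + (wj z l : ℝ) / 2) * (PP N k (2 * wj z l + 1) : ℂ) =
      YSM_X N k (wj z l) := by
  unfold YSM_X tt
  congr 2
  have h1 : (N : ℝ) + 1 / 2 ≠ 0 := by positivity
  have h2 : (2 : ℝ) * N + 1 ≠ 0 := by positivity
  field_simp

private theorem YSM_one (N k h : ℕ) :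
    F2 N k (2 * h + 1) = ∑ l ∈ range (2 * h + 1), YY N k l := by
  have key : ∀ h : ℕ, ∑ l ∈ range (2 * h + 1), YSM_X N k (2 * (l : ℤ) - 2 * h) =
      ∑ l ∈ range (2 * h + 1), YY N k l := by
    intro h
    induction h with
    | zero =>
      have := YSM_YY_even N k 0
      simp only [mul_zero] at this
      simp [this]
    | succ h ih =>
      have e1 : 2 * (h + 1) + 1 = (2 * h + 1) + 1 + 1 := by ring
      rw [e1, Finset.sum_range_succ, Finset.sum_range_succ', Finset.sum_range_succ (n := 2 * h + 1 + 1),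
        Finset.sum_range_succ (n := 2 * h + 1), ← ih]
      have e2 : ∀ l : ℕ, 2 * (((l + 1 : ℕ) : ℤ)) - 2 * ((h + 1 : ℕ) : ℤ) = 2 * (l : ℤ) - 2 * h := by
        intro l
        push_cast
        ring
      simp only [e2]
      have e3 : (2 * ((0 : ℕ) : ℤ) - 2 * ((h + 1 : ℕ) : ℤ)) = -(2 * (h : ℤ) + 2) := by
        push_cast
        ring
      have e4 : (2 * (h : ℤ) + 2) - 1 = 2 * h + 1 := by ring
      have e5 : 2 * ((2 * h + 1 : ℕ) : ℤ) - 2 * (h : ℤ) = 2 * ((h : ℤ) + 1) := by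
        push_cast
        ring
      have e6 : ((2 * h + 1 : ℕ) : ℤ) = 2 * (h : ℤ) + 1 := by push_cast; ring
      have e7 : ((2 * h + 1 + 1 : ℕ) : ℤ) = 2 * ((h : ℤ) + 1) := by push_cast; ring
      rw [e3, YSM_X_neg, e4, e5, e6, e7, YSM_YY_odd, YSM_YY_even]
  rw [← key h]
  unfold F2
  refine Finset.sum_congr rfl fun l _ => ?_
  rw [YSM_term]
  congr 1
  unfold wj
  push_cast
  ring

private theorem YSM_two (N k : ℕ) (l : ℤ) : YY N k (2 * N - l) = - YY N k l := by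
  unfold YY
  have hN : (2 : ℝ) * N + 1 ≠ 0 := by positivity
  have h : ((2 * N - l : ℤ) : ℝ) / 2 +
      (((2 * N - l : ℤ) : ℝ) ^ 2 + ((2 * N - l : ℤ) : ℝ)) / (2 * N + 1) =
      (l : ℝ) / 2 + ((l : ℝ) ^ 2 + l) / (2 * N + 1) + ((3 * N - 3 * l : ℤ) : ℝ) := by
    push_cast
    field_simp
    ring
  rw [h, YSM_ee_add_int]
  have h2 : 2 * (2 * (N : ℤ) - l) + 1 = 2 * N + 1 - (2 * l + 1 - (2 * N + 1)) := by ring
  have h3 : 2 * l + 1 - (2 * (N : ℤ) + 1) = -(2 * N + 1 - (2 * l + 1)) := by ring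
  rw [h2, PP_reflect, h3, YSM_PP_neg, PP_reflect]
  push_cast
  ring

private theorem YSM_three (N k : ℕ) (l : ℤ) : YY N k (l + (2 * N + 1)) = - YY N k l := by
  unfold YY
  have hN : (2 : ℝ) * N + 1 ≠ 0 := by positivity
  have h : ((l + (2 * N + 1) : ℤ) : ℝ) / 2 +
      (((l + (2 * N + 1) : ℤ) : ℝ) ^ 2 + ((l + (2 * N + 1) : ℤ) : ℝ)) / (2 * N + 1) =
      (l : ℝ) / 2 + ((l : ℝ) ^ 2 + l) / (2 * N + 1) + ((2 * l + 3 * N + 2 : ℤ) : ℝ) + 1 / 2 := by
    push_cast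
    field_simp
    ring
  rw [h, YSM_ee_add_int_half]
  have h2 : 2 * (l + (2 * (N : ℤ) + 1)) + 1 = 2 * l + 1 + (2 * N + 1) + (2 * N + 1) := by ring
  rw [h2, YSM_PP_add, YSM_PP_add]
  ring

private theorem YSM_sum_r (N k : ℕ) : ∑ l ∈ range (2 * N + 1), YY N k l = 0 := by
  have h1 := Finset.sum_range_reflect (fun l : ℕ => YY N k (l : ℤ)) (2 * N + 1)
  have h2 : ∑ j ∈ range (2 * N + 1), YY N k ((2 * N + 1 - 1 - j : ℕ) : ℤ) =
      - ∑ j ∈ range (2 * N + 1), YY N k (j : ℤ) := by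
    rw [← Finset.sum_neg_distrib]
    refine Finset.sum_congr rfl fun j hj => ?_
    rw [Finset.mem_range] at hj
    rw [← YSM_two]
    congr 1
    omega
  rw [h2] at h1
  have h3 := neg_eq_self.1 h1
  exact h3

private theorem YSM_fold (N k : ℕ) (n : ℕ) (hn : n ≤ 2 * (2 * N + 1)) :
    ∑ l ∈ range (2 * (2 * N + 1) - n), YY N k l = - ∑ l ∈ range n, YY N k l := by
  have h0 : ∑ l ∈ range (2 * (2 * N + 1)), YY N k l = 0 := by
    rw [two_mul, Finset.sum_range_add, YSM_sum_r]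
    have : ∑ x ∈ range (2 * N + 1), YY N k ((2 * N + 1 + x : ℕ) : ℤ) =
        - ∑ x ∈ range (2 * N + 1), YY N k (x : ℤ) := by
      rw [← Finset.sum_neg_distrib]
      refine Finset.sum_congr rfl fun j _ => ?_
      rw [← YSM_three]
      congr 1
      push_cast
      ring
    rw [this, YSM_sum_r]
    simp
  induction n with
  | zero => simpa using h0
  | succ n ih =>
    have h1 := ih (by omega)
    have e1 : 2 * (2 * N + 1) - n = (2 * (2 * N + 1) - (n + 1)) + 1 := by omega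
    rw [e1, Finset.sum_range_succ] at h1
    have e2 : ((2 * (2 * N + 1) - (n + 1) : ℕ) : ℤ) = (2 * N - n) + (2 * N + 1) := by omega
    rw [e2, YSM_three, YSM_two] at h1
    rw [Finset.sum_range_succ]
    linear_combination h1

theorem thm_YSM : St_YSM := by
  intro N k _
  have h1 : ∀ z : ℕ, Odd z → F2 N k z = ∑ l ∈ range z, YY N k l := by
    rintro z ⟨h, rfl⟩
    exact YSM_one N k h
  refine ⟨h1, YSM_two N k, YSM_three N k, ?_, ?_⟩
  · intro z hz h0 hlt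
    obtain ⟨n, rfl⟩ := Int.eq_ofNat_of_zero_le h0.le
    have hn : n < 2 * (2 * N + 1) := by exact_mod_cast hlt
    have hno : Odd n := by exact_mod_cast hz
    have e1 : 2 * (2 * (N : ℤ) + 1) - (n : ℤ) = ((2 * (2 * N + 1) - n : ℕ) : ℤ) := by omega
    have hmo : Odd (2 * (2 * N + 1) - n) := by
      rcases hno with ⟨m, rfl⟩
      exact ⟨2 * N + 1 - m - 1, by omega⟩
    have hn0 : 0 < n := by exact_mod_cast h0
    unfold F2z
    rw [e1, Int.sign_eq_one_of_pos (by omega : (0 : ℤ) < ((2 * (2 * N + 1) - n : ℕ) : ℤ)),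
      Int.sign_eq_one_of_pos (by omega : (0 : ℤ) < (n : ℤ)), Int.natAbs_natCast, Int.natAbs_natCast,
      h1 _ hmo, h1 _ hno, YSM_fold N k n hn.le]
    push_cast
    ring
  · intro z
    unfold F2z
    rw [Int.sign_neg, Int.natAbs_neg]
    push_cast
    ring

end Pool.Agent.CJX
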