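import Pool.Agent.CJX.PSI
import Pool.Agent.CJX.YSM
import Pool.Agent.CJX.FLD
import Pool.Agent.CJX.SWP
import Pool.Agent.CJX.RED
import Pool.Agent.CJX.FFP
import Pool.Agent.CJX.SSM
import Pool.Agent.CJX.COR
import Pool.Agent.CJX.PSD
import Pool.Agent.CJX.AVG
import Pool.Agent.CJX.GAU
import Pool.Agent.CJX.NUM
import Pool.Agent.CJX.OSC
import Pool.Agent.CJX.QBT
import Pool.Agent.CJX.XPR
import Pool.Agent.CJX.XBD
import Pool.Agent.CJX.FOU
import Pool.Agent.CJX.QPP
import Pool.Agent.CJX.QMX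
import Pool.Agent.CJX.DIA
import Pool.Agent.CJX.DIB
import Pool.Agent.CJX.DIF
import Pool.Agent.CJX.TAI
import Pool.Agent.CJX.CCD
import Pool.Agent.CJX.BPP
import Pool.Agent.CJX.PQT
import Pool.Agent.CJX.GAP
import Pool.Agent.CJX.NBG
import Pool.Agent.CJX.KOU
import Pool.Agent.CJX.KTA
import Pool.Agent.CJX.KCO
import Pool.Agent.CJX.KIN
import Pool.Agent.CJX.FIN
import Pool.Agent.CJX.MAI

/-!
# CJX: assembly
-/

set_option autoImplicit false

namespace Pool.Agent.CJX

theorem all_PSI : St_PSI := thm_PSI 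
theorem all_YSM : St_YSM := thm_YSM 
theorem all_FLD : St_FLD := thm_FLD all_PSI all_YSM
theorem all_SWP : St_SWP := thm_SWP all_YSM
theorem all_RED : St_RED := thm_RED all_PSI all_FLD all_SWP
theorem all_FFP : St_FFP := thm_FFP 
theorem all_SSM : St_SSM := thm_SSM all_FFP
theorem all_COR : St_COR := thm_COR all_SSM
theorem all_PSD : St_PSD := thm_PSD 
theorem all_AVG : St_AVG := thm_AVG 
theorem all_GAU : St_GAU := thm_GAU 
theorem all_NUM : St_NUM := thm_NUM 
theorem all_OSC : St_OSC := thm_OSC all_AVG all_GAU all_NUM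
theorem all_QBT : St_QBT := thm_QBT 
theorem all_XPR : St_XPR := thm_XPR all_QBT
theorem all_XBD : St_XBD := thm_XBD all_XPR
theorem all_FOU : St_FOU := thm_FOU 
theorem all_QPP : St_QPP := thm_QPP 
theorem all_QMX : St_QMX := thm_QMX 
theorem all_DIA : St_DIA := thm_DIA all_QPP all_FOU
theorem all_DIB : St_DIB := thm_DIB 
theorem all_DIF : St_DIF := thm_DIF all_DIA all_DIB all_XBD all_QPP all_QMX
theorem all_TAI : St_TAI := thm_TAI all_QPP all_QMX
theorem all_CCD : St_CCD := thm_CCD all_DIF all_TAI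
theorem all_BPP : St_BPP := thm_BPP 
theorem all_PQT : St_PQT := thm_PQT 
theorem all_GAP : St_GAP := thm_GAP 
theorem all_NBG : St_NBG := thm_NBG all_GAP
theorem all_KOU : St_KOU := thm_KOU all_BPP all_PQT all_NBG
theorem all_KTA : St_KTA := thm_KTA all_TAI
theorem all_KCO : St_KCO := thm_KCO all_COR all_PSD all_OSC all_CCD
theorem all_KIN : St_KIN := thm_KIN all_RED all_KTA all_KCO
theorem all_FIN : St_FIN := thm_FIN all_KIN all_KOU
theorem all_MAI : St_MAI := thm_MAI all_FIN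

end Pool.Agent.CJX
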