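import Pool.Agent.CJX.StA

/-!
# CJX, module PSI: coefficients of the pattern
-/

set_option autoImplicit false

open Finset
open scoped BigOperators

namespace Pool.Agent.CJX

open Pool.Agent.BorTree Pool.Agent.FEC

private theorem PSI_add (x y : ℝ) : ee (x + y) = ee x * ee y := by
  unfold ee
  rw [← Complex.exp_add]
  congr 1
  push_cast
  ring

private theorem PSI_int (n : ℤ) : ee (n : ℝ) = 1 := by
  unfold ee
  rw [Complex.exp_eq_one_iff]
  exact ⟨n, by push_cast; ring⟩

private theorem PSI_half (m : ℕ) : ee ((m : ℝ) / 2) = (-1) ^ m := by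
  induction m with
  | zero =>
    have := PSI_int 0
    simpa using this
  | succ m ih =>
    have h1 : (((m + 1 : ℕ) : ℝ)) / 2 = (m : ℝ) / 2 + 1 / 2 := by push_cast; ring
    have h2 : ee (1 / 2) = -1 := by
      unfold ee
      rw [← Complex.exp_pi_mul_I]
      congr 1
      push_cast
      ring
    rw [h1, PSI_add, ih, h2, pow_succ]

/-- **PSI**. -/
theorem thm_PSI : St_PSI := by
  intro N R hNR
  have hR : (R : ℝ) ≠ 0 := by
    have : R ≠ 0 := by
      rintro rfl
      omega
    exact_mod_cast this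
  have hN : 2 * (N : ℝ) + 1 = 15 * R := by exact_mod_cast hNR
  have hN' : (N : ℝ) = (15 * R - 1) / 2 := by linarith
  refine ⟨fun l => ?_, fun j => ?_⟩
  · unfold tt ff
    have hw : (wj N l : ℝ) = 2 * l - (N - 1) := by
      unfold wj
      push_cast
      ring
    have h1 : -(15 * (wj N l : ℝ) ^ 2 / 4 + 5 * N * (wj N l : ℝ) / 2) / ((N : ℝ) + 1 / 2) =
        (((N + 1 : ℕ) : ℝ) / 2 + ((2 * (N : ℤ) - 3 - 5 * l : ℤ) : ℝ)) +
          -((3 * (wj N l : ℝ) ^ 2 - wj N l) / (6 * R)) := by
      have h2 : (N : ℝ) + 1 / 2 = 15 * R / 2 := by linarith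
      have h3 : (((N + 1 : ℕ) : ℝ) / 2 + ((2 * (N : ℤ) - 3 - 5 * l : ℤ) : ℝ)) =
          -(5 * (wj N l : ℝ) / 2) := by
        rw [hw]
        push_cast
        ring
      rw [h2, h3]
      generalize (wj N l : ℝ) = w
      rw [hN']
      field_simp
      ring
    rw [h1, PSI_add, PSI_add, PSI_half, PSI_int, mul_one]
  · unfold gz ff
    congr 1
    push_cast
    field_simp
    ring

end Pool.Agent.CJX
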