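import Pool.Agent.CJX.StB

/-!
# CJX, module QMX: maximum of `qb`
-/

set_option autoImplicit false

open Finset
open scoped BigOperators

namespace Pool.Agent.CJX

open Pool.Agent.BorTree Pool.Agent.FEC

theorem thm_QMX : St_QMX := by
  intro N K b hK hKN hb
  obtain ⟨c, hc⟩ := hK
  have h1 : 0 < GG N b := GG_pos (by omega)
  have h2 : 0 < GG N (K - b) := GG_pos (by omega)
  have h3 : 0 < GG N ((K - 1) / 2) := GG_pos (by omega)
  have h4 : 0 < GG N (K - (K - 1) / 2) := GG_pos (by omega)
  have hle : GG N ((K - 1) / 2) * GG N (K - (K - 1) / 2) ≤ GG N b * GG N (K - b) := by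
    rcases le_total b (K - b) with h | h
    · exact Pool.Agent.BorPar.GG_conv' (by omega) (by omega) (by omega) (by omega)
    · rw [mul_comm (GG N b)]
      exact Pool.Agent.BorPar.GG_conv' (by omega) (by omega) (by omega) (by omega)
  unfold qb
  exact ⟨one_div_pos.2 (mul_pos h1 h2), one_div_le_one_div_of_le (mul_pos h3 h4) hle⟩

end Pool.Agent.CJX
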