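import Pool.Agent.CJX.Defs

/-!
# CJX: statements, part A (exact identities)

Frozen statements. The module `Pool/Agent/CJX/<X>.lean` proves `theorem thm_<X> : St_<X>` with the
hypotheses named in the docstring. `r = 2 N + 1`, `e x = ee x = exp (2 π i x)`, `P M = PP N k M`
(`P (-M) = - P M`, `P (r - M) = - P M` (`PP_reflect`), so `P (M + r) = P M`). `2 N + 1 = 15 R` implies that
`R` is odd, `N ≡ 1 (mod 3)`. `ee` is additive: `ee (x + y) = ee x * ee y`, `ee n = 1` for integers,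
`ee (1 / 2) = - 1`, `‖ee x‖ = 1`.
-/

set_option autoImplicit false

open Finset
open scoped BigOperators

namespace Pool.Agent.CJX

open Pool.Agent.BorTree Pool.Agent.FEC

/-- [PSI] With `w = wj N l`: `tt N x = ee (2 x / r)` and
`2 x / r = - (15 w^2 / 2 + 5 N w) / (15 R) = - w^2 / (2 R) - N w / (3 R)`; `2 N = 15 R - 1` gives
`N w / (3 R) = 5 w / 2 - w / (6 R)`, so the value is `ff R w * ee (- 5 w / 2)` and
`ee (- 5 w / 2) = (-1)^w = (-1)^(N + 1)` as `w ≡ N - 1 (mod 2)`. Second part: with `z = N + 3 j`,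
`(z - N)(z - N - 1) / (18 R) = 3 j (3 j - 1) / (18 R) = (3 j^2 - j) / (6 R)`. -/
def St_PSI : Prop := ∀ N R : ℕ, 2 * N + 1 = 15 * R →
  (∀ l : ℕ, tt N (-(15 * (wj N l : ℝ) ^ 2 / 4 + 5 * N * (wj N l : ℝ) / 2)) =
    (-1) ^ (N + 1) * ff R (wj N l)) ∧ ∀ j : ℤ, gz N R (N + 3 * j) = ff R j

/-- [YSM] Let `X i = ee ((i^2 + i) / r) * P (2 i + 1)`, so `tt N (i^2/2 + i/2) * P (2 i + 1) = X i`,
`X (- i) = - X (i - 1)` and `Y l = ee (l / 2) X l = (-1)^l X l`. (1) `z` odd: the weights are the even `i`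
with `|i| ≤ z - 1`; the even `i ≥ 0` give `Y i`, and `i = - i'` with `i' ≥ 2` even gives
`- X (i' - 1) = Y (i' - 1)`. (2) `l' = 2 N - l`: `l' (l' + 1) = (r - 1 - l)(r - l) = r^2 - r (2 l + 1) + l (l + 1)`,
`ee (l' / 2) = ee (l / 2)`, `P (2 l' + 1) = P (2 r - (2 l + 1)) = - P (2 l + 1)`. (3) `ee ((l + r) / 2) =
- ee (l / 2)`, `(l + r)(l + r + 1) / r - l (l + 1) / r` is an integer. (4) from (1) to (3): for `z = r`,
`∑_{l<r} Y l = 0` by (2) (`l ↦ 2 N - l`); for odd `z`, `r < z < 2 r`, by (3)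
`F2 z = ∑_{l<r} Y l + ∑_{l < z - r} Y (l + r) = - ∑_{l < z - r} Y l`, and by (2)
`F2 (2 r - z) = - ∑_{2 r - z ≤ l < r} Y l = ∑_{l < z - r} Y l`; for `z < r` exchange `z` and `2 r - z`.
(5) `Int.sign (-z) = - Int.sign z`. -/
def St_YSM : Prop := ∀ N k : ℕ, 1 ≤ N →
  (∀ z : ℕ, Odd z → F2 N k z = ∑ l ∈ range z, YY N k l) ∧
  (∀ l : ℤ, YY N k (2 * N - l) = - YY N k l) ∧
  (∀ l : ℤ, YY N k (l + (2 * N + 1)) = - YY N k l) ∧
  (∀ z : ℤ, Odd z → 0 < z → z < 2 * (2 * (N : ℤ) + 1) →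
    F2z N k (2 * (2 * (N : ℤ) + 1) - z) = - F2z N k z) ∧
  ∀ z : ℤ, F2z N k (-z) = - F2z N k z

/-- [FLD] (from `St_PSI`, `St_YSM`) The numbers `z = N + 3 wj N l`, `l < N`, are exactly the integers
`z ≡ 1 (mod 6)` with `- r < z < 2 r` (`r ≡ 3 (mod 6)`, `N ≡ 1 (mod 3)`, the first is `- r + 4`, the last
`2 r - 5`). By `St_PSI` the left side is the sum of `g z * F2z z`, `g = gz N R`. The `z ∈ (0, r)` give the
terms `z ≡ 1 (mod 6)` of the right side. `z ∈ (-r, 0)`: put `z' = - z ≡ 5 (mod 6)`, `F2z z = - F2z z'`,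
`(z' + N)(z' + N + 1) - (z' - N)(z' - N - 1) = 2 z' r = 30 z' R`, so
`g (- z') = g z' * ee (- 5 z' / 3) = ee (2 / 3) * g z'`. `z ∈ (r, 2 r)`: put `z' = 2 r - z ≡ 5 (mod 6)`,
`F2z z = - F2z z'` (`St_YSM`), `(2 r - z' - N)(2 r - z' - N - 1) = (z' - N)(z' - N - 1) - 2 r z' + 2 r^2`,
`2 r^2 / (18 R) = 25 R` is an integer, so `g (2 r - z') = g z' * ee (5 z' / 3) = ee (1 / 3) * g z'`.
Together `- (ee (1 / 3) + ee (2 / 3)) = 1` times `g z' F2 z'`, for all `z' ≡ 5 (mod 6)` in `(0, r)`. -/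
def St_FLD : Prop := ∀ N R k : ℕ, 2 * N + 1 = 15 * R →
  ∑ l ∈ range N, ff R (wj N l) * F2z N k (N + 3 * wj N l) =
    ∑ z ∈ (range (2 * N + 1)).filter (fun z => Odd z ∧ ¬ 3 ∣ z), gz N R z * F2 N k z

/-- [SWP] (from `St_YSM`) Insert `F2 N k z = ∑_{l<z} Y l` and exchange the sums:
`∑_{l ≤ 2 N} Y l * W l`, `W l = ∑ g z` over the odd `z`, `3 ∤ z`, `l < z ≤ 2 N`. By `Y (2 N - l) = - Y l` (also
`Y N = 0`) this is `∑_{l<N} Y l * (W l - W (2 N - l))`, and `W l - W (2 N - l)` is the sum of `g z` over the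
odd `z` with `3 ∤ z`, `l < z ≤ 2 N - l`. The reflection `z ↦ r - z` preserves `l < z ≤ 2 N - l` and `g`
(`(r - z - N)(r - z - N - 1) = (N + 1 - z)(N - z)`), changes the parity of `z` and exchanges the classes
`1` and `2` modulo `3` (`3 ∣ r`). So the odd `z ≡ 2 (mod 3)` are replaced by the even `z ≡ 1 (mod 3)`. -/
def St_SWP : Prop := ∀ N R k : ℕ, 2 * N + 1 = 15 * R →
  ∑ z ∈ (range (2 * N + 1)).filter (fun z => Odd z ∧ ¬ 3 ∣ z), gz N R z * F2 N k z =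
    ∑ l ∈ range N, YY N k l *
      ∑ z ∈ (Icc 1 (2 * N)).filter (fun z => z % 3 = 1 ∧ l < z ∧ z ≤ 2 * N - l), gz N R z

/-- [RED] (from `St_PSI`, `St_FLD`, `St_SWP`) `PQ` is `(-1)^(N + 1)` times the left side of `St_FLD`. In
`St_SWP` put `l = N - m`, `1 ≤ m ≤ N`: `(N - m)(N - m + 1) = N (N + 1) - m r + m^2`, `ee (- m / 2) = ee (m / 2)`,
`P (2 (N - m) + 1) = P (r - 2 m) = - P (2 m)`, so `Y (N - m) = - ee (N / 2 + N (N + 1) / r) * gg N m * P (2 m)`.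
The inner sum is over `z = N + 3 j`, `- m < 3 j ≤ m` (`N ≡ 1 (mod 3)`), and `gz N R (N + 3 j) = ff R j`. -/
def St_RED : Prop := ∀ N R k : ℕ, 2 * N + 1 = 15 * R →
  ‖PQ N k‖ = ‖∑ m ∈ Icc (1 : ℤ) N, aa N k m * SS R m‖

/-- [FFP] `(3 (j + R)^2 - (j + R)) / (6 R) = (3 j^2 - j) / (6 R) + j + R / 2 - 1 / 6`, so
`ff R (j + R) = ff R j * ee (- R / 2 + 1 / 6) = ff R j * ee (2 / 3)` (`R` odd). The sum over three
consecutive blocks of length `R` is `(1 + ω + ω^2)` times the sum over one block, `ω = ee (2 / 3)`. -/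
def St_FFP : Prop := ∀ R : ℕ, Odd R → (∀ j : ℤ, ff R (j + R) = ee (2 / 3) * ff R j) ∧
  ∀ a : ℤ, ∑ j ∈ Ico a (a + 3 * R), ff R j = 0

/-- [SSM] (from `St_FFP`) The `j` with `- m < 3 j ≤ m` are the `j` from `- ⌊(m - 1) / 3⌋` to `⌊m / 3⌋`; the
`j` with `m < 3 j`, `m ≤ 9 R - 3 j` are those from `⌊m / 3⌋ + 1` to `3 R - 1 - ⌊(m - 1) / 3⌋`. Together
`3 R` consecutive integers (`⌊m / 3⌋ + ⌊(m - 1) / 3⌋ < 3 R` since `2 m ≤ 9 R - 1`). -/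
def St_SSM : Prop := ∀ R : ℕ, Odd R → ∀ m : ℤ, 1 ≤ m → 2 * m ≤ 9 * R - 1 →
  SS R m = - ∑ j ∈ (Icc (1 : ℤ) (3 * R)).filter (fun j => m < 3 * j ∧ m ≤ 9 * R - 3 * j), ff R j

/-- [COR] (from `St_SSM`) `cc N k m ≠ 0` implies `|4 m - r| ≤ r / 200`, `r = 15 R`, so `m ≤ 3.77 R` and
`2 m ≤ 9 R - 1`; insert `St_SSM` and exchange the sums. Second part: `m ≥ (1/4 - 1/800) 15 R = 3.73125 R`,
so `3 j > m` gives `j > 1.2437 R` and `m ≤ 9 R - 3 j` gives `j ≤ 1.7563 R`. -/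
def St_COR : Prop := ∀ N R k : ℕ, 2 * N + 1 = 15 * R →
  (∑ m ∈ Icc (1 : ℤ) N, cc N k m * SS R m = - ∑ j ∈ Icc (1 : ℤ) (3 * R), ff R j * Ps N R k j) ∧
  ∀ j : ℤ, Ps N R k j ≠ 0 → 31 * (R : ℤ) ≤ 25 * j ∧ 25 * j ≤ 44 * R

/-- [PSD] For `m` with `cc N k m ≠ 0` we have `1 ≤ m ≤ N`, `2 m < 9 R` (see `St_COR`), so `m < 3 j` or
`m ≤ 9 R - 3 j`, and the indicator of both is the sum of the two indicators minus `1`. Hence
`Ps (j + 1) - Ps j = ∑_{i<3} cc (3 j + i) - ∑_{i<3} cc (9 R - 3 j - i)` for all integers `j`. The function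
`j ↦ cc (3 j + i)` has `s`-th difference `(Δ_3^s cc) (3 j + i)`, and `j ↦ cc (9 R - 3 j - i)` has `s`-th
difference `(-1)^s (Δ_3^s cc) (9 R - 3 j - i - 3 s)`. So `‖Δ^s Ps‖ ≤ 6 M μ^(s - 1)` for `1 ≤ s ≤ n`, and
`‖Ps‖ ≤ N M`. -/
def St_PSD : Prop := ∀ (N R k n : ℕ) (M μ : ℝ), 2 * N + 1 = 15 * R → 0 ≤ M → 0 < μ →
  (∀ s ≤ n, ∀ m : ℤ, ‖(fwdDiff (3 : ℤ))^[s] (cc N k) m‖ ≤ M * μ ^ s) →
  ∀ s ≤ n, ∀ j : ℤ, ‖(fwdDiff (1 : ℤ))^[s] (Ps N R k) j‖ ≤ (6 / μ + N) * M * μ ^ s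

end Pool.Agent.CJX
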