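import Pool.Agent.CJX.Defs

/-!
# CJX: statements, part B (oscillating sums) and part C (q-binomial coefficients)

Conventions as in `StA.lean`; `G m = GG N m = ∏_{j=1}^m s(j)`, `s(j) = sn N j = 2 sin (2 π j / r)`.
-/

set_option autoImplicit false

open Finset Filter MeasureTheory
open scoped BigOperators

namespace Pool.Agent.CJX

open Pool.Agent.BorTree Pool.Agent.FEC

/-! ### oscillating sums -/

/-- [AVG] `∑_j ∑_l C(n,l) u (j + l) = ∑_l C(n,l) ∑_j u (j + l)`, and for `0 ≤ l ≤ n` the inner sum over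
`j ∈ [a - n, b]` is the full sum of `u` (`j + l` covers `[a, b]`, outside of it `u = 0`). -/
def St_AVG : Prop := ∀ (u : ℤ → ℂ) (a b : ℤ) (n : ℕ), (∀ j, u j ≠ 0 → a ≤ j ∧ j ≤ b) →
  ∑ j ∈ Icc (a - n) b, ∑ l ∈ range (n + 1), (n.choose l : ℂ) * u (j + l) =
    2 ^ n * ∑ j ∈ Icc a b, u j

/-- [GAU] `ff R (j + l) = ff R j * ee (- (6 j - 1) / (6 R)) ^ l * exp (- π i l^2 / R)` and
`exp (- π i l^2 / R) = ∫ exp (- π u^2 + 2 π β u l) du` with `β = (1 - i) / √(2 R)`, `β^2 = - i / R`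
(`integral_cexp_quadratic`, `integrable_cexp_quadratic`). So the sum is
`ff R j * ∫ exp (- π u^2) ∑_l C(n,l) z^l Ψ (j + l) du`, `z = zu R j u`, and (`E` the shift, `E = 1 + Δ`)
`∑_l C(n,l) z^l Ψ (j + l) = ((1 + z E)^n Ψ) j = ∑_s C(n,s) (1 + z)^(n-s) z^s (Δ^s Ψ) j`, of absolute
value at most `M (|1 + z| + λ |z|)^n`. -/
def St_GAU : Prop := ∀ (R n : ℕ) (Psi : ℤ → ℂ) (M lam : ℝ) (j : ℤ), 1 ≤ R → 0 ≤ M → 0 ≤ lam →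
  (∀ s ≤ n, ‖(fwdDiff (1 : ℤ))^[s] Psi j‖ ≤ M * lam ^ s) →
  ‖∑ l ∈ range (n + 1), (n.choose l : ℂ) * (ff R (j + l) * Psi (j + l))‖ ≤
    M * ∫ u : ℝ, Real.exp (-(Real.pi * u ^ 2)) * (‖1 + zu R j u‖ + lam * ‖zu R j u‖) ^ n

/-- [NUM] `n = 0`: the integral is `1`. Let `n ≥ 1`, so `R ≥ 1250`. `x = (6 j - 1) / (6 R)` is in
`[1.239, 1.76]`, so `|1 + ee (-x)| = 2 |cos (π x)| ≤ 1.47`. `|zu| = exp (2 π u / √(2 R))`. For `|u| ≤ √R / 100`: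
`|zu| ≤ 1.05`, `|zu - ee (-x)| ≤ exp (2 π |u| / √R) - 1 ≤ 0.065`, so the base is at most
`(1.47 + 0.065 + 1.05 / 4) / 2 ≤ 9 / 10` and `(9 / 10)^n ≤ exp (- n / 20)`. For `|u| > √R / 100`: with
`t = 2 π |u| / √(2 R)` the base is at most `(1 + (5 / 4) exp t) / 2 ≤ (9 / 8) exp t ≤ exp (t + 1 / 8)`;
`n t ≤ 2 π √R |u| / (1250 √2) ≤ 0.36 u^2` and `n / 8 ≤ R / 10000 ≤ u^2`, so the integrand is at most
`exp (- 1.78 u^2) ≤ exp (- 0.8 u^2) * exp (- 0.98 R / 10000) ≤ exp (- 0.8 u^2) * exp (- n / 20)`, and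
`∫ exp (- 0.8 u^2) = √(π / 0.8) ≤ 2`. -/
def St_NUM : Prop := ∀ (R n : ℕ) (j : ℤ), 1 ≤ R → 1250 * n ≤ R →
  31 * (R : ℤ) - 25 * n ≤ 25 * j → 25 * j ≤ 44 * R →
  ∫ u : ℝ, Real.exp (-(Real.pi * u ^ 2)) * ((‖1 + zu R j u‖ + 1 / 4 * ‖zu R j u‖) / 2) ^ n ≤
    3 * Real.exp (-((n : ℝ) / 20))

/-- [OSC] (from `St_AVG`, `St_GAU`, `St_NUM`) `St_AVG` for `u j = ff R j * Psi j` (support in
`[31 R / 25, 44 R / 25] ⊆ [1, 3 R]`): the sum is the sum over the integers `j` of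
`[31 R / 25 - n, 44 R / 25]`, at most `13 R / 25 + n + 1 ≤ R + 1` of them, of `2^(-n)` times the sums in
`St_GAU` with `λ = 1 / 4`; use `St_NUM`. -/
def St_OSC : Prop := ∀ (R n : ℕ) (Psi : ℤ → ℂ) (M : ℝ), 1 ≤ R → 0 ≤ M → 1250 * n ≤ R →
  (∀ j, Psi j ≠ 0 → 31 * (R : ℤ) ≤ 25 * j ∧ 25 * j ≤ 44 * R) →
  (∀ s ≤ n, ∀ j : ℤ, ‖(fwdDiff (1 : ℤ))^[s] Psi j‖ ≤ M * (1 / 4) ^ s) →
  ‖∑ j ∈ Icc (1 : ℤ) (3 * R), ff R j * Psi j‖ ≤ 3 * (R + 1) * M * Real.exp (-((n : ℝ) / 20))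

/-! ### q-binomial coefficients -/

/-- [QBT] Induction on `K`. With `[K,b] = G K / (G b G (K - b))`:
`[K+1,b] = [K,b] ee (- b / r) + [K,b-1] ee ((K + 1 - b) / r)`, since
`s (K + 1) = s (K + 1 - b) ee (- b / r) + s b ee ((K + 1 - b) / r)` (`sin (x + y) = sin x e^{- i y} +
sin y e^{i x}`, `x = 2 π (K + 1 - b) / r`, `y = 2 π b / r`). And
`∏_{l ≤ K} (1 + z ee ((2 l - K) / r)) = (1 + z ee (K / r)) * ∏_{l<K} (1 + (z ee (- 1 / r)) ee ((2 l - K + 1) / r))`.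
-/
def St_QBT : Prop := ∀ N K : ℕ, K ≤ N → ∀ z : ℂ,
  ∑ b ∈ range (K + 1), ((GG N K / (GG N b * GG N (K - b)) : ℝ) : ℂ) * z ^ b =
    ∏ l ∈ range K, (1 + z * ee ((2 * (l : ℝ) - K + 1) / (2 * N + 1)))

/-- [XPR] (from `St_QBT`) `z = ee x`, `|1 + ee (x + y)| = 2 |cos (π (x + y))|`; squaring and pairing `l`
with `K - 1 - l` (`y ↦ - y`): `4 cos (π (x + y)) cos (π (x - y)) = 2 (cos (2 π x) + cos (2 π y))`. -/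
def St_XPR : Prop := ∀ N K : ℕ, K ≤ N → ∀ x : ℝ,
  (‖XX N K x‖ * GG N K) ^ 2 = ∏ l ∈ range K,
    2 * |Real.cos (2 * Real.pi * x) + Real.cos (2 * Real.pi * ((2 * (l : ℝ) - K + 1) / (2 * N + 1)))|

/-- [XBD] (from `St_XPR`) Let `y_l = (2 l - K + 1) / r`, `c_l = cos (2 π y_l)`, `Y = 1 - cos (2 π x) ∈ [0, 2]`.
`|y_l| ≤ K / r ≤ 0.2525`, so `c_l ≥ cos (0.505 π) ≥ - 0.016`. The quotient of the right sides for `x` and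
for `0` is the product of `ρ_l = |1 - Y / (1 + c_l)|`. If `c_l ≥ 0.7` (in particular if `|y_l| ≤ 1 / 8`,
at least `r / 8 - 2` values of `l`, as `K ≥ 0.49 N - 1`) then `ρ_l ≤ exp (- 0.45 Y)` (`1 - Y / (1 + c) ≤ 1 - Y / 2`
or `Y / (1 + c) - 1 ≤ 0.18 ≤ exp (- 0.9)`). If `c_l ≥ 0` then `ρ_l ≤ 1`. If `c_l < 0` (then
`|y_l| > 1 / 4`, at most `0.0025 r + 2` values of `l`) then `ρ_l ≤ exp (0.05 Y)` (`ρ_l ≤ 1` if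
`Y ≤ 2 (1 + c_l)`, otherwise `Y ≥ 1` and `ρ_l ≤ (1 + 0.016) / (1 - 0.016)`). So the quotient is at most
`exp (- 0.05 Y r)` for large `N`; take the square root (`0.025 ≥ 1 / 50`) and note
`XX N K 0 = ∑ qb`. -/
def St_XBD : Prop := ∀ᶠ N : ℕ in atTop, ∀ K : ℕ, 49 * N ≤ 100 * K + 100 → 200 * K ≤ 101 * N →
  ∀ x : ℝ, ‖XX N K x‖ ≤ (∑ b ∈ range (K + 1), qb N K b) *
    Real.exp (-(1 / 50 * (1 - Real.cos (2 * Real.pi * x)) * (2 * N + 1)))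

/-- [FOU] Orthogonality: `∑_{w<r} ee (w (b' - b) / r)` is `r` if `b' = b` and `0` otherwise (`|b' - b| < r`). -/
def St_FOU : Prop := ∀ N K b : ℕ, K ≤ N → b < 2 * N + 1 →
  (((if b ≤ K then qb N K b else 0) : ℝ) : ℂ) = 1 / (2 * (N : ℂ) + 1) *
    ∑ w ∈ range (2 * N + 1), XX N K ((w : ℝ) / (2 * N + 1)) * ee (-((w : ℝ) * b / (2 * N + 1)))

/-- [QPP] `GG N N ^ 2 = r`: `∏_{j=1}^{r-1} 2 sin (π j / r) = r` (compare `DDB` in `Pool/Agent/FEC`, or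
`log_GN` in `BorTree/Est3.lean`). (2) `PP N k M * s 1 = (-1)^k ∏_{n=M-k}^{M+k} s n`. For
`k < M = 2 m ≤ N + N`: it is `(-1)^k G (M + k) / G (M - k - 1)` (`PP_closed`); `M + k = N + a` with
`a = 2 m + k - N ≥ 0` (`a ≥ 2 k + 1 - N ≥ 1`), `G (N + a) G (N - a) = (-1)^a G(N)^2` (`GG_reflect`, if
`a ≤ N`, that is `2 m ≤ 2 N - k`), `N - a = K - b` with `K = 2 N - 2 k - 1`, `b = 2 m - k - 1`. The sign is
`(-1)^(k + a) = (-1)^N`. (3) If `2 m ≤ k` or `2 m + k ≥ r` then `PP = 0` (`PP_eq_zero_left`,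
`PP_eq_zero_right`). (4) `M = N`: `PP N k N * s 1 = r / (G (N - k) G (N - k - 1))` (`PPN_closed`). -/
def St_QPP : Prop := ∀ N : ℕ, 1 ≤ N → GG N N ^ 2 = 2 * N + 1 ∧ ∀ k : ℕ, k < N →
  PP N k N * sn N 1 = (2 * N + 1) * qb N (2 * N - 2 * k - 1) (N - k - 1) ∧
  (N ≤ 2 * k → ∀ m : ℕ, m ≤ N → PP N k (2 * m) * sn N 1 =
    if k + 1 ≤ 2 * m ∧ 2 * m ≤ 2 * N - k then
      (-1) ^ N * (2 * N + 1) * qb N (2 * N - 2 * k - 1) (2 * m - k - 1) else 0)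

/-- [QMX] `G b G (K - b)` is at least `G b0 G (K - b0)`, `b0 = (K - 1) / 2` (`GG_conv'` in
`BorPar/Alt.lean`; `K + 1 ≤ N`, `K` odd). -/
def St_QMX : Prop := ∀ N K b : ℕ, Odd K → K + 1 ≤ N → b ≤ K →
  0 < qb N K b ∧ qb N K b ≤ qb N K ((K - 1) / 2)

/-- [DIA] (from `St_QPP`, `St_FOU`) For `0 ≤ l ≤ s` put `m' = m + 3 l ≤ N`, `b = 2 m - k - 1 ≥ 0`,
`K = 2 N - 2 k - 1`. `aa N k m' * s 1 = (-1)^N r gg N m' * (qb (b + 6 l) or 0)` (`St_QPP`),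
`gg N m' = gg N m * ee (1 / 2 + 6 m / r)^l * ee (9 l^2 / r)`, `ee (9 l^2 / r) = exp (18 π i l^2 / r) =
∫ exp (- π u^2 + 2 π α u l) du` with `α = 3 (1 + i) / √r`, and `St_FOU` for `b + 6 l < r`. As
`1 / 2 + 6 m / r = 2 + 3 (4 m - r) / (2 r)`, the `l`-th term is (a constant of absolute value `1`) times
`∑_w XX (w / r) ee (- w b / r) ∫ exp (- π u^2) z^l du` with `z = zv r ((4 m - r) / r) (w / r) u`. The
`s`-th difference is the sum with coefficients `(-1)^(s-l) C(s,l)` (`fwdDiff_iter_eq_sum_shift`), and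
`∑_l (-1)^(s-l) C(s,l) z^l = (z - 1)^s`. -/
def St_DIA : Prop := ∀ (N k s : ℕ) (m : ℤ), 1 ≤ N → k < N → N ≤ 2 * k → (k : ℤ) + 1 ≤ 2 * m →
  m + 3 * s ≤ N →
  ‖(fwdDiff (3 : ℤ))^[s] (aa N k) m‖ * sn N 1 ≤
    ∑ w ∈ range (2 * N + 1), ‖XX N (2 * N - 2 * k - 1) ((w : ℝ) / (2 * N + 1))‖ *
      ∫ u : ℝ, Real.exp (-(Real.pi * u ^ 2)) *
        ‖zv (2 * N + 1) ((4 * m - (2 * N + 1)) / (2 * N + 1)) ((w : ℝ) / (2 * N + 1)) u - 1‖ ^ s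

/-- [DIB] Both sides have period `1` in `x`, so let `|x| ≤ 1 / 2`; `1 - cos (2 π x) ≥ 8 x^2`. As
`|exp ζ - 1| ≤ exp |ζ| - 1`, `‖zv - 1‖ ≤ exp A - 1`, `A = 2 π (3 / 400 + 6 |x|) + 6 √2 π |u| / √r`. Claim:
`exp (- 0.16 x^2 r - (π / 2) u^2) * (exp A - 1)^s ≤ (1 / 5)^s`. If `A ≤ 0.18`: `exp 0.18 - 1 < 1 / 5`.
Otherwise `T = 12 π |x| + 6 √2 π |u| / √r ≥ 0.18 - 0.048 ≥ 0.13`, `T^2 ≤ 2 (1422 x^2 + 712 u^2 / r)`, so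
`0.16 x^2 r + (π / 2) u^2 ≥ r T^2 / 20000`, `A ≤ T + 0.048 ≤ 1.4 T`, `A + log 5 ≤ 14 T`, and
`s (A + log 5) ≤ 14 s T ≤ 14 r T / 2000000 ≤ r T^2 / 20000` because `T ≥ 0.14`; (if `0.13 ≤ T < 0.14`
use `14` replaced by the exact numbers, or start from `s ≤ r / 4000000`). Finally
`∫ exp (- (π / 2) u^2) = √2 ≤ 2`. -/
def St_DIB : Prop := ∀ (r : ℝ) (s : ℕ) (x v : ℝ), 1 ≤ r → 4000000 * (s : ℝ) ≤ r → |v| ≤ 1 / 200 →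
  Real.exp (-(1 / 50 * (1 - Real.cos (2 * Real.pi * x)) * r)) *
    ∫ u : ℝ, Real.exp (-(Real.pi * u ^ 2)) * ‖zv r v x u - 1‖ ^ s ≤ 2 * (1 / 5) ^ s

/-- [DIF] (from `St_DIA`, `St_DIB`, `St_XBD`, `St_QPP`, `St_QMX`) `η = 1 / 4000000`. In the window
`2 K = 4 N - 4 k - 2` satisfies the hypotheses of `St_XBD`, `K + 1 ≤ N`, `N ≤ 2 k`, and
`4 m ≥ (1 - 1 / 200) r` gives `k + 1 ≤ 2 m`, `4 m ≤ (1 + 1 / 200) r` gives `m + 3 s ≤ N`. So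
`‖Δ^s aa‖ s 1 ≤ r * (∑ qb) * 2 (1 / 5)^s ≤ 2 (1 / 5)^s r (K + 1) qb ((K - 1) / 2) = 2 (1 / 5)^s (K + 1) PP N k N s 1`
(`(K - 1) / 2 = N - k - 1`). -/
def St_DIF : Prop := ∃ η : ℝ, 0 < η ∧ ∀ᶠ N : ℕ in atTop, ∀ k : ℕ, Win N k → ∀ s : ℕ,
  (s : ℝ) ≤ η * N → ∀ m : ℤ, 200 * |4 * m - (2 * (N : ℤ) + 1)| ≤ 2 * (N : ℤ) + 1 →
  ‖(fwdDiff (3 : ℤ))^[s] (aa N k) m‖ ≤ 2 * (2 * N + 1) * PP N k N * (1 / 5) ^ s

/-- [TAI] (from `St_QPP`, `St_QMX`) `K = 2 N - 2 k - 1`, `b = 2 m - k - 1`, `b0 = (K - 1) / 2 = N - k - 1`;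
`PP N k (2 m) / PP N k N = ± qb b / qb b0` or `0`. By symmetry (`b ↦ K - b`) let `b = b0 - i`, then
`2 i + 1 = r - 4 m`, `i ≥ r / 1000`. `qb (b0 - i') / qb (b0 - i' + 1) = sin (A - δ) / sin (A + δ)` with
`A = π (K + 1) / r ∈ [π / 5, 3 π / 10]`, `δ = 2 π i' / r`, and
`sin (A - δ) / sin (A + δ) ≤ 1 - sin δ ≤ exp (- δ / 2)` (`sin (A + δ) - sin (A - δ) = 2 cos A sin δ`,
`2 cos A ≥ 1`). The product over `1 ≤ i' ≤ i` is at most `exp (- π i^2 / (2 r))`. -/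
def St_TAI : Prop := ∃ c : ℝ, 0 < c ∧ ∀ᶠ N : ℕ in atTop, ∀ k : ℕ, Win N k → ∀ m : ℕ, m ≤ N →
  2 * (N : ℤ) + 1 ≤ 400 * |4 * (m : ℤ) - (2 * N + 1)| →
  |PP N k (2 * m)| ≤ Real.exp (-(c * N)) * PP N k N

/-- [CCD] (from `St_DIF`, `St_TAI`) If all `m + 3 l`, `0 ≤ l ≤ s`, are in the core `|4 m - r| ≤ r / 200`, the
difference is the one of `aa` (`fwdDiff_iter_eq_sum_shift`): `St_DIF`. If none is, it is `0`.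
Otherwise the core (an interval) has a boundary point between them, all of them satisfy
`|4 m' - r| ≥ r / 200 - 12 s - 4 ≥ r / 400`, so `‖cc m'‖ ≤ exp (- c N) PP N k N` (`|gg| = 1`; for `m'` outside
`[0, N]` it is `0`) and the difference is at most `2^s exp (- c N) PP N k N ≤ (1 / 4)^s PP N k N` if
`8^s ≤ exp (c N)`. -/
def St_CCD : Prop := ∃ η : ℝ, 0 < η ∧ ∀ᶠ N : ℕ in atTop, ∀ k : ℕ, Win N k → ∀ s : ℕ,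
  (s : ℝ) ≤ η * N → ∀ m : ℤ,
  ‖(fwdDiff (3 : ℤ))^[s] (cc N k) m‖ ≤ 2 * (2 * N + 1) * PP N k N * (1 / 4) ^ s

end Pool.Agent.CJX
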